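import Pool.Agent.H58.TC.Sys

/-!
# Part A, bilinear lemmas
-/

namespace Pool.Agent.H58.TC

open Finset

/-- dual characterisation of the norm -/
theorem norm_le_of_inner {H : Type*} [NormedAddCommGroup H] [InnerProductSpace ℝ H] {x : H}
    {ε : ℝ} (hε : 0 ≤ ε) (h : ∀ v : H, ‖v‖ ≤ 1 → |inner ℝ x v| ≤ ε) : ‖x‖ ≤ ε := by
  by_cases hx : ‖x‖ = 0
  · rw [hx]; exact hε
  have hx' : 0 < ‖x‖ := lt_of_le_of_ne (norm_nonneg _) (Ne.symm hx)
  have := h (‖x‖⁻¹ • x) (by rw [norm_smul, norm_inv, norm_norm, inv_mul_cancel₀ hx])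
  rw [real_inner_smul_right, real_inner_self_eq_norm_sq] at this
  have h2 : ‖x‖⁻¹ * ‖x‖ ^ 2 = ‖x‖ := by field_simp
  rw [h2, abs_of_nonneg (norm_nonneg _)] at this
  exact this

namespace Sys

variable {B H : Type*} [CommRing B] [StarRing B] [Algebra ℝ B]
    [NormedAddCommGroup H] [InnerProductSpace ℝ H] (S : Sys B H)

theorem norm_star (Y : B) : ‖S.ι (star Y)‖ = ‖S.ι Y‖ := by
  have h1 : ‖S.ι (star Y)‖ ^ 2 = ‖S.ι Y‖ ^ 2 := by
    rw [← real_inner_self_eq_norm_sq, ← real_inner_self_eq_norm_sq]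
    have e1 : inner ℝ (S.ι (star Y)) (S.ι (star Y)) = inner ℝ (S.ι 1) (S.ι (Y * star Y)) := by
      have := S.sa 1 (star Y) (star Y)
      rwa [mul_one, star_star] at this
    have e2 : inner ℝ (S.ι Y) (S.ι Y) = inner ℝ (S.ι 1) (S.ι (star Y * Y)) := by
      have := S.sa 1 Y Y
      rwa [mul_one] at this
    rw [e1, e2, mul_comm]
  exact (sq_eq_sq₀ (norm_nonneg _) (norm_nonneg _)).1 h1

theorem Df_adj (q : Law ℤ) (f h g : B) :
    inner ℝ (S.ι f) (S.ι (S.Df q h g)) = inner ℝ (S.ι (S.Bf q f g)) (S.ι h) := by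
  unfold Df Bf
  rw [map_E, map_E, E_inner_right, E_inner_left]
  congr 1
  funext b
  rw [← S.U_adj, mul_comm h, S.W_star, ← S.sa, mul_comm]

theorem Bf_ball {p : Law ℤ} {f g : B} (hf : S.Ball f) (hg : S.Ball g) : S.Ball (S.Bf p f g) :=
  Ball.E fun _ => (hf.U _).mul (hg.W _)

theorem norm_Bf_le (p : Law ℤ) (f : B) {g : B} (hg : S.Ball g) :
    ‖S.ι (S.Bf p f g)‖ ≤ ‖S.ι f‖ := by
  unfold Bf
  rw [map_E]
  refine norm_E_le_of_le p fun a => ?_
  rw [mul_comm]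
  exact (hg.W a _).trans (S.norm_U a f).le

theorem norm_Df_le (q : Law ℤ) (h : B) {g : B} (hg : S.Ball g) :
    ‖S.ι (S.Df q h g)‖ ≤ ‖S.ι h‖ := by
  unfold Df
  rw [map_E]
  refine norm_E_le_of_le q fun a => ?_
  rw [S.norm_U, mul_comm]
  exact hg.star.W a _

theorem norm_Af_le (p : Law ℤ) (G : B) : ‖S.ι (S.Af p G)‖ ≤ ‖S.ι G‖ := by
  unfold Af
  rw [map_E]
  exact norm_E_le_of_le p fun a => (S.norm_W a G).le

theorem Bf_conv (p q : Law ℤ) (f g : B) :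
    S.Bf (conv p q) f g = E q (fun b => S.Bf p (S.U b f) (S.W b g)) := by
  unfold Bf
  rw [E_conv, E_comm]
  simp only [S.U_add, S.W_add]

theorem Bf_shift (p : Law ℤ) (b : ℤ) (f g : B) :
    S.Bf p (S.U b f) (S.W b g) = S.U b (S.Bf p f (S.U (-b) (S.W b g))) := by
  unfold Bf
  have := map_E (S.U b).toLinearMap p (fun a => S.U a f * S.W a (S.U (-b) (S.W b g)))
  simp only [AlgHom.toLinearMap_apply] at this
  rw [this]
  congr 1
  funext a
  rw [map_mul, S.comm b a, S.U_neg_cancel, ← S.U_add, ← S.U_add, add_comm]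

theorem norm_Bf_conv_le {p : Law ℤ} {f : B} {m : ℝ}
    (h : ∀ g, S.Ball g → ‖S.ι (S.Bf p f g)‖ ≤ m) (q : Law ℤ) {g : B} (hg : S.Ball g) :
    ‖S.ι (S.Bf (conv p q) f g)‖ ≤ m := by
  rw [S.Bf_conv, map_E]
  refine norm_E_le_of_le q fun b => ?_
  rw [S.Bf_shift, S.norm_U]
  exact h _ ((hg.W b).U _)

theorem Af_conv (p q : Law ℤ) (G : B) : S.Af (conv p q) G = S.Af p (S.Af q G) := by
  unfold Af
  rw [E_conv]
  congr 1
  funext a
  have := map_E (S.W a).toLinearMap q (fun b => S.W b G)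
  simp only [AlgHom.toLinearMap_apply] at this
  rw [this]
  simp only [S.W_add]

theorem Af_symm {z : Law ℤ} (hz : Symm z) (G G' : B) :
    inner ℝ (S.ι (S.Af z G)) (S.ι G') = inner ℝ (S.ι G) (S.ι (S.Af z G')) := by
  unfold Af
  rw [map_E, map_E, E_inner_left, E_inner_right]
  rw [← hz (fun a => inner ℝ (S.ι G) (S.ι (S.W a G')))]
  congr 1
  funext a
  rw [S.W_adj]

/-- The energy inequality for a convolution square. -/
theorem energy_sq {z : Law ℤ} (hz : Symm z) (x : B) :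
    ‖S.ι x - S.ι (S.Af (conv z z) x)‖ ^ 2 ≤ ‖S.ι x‖ ^ 2 - ‖S.ι (S.Af (conv z z) x)‖ ^ 2 := by
  rw [S.Af_conv]
  set y := S.Af z x
  set w := S.Af z y
  have h1 : inner ℝ (S.ι x) (S.ι w) = ‖S.ι y‖ ^ 2 := by
    rw [← real_inner_self_eq_norm_sq, ← S.Af_symm hz]
  have h2 : ‖S.ι w‖ ≤ ‖S.ι y‖ := S.norm_Af_le z y
  have h3 : ‖S.ι w‖ ^ 2 ≤ ‖S.ι y‖ ^ 2 := pow_le_pow_left₀ (norm_nonneg _) h2 2
  rw [norm_sub_sq_real, h1]
  linarith

theorem energy_conv (p : Law ℤ) {z : Law ℤ} (hz : Symm z) (G : B) :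
    ‖S.ι (S.Af p G) - S.ι (S.Af (conv p (conv z z)) G)‖ ^ 2
      ≤ ‖S.ι (S.Af p G)‖ ^ 2 - ‖S.ι (S.Af (conv p (conv z z)) G)‖ ^ 2 := by
  have : S.Af (conv p (conv z z)) G = S.Af (conv z z) (S.Af p G) := by
    rw [← S.Af_conv]; unfold Af; rw [E_conv_comm]
  rw [this]
  exact S.energy_sq hz _

/-- The main term of `Bf p (Df q h g) f`. -/
noncomputable def Mf (p q : Law ℤ) (h g f : B) : B :=
  E q (fun b => S.U (-b) (h * S.Af p (S.W b (star g) * S.U b f)))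

theorem Bf_Df (p q : Law ℤ) (h g f : B) :
    S.Bf p (S.Df q h g) f
      = E p (fun a => E q (fun b => S.U (a - b) (h * S.W b (star g)) * S.W a f)) := by
  unfold Bf Df
  congr 1
  funext a
  have := map_E (S.U a).toLinearMap q (fun b => S.U (-b) (h * S.W b (star g)))
  simp only [AlgHom.toLinearMap_apply] at this
  rw [this, ← E_mul_right]
  simp only [← S.U_add, sub_eq_add_neg]

theorem Mf_eq (p q : Law ℤ) (h g f : B) :
    S.Mf p q h g f
      = E p (fun a => E q (fun b => S.U (-b) (h * S.W (a + b) (star g)) * S.W a f)) := by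
  unfold Mf Af
  rw [E_comm]
  congr 1
  funext b
  rw [← E_mul_left]
  have := map_E (S.U (-b)).toLinearMap p
    (fun a => h * S.W a (S.W b (star g) * S.U b f))
  simp only [AlgHom.toLinearMap_apply] at this
  rw [this]
  congr 1
  funext a
  rw [map_mul, map_mul, map_mul, map_mul, S.W_add, S.comm (-b) a (S.U b f), S.U_neg_cancel',
    mul_assoc]

theorem norm_Bf_Df_sub_Mf {p q : Law ℤ} {ε : ℝ} (hε : 0 ≤ ε) (hq : QI p q ε) {h g f : B}
    (hh : ‖S.ι h‖ ≤ 1) (hg : S.Ball g) (hf : S.Ball f) :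
    ‖S.ι (S.Bf p (S.Df q h g) f) - S.ι (S.Mf p q h g f)‖ ≤ ε := by
  refine norm_le_of_inner hε fun v hv => ?_
  let Ψ : ℤ → ℤ → ℝ := fun a b =>
    inner ℝ (S.ι (S.U (-b) (h * S.W (a + b) (star g)) * S.W a f)) v
  have hΨ : ∀ a b, |Ψ a b| ≤ 1 := by
    intro a b
    refine (abs_real_inner_le_norm _ _).trans ?_
    have h1 : ‖S.ι (S.U (-b) (h * S.W (a + b) (star g)) * S.W a f)‖ ≤ 1 := by
      rw [mul_comm]
      refine (hf.W a _).trans ?_
      rw [S.norm_U, mul_comm]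
      exact (hg.star.W _ _).trans hh
    calc _ ≤ 1 * 1 := mul_le_mul h1 hv (norm_nonneg _) zero_le_one
      _ = 1 := one_mul 1
  have key : inner ℝ (S.ι (S.Bf p (S.Df q h g) f) - S.ι (S.Mf p q h g f)) v
      = E p (fun a => E q (fun b => Ψ a (b - a) - Ψ a b)) := by
    rw [inner_sub_left, S.Bf_Df, S.Mf_eq, map_E, map_E, E_inner_left, E_inner_left, ← E_sub]
    congr 1
    funext a
    rw [map_E, map_E, E_inner_left, E_inner_left, ← E_sub]
    congr 1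
    funext b
    simp only [Ψ, neg_sub, add_sub_cancel]
  rw [key]
  exact norm_E_le_of_le' p (φ := fun a => E q (fun b => Ψ a (b - a) - Ψ a b))
    fun ω => hq ω (Ψ (p.v ω)) (hΨ _)

/-- Bounded by two. -/
def Ball2 (u : B) : Prop := ∀ f, ‖S.ι (u * f)‖ ≤ 2 * ‖S.ι f‖

variable {S} in
theorem Ball2.U {u : B} (hu : S.Ball2 u) (a : ℤ) : S.Ball2 (S.U a u) := fun f => by
  have : S.U a u * f = S.U a (u * S.U (-a) f) := by
    rw [map_mul, S.U_neg_cancel]
  rw [this, S.norm_U]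
  exact (hu _).trans (by rw [S.norm_U])

variable {S} in
theorem Ball2.norm_le {u : B} (hu : S.Ball2 u) : ‖S.ι u‖ ≤ 2 := by
  have := hu 1
  rw [mul_one] at this
  linarith [S.one_le]

variable {S} in
theorem Ball.sub {g g' : B} (hg : S.Ball g) (hg' : S.Ball g') : S.Ball2 (g - g') := fun f => by
  rw [sub_mul, map_sub]
  refine (norm_sub_le _ _).trans ?_
  linarith [hg f, hg' f]

/-- The energy of a structured function. -/
noncomputable def En (p q : Law ℤ) (g f : B) : ℝ :=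
  E q (fun b => ‖S.ι (S.Af p (S.W b (star g) * S.U b f))‖ ^ 2)

theorem En_nonneg (p q : Law ℤ) (g f : B) : 0 ≤ S.En p q g f :=
  E_nonneg _ fun _ => sq_nonneg _

theorem En_le_one (p q : Law ℤ) {g f : B} (hg : S.Ball g) (hf : S.Ball f) :
    S.En p q g f ≤ 1 := by
  refine E_le_of_le _ fun b => ?_
  have h1 : ‖S.ι (S.Af p (S.W b (star g) * S.U b f))‖ ≤ 1 :=
    (S.norm_Af_le _ _).trans ((hg.star.W b).mul (hf.U b)).norm_le
  calc _ ≤ (1 : ℝ) ^ 2 := pow_le_pow_left₀ (norm_nonneg _) h1 2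
    _ = 1 := one_pow 2

theorem inner_Mf_sub_le (p q : Law ℤ) {z : Law ℤ} (hz : Symm z) {h g f u : B}
    (hh : ‖S.ι h‖ ≤ 1) (hu : S.Ball2 u) :
    |inner ℝ (S.ι (S.Mf p q h g f) - S.ι (S.Mf (conv p (conv z z)) q h g f)) (S.ι u)|
      ≤ 2 * Real.sqrt (S.En p q g f - S.En (conv p (conv z z)) q g f) := by
  set p' := conv p (conv z z)
  let G : ℤ → B := fun b => S.W b (star g) * S.U b f
  have h1 : inner ℝ (S.ι (S.Mf p q h g f) - S.ι (S.Mf p' q h g f)) (S.ι u)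
      = E q (fun b => inner ℝ (S.ι (S.U (-b) (h * (S.Af p (G b) - S.Af p' (G b))))) (S.ι u)) := by
    unfold Mf
    rw [map_E, map_E, ← E_sub, E_inner_left]
    congr 1
    funext b
    rw [← map_sub, ← map_sub, ← mul_sub]
  rw [h1]
  have h2 : ∀ b, |inner ℝ (S.ι (S.U (-b) (h * (S.Af p (G b) - S.Af p' (G b))))) (S.ι u)|
      ≤ 2 * ‖S.ι (S.Af p (G b)) - S.ι (S.Af p' (G b))‖ := by
    intro b
    rw [S.U_adj, neg_neg, mul_comm h, S.sa]
    refine (abs_real_inner_le_norm _ _).trans ?_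
    have h3 : ‖S.ι (star (S.Af p (G b) - S.Af p' (G b)) * S.U b u)‖
        ≤ 2 * ‖S.ι (S.Af p (G b)) - S.ι (S.Af p' (G b))‖ := by
      rw [mul_comm]
      refine (hu.U b _).trans ?_
      rw [S.norm_star, map_sub]
    calc _ ≤ 1 * (2 * ‖S.ι (S.Af p (G b)) - S.ι (S.Af p' (G b))‖) :=
        mul_le_mul hh h3 (norm_nonneg _) zero_le_one
      _ = _ := one_mul _
  have h4 : |E q (fun b => inner ℝ (S.ι (S.U (-b) (h * (S.Af p (G b) - S.Af p' (G b))))) (S.ι u))|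
      ≤ E q (fun b => 2 * ‖S.ι (S.Af p (G b)) - S.ι (S.Af p' (G b))‖) :=
    (norm_E_le q (fun b =>
      inner ℝ (S.ι (S.U (-b) (h * (S.Af p (G b) - S.Af p' (G b))))) (S.ι u))).trans
      (E_mono q h2)
  refine h4.trans ?_
  have h5 : E q (fun b => 2 * ‖S.ι (S.Af p (G b)) - S.ι (S.Af p' (G b))‖)
      = 2 * E q (fun b => ‖S.ι (S.Af p (G b)) - S.ι (S.Af p' (G b))‖) := by
    have := E_smul q (2 : ℝ) (fun b => ‖S.ι (S.Af p (G b)) - S.ι (S.Af p' (G b))‖)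
    simpa [smul_eq_mul] using this
  rw [h5]
  refine mul_le_mul_of_nonneg_left ?_ zero_le_two
  refine Real.le_sqrt_of_sq_le ((sq_E_le q _).trans ?_)
  unfold En
  rw [← E_sub]
  exact E_mono q fun b => S.energy_conv p hz (G b)

/-- The structured estimate. -/
theorem inner_Bf_Df_sub_le {p p' q : Law ℤ} {ε : ℝ} (hε : 0 ≤ ε) {z : Law ℤ} (hz : Symm z)
    (hE : ∀ φ : ℤ → B, E p' φ = E (conv p (conv z z)) φ)
    (hq : QI p q ε) (hq' : QI p' q ε) {h g f u : B}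
    (hh : ‖S.ι h‖ ≤ 1) (hg : S.Ball g) (hf : S.Ball f) (hu : S.Ball2 u) :
    |inner ℝ (S.ι (S.Bf p (S.Df q h g) f) - S.ι (S.Bf p' (S.Df q h g) f)) (S.ι u)|
      ≤ 4 * ε + 2 * Real.sqrt (S.En p q g f - S.En p' q g f) := by
  have hM : S.Mf p' q h g f = S.Mf (conv p (conv z z)) q h g f := by
    unfold Mf Af
    simp only [hE]
  have hEn : S.En p' q g f = S.En (conv p (conv z z)) q g f := by
    unfold En Af
    simp only [hE]
  have e : S.ι (S.Bf p (S.Df q h g) f) - S.ι (S.Bf p' (S.Df q h g) f)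
      = (S.ι (S.Bf p (S.Df q h g) f) - S.ι (S.Mf p q h g f))
        - (S.ι (S.Bf p' (S.Df q h g) f) - S.ι (S.Mf p' q h g f))
        + (S.ι (S.Mf p q h g f) - S.ι (S.Mf p' q h g f)) := by abel
  rw [e, inner_add_left, inner_sub_left]
  have h1 := (abs_real_inner_le_norm (S.ι (S.Bf p (S.Df q h g) f) - S.ι (S.Mf p q h g f)) (S.ι u))
  have h2 := (abs_real_inner_le_norm (S.ι (S.Bf p' (S.Df q h g) f) - S.ι (S.Mf p' q h g f)) (S.ι u))
  have h3 := S.norm_Bf_Df_sub_Mf hε hq hh hg hf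
  have h4 := S.norm_Bf_Df_sub_Mf hε hq' hh hg hf
  have h5 := hu.norm_le
  have h6 := S.inner_Mf_sub_le p q hz (g := g) (f := f) hh hu
  rw [← hM, ← hEn] at h6
  have h7 : ‖S.ι (S.Bf p (S.Df q h g) f) - S.ι (S.Mf p q h g f)‖ * ‖S.ι u‖ ≤ ε * 2 :=
    mul_le_mul h3 h5 (norm_nonneg _) hε
  have h8 : ‖S.ι (S.Bf p' (S.Df q h g) f) - S.ι (S.Mf p' q h g f)‖ * ‖S.ι u‖ ≤ ε * 2 :=
    mul_le_mul h4 h5 (norm_nonneg _) hε
  have h9 := abs_le.1 (h1.trans h7)
  have h10 := abs_le.1 (h2.trans h8)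
  have h11 := abs_le.1 h6
  rw [abs_le]
  constructor <;> linarith [h9.1, h9.2, h10.1, h10.2, h11.1, h11.2]

theorem En_anti {p p' q : Law ℤ} {z : Law ℤ} (hz : Symm z)
    (hE : ∀ φ : ℤ → B, E p' φ = E (conv p (conv z z)) φ) (g f : B) :
    S.En p' q g f ≤ S.En p q g f := by
  unfold En Af
  simp only [hE]
  refine E_mono q fun b => ?_
  have := S.energy_conv p hz (S.W b (star g) * S.U b f)
  unfold Af at this
  have h2 := sq_nonneg ‖S.ι (E p fun a => S.W a (S.W b (star g) * S.U b f))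
    - S.ι (E (conv p (conv z z)) fun a => S.W a (S.W b (star g) * S.U b f))‖
  linarith

end Sys

end Pool.Agent.H58.TC
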