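import Pool.Agent.H58.TC.A1

/-!
# Part A, levels and expectations over scales
-/

namespace Pool.Agent.H58.TC

open Finset

theorem Symm.conv {p q : Law ℤ} (hp : Symm p) (hq : Symm q) : Symm (conv p q) := by
  intro φ
  rw [E_conv, E_conv]
  have h1 : E p (fun a => E q (fun b => φ (-(a + b))))
      = E p (fun a => E q (fun b => φ (-a + -b))) := by
    simp only [neg_add]
  rw [h1]
  have h2 : (fun a => E q (fun b => φ (-a + -b))) = fun a => E q (fun b => φ (-a + b)) := by
    funext a
    exact hq (fun b => φ (-a + b))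
  rw [h2]
  exact hp (fun a => E q (fun b => φ (a + b)))

theorem Symm.dirac_zero : Symm (dirac (0 : ℤ)) := by
  intro φ
  rw [E_dirac, E_dirac, neg_zero]

theorem SE.conv_left {q q' : Law ℤ} {a : ℤ} {ε : ℝ} (h : SE q a ε) : SE (conv q q') a ε := by
  intro ψ hψ
  rw [E_conv_comm, E_conv]
  refine abs_E_le_of_le q' fun b => ?_
  have := h (fun c => ψ (b + c)) (fun c => hψ _)
  refine le_trans (le_of_eq ?_) this
  congr 2
  funext c
  rw [add_sub_assoc]

theorem SE.conv_right {q q' : Law ℤ} {a : ℤ} {ε : ℝ} (h : SE q' a ε) : SE (conv q q') a ε := by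
  intro ψ hψ
  rw [E_conv]
  refine abs_E_le_of_le q fun b => ?_
  have := h (fun c => ψ (b + c)) (fun c => hψ _)
  refine le_trans (le_of_eq ?_) this
  congr 2
  funext c
  rw [add_sub_assoc]

theorem SE.add {q : Law ℤ} {a b : ℤ} {ε ε' : ℝ} (h : SE q a ε) (h' : SE q b ε') :
    SE q (a + b) (ε + ε') := by
  intro ψ hψ
  have h1 := h (fun c => ψ (c - b)) (fun c => hψ _)
  have h2 := h' ψ hψ
  have e : E q (fun c => ψ (c - (a + b)) - ψ c)
      = E q (fun c => ψ (c - a - b) - ψ (c - b)) + E q (fun c => ψ (c - b) - ψ c) := by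
    rw [← E_add]
    congr 1
    funext c
    rw [sub_sub]
    ring
  rw [e]
  exact (abs_add_le _ _).trans (add_le_add h1 h2)

theorem SE.zero (q : Law ℤ) : SE q 0 0 := by
  intro ψ _
  simp [E]

theorem SE.mono {q : Law ℤ} {a : ℤ} {ε ε' : ℝ} (h : SE q a ε) (h' : ε ≤ ε') : SE q a ε' :=
  fun ψ hψ => (h ψ hψ).trans h'

theorem QI.mono {p q : Law ℤ} {ε ε' : ℝ} (h : QI p q ε) (h' : ε ≤ ε') : QI p q ε' :=
  fun ω => (h ω).mono h'

theorem QI.conv_conv {p p' q q' : Law ℤ} {ε ε' : ℝ} (h : QI p q ε) (h' : QI p' q' ε') :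
    QI (conv p p') (conv q q') (ε + ε') :=
  fun ω => (h ω.1).conv_left.add (h' ω.2).conv_right

theorem QI.conv_r {p q : Law ℤ} (q' : Law ℤ) {ε : ℝ} (h : QI p q ε) : QI p (conv q q') ε :=
  fun ω => (h ω).conv_left

theorem QI.dirac_zero (q : Law ℤ) : QI (dirac 0) q 0 := fun _ => SE.zero q

/-- Level data: half laws for each level, type and scale, and the number of scales. -/
structure Levels (C : Type) where
  σ : ℕ → C → ℕ → Law ℤ
  R : ℕ → ℕ

namespace Levels

variable {C : Type} (D : Levels C)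

/-- law of a level -/
def mu (i : ℕ) (c : C) (r : ℕ) : Law ℤ := conv (D.σ i c r) (D.σ i c r)

/-- product of the first `k` levels -/
def pk : ℕ → (ℕ → C × ℕ) → Law ℤ
  | 0, _ => dirac 0
  | k + 1, ω => conv (pk k ω) (D.mu k (ω k).1 (ω k).2)

/-- half of the product of the levels `k, .., k + n - 1` -/
def th (k : ℕ) : ℕ → (ℕ → C × ℕ) → Law ℤ
  | 0, _ => dirac 0
  | n + 1, ω => conv (th k n ω) (D.σ (k + n) (ω (k + n)).1 (ω (k + n)).2)

theorem pk_congr {k : ℕ} {ω ω' : ℕ → C × ℕ} (h : ∀ i < k, ω i = ω' i) : D.pk k ω = D.pk k ω' := by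
  induction k with
  | zero => rfl
  | succ k ih =>
    simp only [pk]
    rw [ih fun i hi => h i (by omega), h k (by omega)]

theorem th_symm (hσ : ∀ i c r, Symm (D.σ i c r)) (k n : ℕ) (ω : ℕ → C × ℕ) :
    Symm (D.th k n ω) := by
  induction n with
  | zero => exact Symm.dirac_zero
  | succ n ih => exact ih.conv (hσ _ _ _)

theorem E_pk_add {V : Type*} [AddCommGroup V] [Module ℝ V] (k n : ℕ) (ω : ℕ → C × ℕ)
    (φ : ℤ → V) :
    E (D.pk (k + n) ω) φ = E (conv (D.pk k ω) (conv (D.th k n ω) (D.th k n ω))) φ := by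
  induction n generalizing φ with
  | zero => simp [th, E_conv]
  | succ n ih =>
    rw [← add_assoc]
    simp only [pk, th, mu]
    rw [E_conv, ih]
    simp only [E_conv]
    congr 1
    funext a
    congr 1
    funext b
    rw [E_comm]
    congr 1
    funext c
    congr 1
    funext d
    congr 1
    funext e
    congr 1
    ring

end Levels

variable {C : Type} [Fintype C]

/-- Shifting all scale indices by one. -/
def up (ω : ℕ → C × ℕ) : ℕ → C × ℕ := fun i => ((ω i).1, (ω i).2 + 1)

/-- average over the coordinates `< N` -/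
noncomputable def EN {V : Type*} [AddCommGroup V] [Module ℝ V] (R : ℕ → ℕ) :
    ℕ → ((ℕ → C × ℕ) → V) → (ℕ → C × ℕ) → V
  | 0, F, ω => F ω
  | N + 1, F, ω => ((Fintype.card C : ℝ) * R N)⁻¹ •
      ∑ c : C, ∑ r ∈ range (R N), EN R N F (Function.update ω N (c, r))

section EN

variable {V : Type*} [AddCommGroup V] [Module ℝ V] (R : ℕ → ℕ)

theorem EN_succ (N : ℕ) (F : (ℕ → C × ℕ) → V) (ω : ℕ → C × ℕ) :
    EN R (N + 1) F ω = ((Fintype.card C : ℝ) * R N)⁻¹ •
      ∑ c : C, ∑ r ∈ range (R N), EN R N F (Function.update ω N (c, r)) := rfl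

theorem EN_add (N : ℕ) (F F' : (ℕ → C × ℕ) → V) (ω : ℕ → C × ℕ) :
    EN R N (fun x => F x + F' x) ω = EN R N F ω + EN R N F' ω := by
  induction N generalizing ω with
  | zero => rfl
  | succ N ih =>
    simp only [EN_succ, ih, sum_add_distrib, smul_add]

theorem EN_smul (N : ℕ) (a : ℝ) (F : (ℕ → C × ℕ) → V) (ω : ℕ → C × ℕ) :
    EN R N (fun x => a • F x) ω = a • EN R N F ω := by
  induction N generalizing ω with
  | zero => rfl
  | succ N ih =>
    simp only [EN_succ, ih, ← smul_sum]
    rw [smul_comm]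

theorem EN_sub (N : ℕ) (F F' : (ℕ → C × ℕ) → V) (ω : ℕ → C × ℕ) :
    EN R N (fun x => F x - F' x) ω = EN R N F ω - EN R N F' ω := by
  induction N generalizing ω with
  | zero => rfl
  | succ N ih =>
    simp only [EN_succ, ih, sum_sub_distrib, smul_sub]

theorem EN_map {V' : Type*} [AddCommGroup V'] [Module ℝ V'] (L : V →ₗ[ℝ] V') (N : ℕ)
    (F : (ℕ → C × ℕ) → V) (ω : ℕ → C × ℕ) :
    L (EN R N F ω) = EN R N (fun x => L (F x)) ω := by
  induction N generalizing ω with
  | zero => rfl
  | succ N ih =>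
    simp only [EN_succ, map_smul, map_sum, ih]

theorem EN_const [Nonempty C] (hR : ∀ i, 0 < R i) (N : ℕ) (x : V) (ω : ℕ → C × ℕ) :
    EN R N (fun _ => x) ω = x := by
  induction N generalizing ω with
  | zero => rfl
  | succ N ih =>
    simp only [EN_succ, ih, sum_const, card_univ, card_range]
    rw [← Nat.cast_smul_eq_nsmul ℝ, ← Nat.cast_smul_eq_nsmul ℝ, smul_smul, smul_smul]
    have h1 : (Fintype.card C : ℝ) ≠ 0 := by exact_mod_cast Fintype.card_ne_zero
    have h2 : (R N : ℝ) ≠ 0 := by exact_mod_cast (hR N).ne'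
    rw [mul_assoc, inv_mul_cancel₀ (mul_ne_zero h1 h2), one_smul]

/-- dependence only on coordinates `< n` -/
def Dep (n : ℕ) (F : (ℕ → C × ℕ) → V) : Prop :=
  ∀ ω ω' : ℕ → C × ℕ, (∀ i < n, ω i = ω' i) → F ω = F ω'

theorem EN_mono (N : ℕ) {F F' : (ℕ → C × ℕ) → ℝ} (h : ∀ ω, F ω ≤ F' ω)
    (ω : ℕ → C × ℕ) : EN R N F ω ≤ EN R N F' ω := by
  induction N generalizing ω with
  | zero => exact h ω
  | succ N ih =>
    simp only [EN_succ, smul_eq_mul]
    exact mul_le_mul_of_nonneg_left (sum_le_sum fun c _ => sum_le_sum fun r _ => ih _)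
      (by positivity)

theorem EN_nonneg (N : ℕ) {F : (ℕ → C × ℕ) → ℝ} (h : ∀ ω, 0 ≤ F ω)
    (ω : ℕ → C × ℕ) : 0 ≤ EN R N F ω := by
  induction N generalizing ω with
  | zero => exact h ω
  | succ N ih =>
    simp only [EN_succ, smul_eq_mul]
    exact mul_nonneg (by positivity) (sum_nonneg fun c _ => sum_nonneg fun r _ => ih _)

theorem EN_norm_le {V : Type*} [SeminormedAddCommGroup V] [NormedSpace ℝ V] (N : ℕ)
    (F : (ℕ → C × ℕ) → V) (ω : ℕ → C × ℕ) :
    ‖EN R N F ω‖ ≤ EN R N (fun x => ‖F x‖) ω := by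
  induction N generalizing ω with
  | zero => exact le_rfl
  | succ N ih =>
    simp only [EN_succ, norm_smul, smul_eq_mul]
    have h1 : ‖((Fintype.card C : ℝ) * R N)⁻¹‖ = ((Fintype.card C : ℝ) * R N)⁻¹ :=
      Real.norm_of_nonneg (by positivity)
    rw [h1]
    refine mul_le_mul_of_nonneg_left ?_ (by positivity)
    refine (norm_sum_le _ _).trans (sum_le_sum fun c _ => ?_)
    exact (norm_sum_le _ _).trans (sum_le_sum fun r _ => ih _)

/-- Cauchy-Schwarz -/
theorem EN_sq_le [Nonempty C] (hR : ∀ i, 0 < R i) (N : ℕ) (F : (ℕ → C × ℕ) → ℝ)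
    (ω : ℕ → C × ℕ) : (EN R N F ω) ^ 2 ≤ EN R N (fun x => F x ^ 2) ω := by
  set m := EN R N F ω with hm
  have h := EN_nonneg R N (F := fun x => (F x - m) ^ 2) (fun _ => sq_nonneg _) ω
  have h2 : EN R N (fun x => (F x - m) ^ 2) ω = EN R N (fun x => F x ^ 2) ω - m ^ 2 := by
    have : (fun x : ℕ → C × ℕ => (F x - m) ^ 2)
        = fun x => F x ^ 2 - (2 * m) • F x + m ^ 2 := by
      funext a; simp only [smul_eq_mul]; ring
    rw [this, EN_add, EN_sub, EN_const R hR, EN_smul, smul_eq_mul, ← hm]; ring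
  linarith

/-- Extra coordinates do not matter. -/
theorem EN_dep [Nonempty C] (hR : ∀ i, 0 < R i) {n : ℕ} {F : (ℕ → C × ℕ) → V} (hF : Dep n F)
    (N : ℕ) (hN : n ≤ N) (ω ω' : ℕ → C × ℕ) : EN R N F ω = EN R n F ω' := by
  have key : ∀ m ω ω', (∀ i, m ≤ i → i < n → ω i = ω' i) → EN R m F ω = EN R m F ω' := by
    intro m
    induction m with
    | zero =>
      intro ω ω' h
      exact hF _ _ fun i hi => h i (Nat.zero_le _) hi
    | succ m ih =>
      intro ω ω' h
      simp only [EN_succ]
      congr 1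
      refine sum_congr rfl fun c _ => sum_congr rfl fun r _ => ?_
      refine ih _ _ fun i hi hi' => ?_
      by_cases h' : i = m
      · subst h'; simp
      · rw [Function.update_of_ne h', Function.update_of_ne h']
        exact h i (by omega) hi'
  induction N, hN using Nat.le_induction generalizing ω with
  | base => exact key n ω ω' fun i h1 h2 => by omega
  | succ N hN ih =>
    rw [EN_succ]
    have : ∀ c : C, ∀ r ∈ range (R N), EN R N F (Function.update ω N (c, r)) = EN R n F ω' :=
      fun c r _ => ih _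
    rw [sum_congr rfl fun c _ => sum_congr rfl (this c)]
    simp only [sum_const, card_univ, card_range]
    rw [← Nat.cast_smul_eq_nsmul ℝ, ← Nat.cast_smul_eq_nsmul ℝ, smul_smul, smul_smul]
    have h1 : (Fintype.card C : ℝ) ≠ 0 := by exact_mod_cast Fintype.card_ne_zero
    have h2 : (R N : ℝ) ≠ 0 := by exact_mod_cast (hR N).ne'
    rw [mul_assoc, inv_mul_cancel₀ (mul_ne_zero h1 h2), one_smul]

/-- shifting the scale indices `< N` by one -/
def upN (N : ℕ) (ω : ℕ → C × ℕ) : ℕ → C × ℕ := fun i => if i < N then ((ω i).1, (ω i).2 + 1)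
  else ω i

theorem EN_upN_succ (N : ℕ) (e : (ℕ → C × ℕ) → ℝ) (ω : ℕ → C × ℕ) (c : C) (r : ℕ) :
    EN R N (fun x => e (upN (N + 1) x)) (Function.update ω N (c, r))
      = EN R N (fun x => e (upN N x)) (Function.update ω N (c, r + 1)) := by
  have key : ∀ m ≤ N, ∀ ω ω' : ℕ → C × ℕ, (∀ i, i ≠ N → ω i = ω' i) →
      (ω N).1 = (ω' N).1 → (ω N).2 + 1 = (ω' N).2 →
      EN R m (fun x => e (upN (N + 1) x)) ω = EN R m (fun x => e (upN N x)) ω' := by
    intro m
    induction m with
    | zero =>
      intro _ ω ω' h h1 h2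
      simp only [EN]
      congr 1
      funext i
      unfold upN
      by_cases hi : i = N
      · subst hi
        rw [if_pos (by omega), if_neg (by omega)]
        ext
        · exact h1
        · exact h2
      · by_cases hi' : i < N
        · rw [if_pos (by omega), if_pos hi', h i hi]
        · rw [if_neg (by omega), if_neg hi', h i hi]
    | succ m ih =>
      intro hm ω ω' h h1 h2
      simp only [EN_succ]
      congr 1
      refine sum_congr rfl fun c _ => sum_congr rfl fun r _ => ?_
      refine ih (by omega) _ _ (fun i hi => ?_) ?_ ?_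
      · by_cases hi' : i = m
        · subst hi'; simp
        · rw [Function.update_of_ne hi', Function.update_of_ne hi', h i hi]
      · rw [Function.update_of_ne (by omega), Function.update_of_ne (by omega)]; exact h1
      · rw [Function.update_of_ne (by omega), Function.update_of_ne (by omega)]; exact h2
  refine key N le_rfl _ _ (fun i hi => ?_) ?_ ?_
  · rw [Function.update_of_ne hi, Function.update_of_ne hi]
  · simp
  · simp

theorem EN_telescope_aux [Nonempty C] (hR : ∀ i, 0 < R i) (e : (ℕ → C × ℕ) → ℝ)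
    (h0 : ∀ ω, 0 ≤ e ω) (h1 : ∀ ω, e ω ≤ 1) (N : ℕ) (ω : ℕ → C × ℕ) :
    EN R N (fun x => e (upN N x)) ω ≤ EN R N e ω + ∑ i ∈ range N, (1 / R i : ℝ) := by
  induction N generalizing ω with
  | zero =>
    have : upN 0 ω = ω := by funext i; unfold upN; rw [if_neg (by omega)]
    simp [EN, this]
  | succ N ih =>
    rw [EN_succ, EN_succ, sum_range_succ]
    simp only [EN_upN_succ]
    have hc : (0 : ℝ) < Fintype.card C := by exact_mod_cast Fintype.card_pos
    have hr : (0 : ℝ) < R N := by exact_mod_cast hR N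
    set s := ∑ i ∈ range N, (1 / R i : ℝ)
    have hb : ∀ ω : ℕ → C × ℕ, 0 ≤ EN R N e ω ∧ EN R N e ω ≤ 1 := fun ω =>
      ⟨EN_nonneg R N h0 ω, by
        have := EN_mono R N (F' := fun _ => (1 : ℝ)) h1 ω
        rwa [EN_const R hR] at this⟩
    have step : ∀ c : C, ∑ r ∈ range (R N),
        EN R N (fun x => e (upN N x)) (Function.update ω N (c, r + 1))
        ≤ ∑ r ∈ range (R N), EN R N e (Function.update ω N (c, r)) + 1 + R N * s := by
      intro c
      let g : ℕ → ℝ := fun r => EN R N e (Function.update ω N (c, r))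
      have e1 : ∑ r ∈ range (R N),
          EN R N (fun x => e (upN N x)) (Function.update ω N (c, r + 1))
          ≤ ∑ r ∈ range (R N), (g (r + 1) + s) := sum_le_sum fun r _ => ih _
      have e2 : ∑ r ∈ range (R N), g (r + 1) = ∑ r ∈ range (R N), g r + g (R N) - g 0 := by
        have := sum_range_succ' g (R N)
        have h' := sum_range_succ g (R N)
        linarith
      rw [sum_add_distrib, e2, sum_const, card_range, nsmul_eq_mul] at e1
      have e3 := (hb (Function.update ω N (c, R N))).2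
      have e4 := (hb (Function.update ω N (c, 0))).1
      refine e1.trans ?_
      simp only [g]
      linarith
    have step2 : ∑ c : C, ∑ r ∈ range (R N),
        EN R N (fun x => e (upN N x)) (Function.update ω N (c, r + 1))
        ≤ ∑ c : C, ∑ r ∈ range (R N), EN R N e (Function.update ω N (c, r))
          + Fintype.card C * (1 + R N * s) := by
      have := sum_le_sum fun c (_ : c ∈ (univ : Finset C)) => step c
      rw [sum_add_distrib, sum_add_distrib] at this
      simp only [sum_const, card_univ, nsmul_eq_mul, mul_one] at this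
      linarith
    have h3 := mul_le_mul_of_nonneg_left step2
      (show (0 : ℝ) ≤ ((Fintype.card C : ℝ) * R N)⁻¹ by positivity)
    rw [mul_add] at h3
    have h4 : ((Fintype.card C : ℝ) * R N)⁻¹ * (Fintype.card C * (1 + R N * s))
        = 1 / R N + s := by
      field_simp
    rw [h4] at h3
    simp only [smul_eq_mul]
    linarith

theorem EN_telescope [Nonempty C] (hR : ∀ i, 0 < R i) (e : (ℕ → C × ℕ) → ℝ)
    (h0 : ∀ ω, 0 ≤ e ω) (h1 : ∀ ω, e ω ≤ 1) {N : ℕ} (hdep : Dep N e) (ω : ℕ → C × ℕ) :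
    EN R N (fun x => e (up x)) ω ≤ EN R N e ω + ∑ i ∈ range N, (1 / R i : ℝ) := by
  have : (fun x : ℕ → C × ℕ => e (up x)) = fun x => e (upN N x) := by
    funext x
    refine hdep _ _ fun i hi => ?_
    unfold up upN
    rw [if_pos hi]
  rw [this]
  exact EN_telescope_aux R hR e h0 h1 N ω

end EN

namespace Levels

variable (D : Levels C) [Nonempty C] [∀ i, NeZero (D.R i)]

instance (i : ℕ) : Nonempty (C × Fin (D.R i)) := inferInstance

/-- averaged law of a level -/
noncomputable def rho (i : ℕ) : Law ℤ := mix (fun x : C × Fin (D.R i) => D.mu i x.1 (x.2 + 1))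

/-- averaged law of the first `k` levels -/
noncomputable def nu : ℕ → Law ℤ
  | 0 => dirac 0
  | k + 1 => conv (nu k) (D.rho k)

theorem E_rho {V : Type*} [AddCommGroup V] [Module ℝ V] (i : ℕ) (φ : ℤ → V) :
    E (D.rho i) φ = ((Fintype.card C : ℝ) * D.R i)⁻¹ •
      ∑ c : C, ∑ r ∈ range (D.R i), E (D.mu i c (r + 1)) φ := by
  unfold rho
  rw [E_mix, Fintype.card_prod, Fintype.card_fin, Fintype.sum_prod_type]
  push_cast
  congr 1
  refine sum_congr rfl fun c _ => ?_
  rw [← Fin.sum_univ_eq_sum_range (fun r => E (D.mu i c (r + 1)) φ)]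

theorem EN_pk_self {V : Type*} [AddCommGroup V] [Module ℝ V] (k : ℕ) (φ : ℤ → V)
    (ω : ℕ → C × ℕ) :
    EN D.R k (fun x => E (D.pk k (up x)) φ) ω = E (D.nu k) φ := by
  induction k generalizing ω φ with
  | zero => rfl
  | succ k ih =>
    rw [EN_succ]
    simp only [pk, nu, E_conv]
    have h1 : ∀ c : C, ∀ r ∈ range (D.R k),
        EN D.R k (fun x => E (D.pk k (up x))
          (fun a => E (D.mu k (up x k).1 (up x k).2) (fun b => φ (a + b))))
          (Function.update ω k (c, r))
        = E (D.nu k) (fun a => E (D.mu k c (r + 1)) (fun b => φ (a + b))) := by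
      intro c r _
      rw [← ih (fun a => E (D.mu k c (r + 1)) (fun b => φ (a + b)))
        (Function.update ω k (c, r))]
      have key : ∀ m ≤ k, ∀ ω' : ℕ → C × ℕ, ω' k = (c, r) →
          EN D.R m (fun x => E (D.pk k (up x))
            (fun a => E (D.mu k (up x k).1 (up x k).2) (fun b => φ (a + b)))) ω'
          = EN D.R m (fun x => E (D.pk k (up x))
            (fun a => E (D.mu k c (r + 1)) (fun b => φ (a + b)))) ω' := by
        intro m
        induction m with
        | zero =>
          intro _ ω' h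
          simp only [EN, up, h]
        | succ m ihm =>
          intro hm ω' h
          simp only [EN_succ]
          congr 1
          refine sum_congr rfl fun c' _ => sum_congr rfl fun r' _ => ?_
          refine ihm (by omega) _ ?_
          rw [Function.update_of_ne (by omega)]
          exact h
      exact key k le_rfl _ (by simp)
    rw [sum_congr rfl fun c _ => sum_congr rfl (h1 c)]
    have h2 : (fun a => E (D.rho k) (fun b => φ (a + b)))
        = fun a => ((Fintype.card C : ℝ) * D.R k)⁻¹ •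
          ∑ c : C, ∑ r ∈ range (D.R k), E (D.mu k c (r + 1)) (fun b => φ (a + b)) := by
      funext a
      rw [E_rho]
    rw [h2, E_smul, E_sum]
    congr 1
    refine sum_congr rfl fun c _ => ?_
    rw [E_sum]

theorem EN_pk {V : Type*} [AddCommGroup V] [Module ℝ V] {k N : ℕ} (hk : k ≤ N) (φ : ℤ → V)
    (ω : ℕ → C × ℕ) :
    EN D.R N (fun x => E (D.pk k (up x)) φ) ω = E (D.nu k) φ := by
  rw [EN_dep D.R (fun i => Nat.pos_of_ne_zero (NeZero.ne _)) (n := k) _ N hk ω ω, D.EN_pk_self]
  intro x x' h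
  have : D.pk k (up x) = D.pk k (up x') := D.pk_congr fun i hi => by
    unfold up; rw [h i hi]
  simp only [this]

end Levels

end Pool.Agent.H58.TC
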