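import Pool.Agent.H58.TC.A2

/-!
# Part A, structured functions and the distance functional
-/

namespace Pool.Agent.H58.TC

open Finset

variable {C : Type}

/-- Assumptions on the levels. -/
structure GoodLevels (D : Levels C) (εl : ℕ → ℝ) (θ : ℝ) : Prop where
  symm : ∀ i c r, Symm (D.σ i c r)
  qi : ∀ i c s r, s < r → QI (D.mu i c s) (D.mu i c r) (εl i)
  nonneg : ∀ i, 0 ≤ εl i
  sum_le : ∀ n, ∑ i ∈ range n, εl i ≤ θ
  Rpos : ∀ i, 0 < D.R i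
  Rsum : ∀ n, ∑ i ∈ range n, (1 / D.R i : ℝ) ≤ θ

/-- `s ≤ ω` : same types, smaller scales -/
def Le (s ω : ℕ → C × ℕ) : Prop := ∀ i, (s i).1 = (ω i).1 ∧ (s i).2 ≤ (ω i).2

theorem Le.refl (ω : ℕ → C × ℕ) : Le ω ω := fun _ => ⟨rfl, le_rfl⟩

theorem Le.trans {s t ω : ℕ → C × ℕ} (h : Le s t) (h' : Le t ω) : Le s ω := fun i =>
  ⟨(h i).1.trans (h' i).1, (h i).2.trans (h' i).2⟩

theorem Le.up (ω : ℕ → C × ℕ) : Le ω (up ω) := fun _ => ⟨rfl, Nat.le_succ _⟩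

/-- laws which are quasi-invariant under all products of levels -/
def QIall (D : Levels C) (ε : ℝ) (n : ℕ) (ω : ℕ → C × ℕ) (q : Law ℤ) : Prop :=
  ∀ k ≤ n, ∀ s : ℕ → C × ℕ, Le s ω → QI (D.pk k s) q ε

theorem QIall.mono {D : Levels C} {ε : ℝ} {n n' : ℕ} {ω ω' : ℕ → C × ℕ} {q : Law ℤ}
    (h : QIall D ε n' ω' q) (hn : n ≤ n') (hω : Le ω ω') : QIall D ε n ω q :=
  fun k hk s hs => h k (hk.trans hn) s (hs.trans hω)

theorem QIall.congr {D : Levels C} {ε : ℝ} {n : ℕ} {ω ω' : ℕ → C × ℕ} {q : Law ℤ}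
    (h : QIall D ε n ω q) (hω : ∀ i < n, ω i = ω' i) : QIall D ε n ω' q := by
  intro k hk s hs
  let s' : ℕ → C × ℕ := fun i => if i < n then s i else ω i
  have h1 : Le s' ω := by
    intro i
    by_cases hi : i < n
    · have : s' i = s i := if_pos hi
      rw [this, hω i hi]; exact hs i
    · have : s' i = ω i := if_neg hi
      rw [this]; exact ⟨rfl, le_rfl⟩
  have h2 : D.pk k s = D.pk k s' := D.pk_congr fun i hi => by
    have : s' i = s i := if_pos (by omega)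
    rw [this]
  rw [h2]
  exact h k hk s' h1

theorem GoodLevels.theta_nonneg {D : Levels C} {εl : ℕ → ℝ} {θ : ℝ} (hD : GoodLevels D εl θ) :
    0 ≤ θ := by simpa using hD.sum_le 0

theorem GoodLevels.QIall_pk {D : Levels C} {εl : ℕ → ℝ} {θ : ℝ} (hD : GoodLevels D εl θ)
    (n : ℕ) (ω : ℕ → C × ℕ) : QIall D θ n ω (D.pk n (up ω)) := by
  intro k hk s hs
  have h1 : ∀ k, QI (D.pk k s) (D.pk k (up ω)) (∑ i ∈ range k, εl i) := by
    intro k
    induction k with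
    | zero =>
      rw [range_zero, sum_empty]
      exact QI.dirac_zero (D.pk 0 (up ω))
    | succ k ih =>
      rw [sum_range_succ]
      simp only [Levels.pk]
      refine ih.conv_conv ?_
      have : (up ω k).1 = (s k).1 := (hs k).1.symm
      rw [this]
      exact hD.qi _ _ _ _ (Nat.lt_succ_of_le (hs k).2)
  have h2 : ∀ n, k ≤ n → QI (D.pk k s) (D.pk n (up ω)) (∑ i ∈ range k, εl i) := by
    intro n hn
    induction n, hn using Nat.le_induction with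
    | base => exact h1 k
    | succ n _ ih => exact ih.conv_r _
  exact (h2 n hk).mono (hD.sum_le k)

section

variable {B H : Type*} [CommRing B] [StarRing B] [Algebra ℝ B]
    [NormedAddCommGroup H] [InnerProductSpace ℝ H] (S : Sys B H) (D : Levels C)

/-- the dual functions -/
def KK (ε : ℝ) (n : ℕ) (ω : ℕ → C × ℕ) : Set B :=
  {d | ∃ q h g, QIall D ε n ω q ∧ ‖S.ι h‖ ≤ 1 ∧ S.Ball g ∧ d = S.Df q h g}

theorem KK_mono {ε : ℝ} {n n' : ℕ} {ω ω' : ℕ → C × ℕ} (hn : n ≤ n') (hω : Le ω ω') :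
    KK S D ε n' ω' ⊆ KK S D ε n ω := by
  rintro d ⟨q, h, g, hq, hh, hg, rfl⟩
  exact ⟨q, h, g, hq.mono hn hω, hh, hg, rfl⟩

theorem KK_congr {ε : ℝ} {n : ℕ} {ω ω' : ℕ → C × ℕ} (hω : ∀ i < n, ω i = ω' i) :
    KK S D ε n ω = KK S D ε n ω' := by
  ext d
  constructor
  · rintro ⟨q, h, g, hq, hh, hg, rfl⟩
    exact ⟨q, h, g, hq.congr hω, hh, hg, rfl⟩
  · rintro ⟨q, h, g, hq, hh, hg, rfl⟩
    exact ⟨q, h, g, hq.congr fun i hi => (hω i hi).symm, hh, hg, rfl⟩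

variable {D} in
theorem zero_mem_KK {εl : ℕ → ℝ} {θ : ℝ} (hD : GoodLevels D εl θ) (n : ℕ) (ω : ℕ → C × ℕ) :
    (0 : B) ∈ KK S D θ n ω := by
  refine ⟨D.pk n (up ω), 0, 1, hD.QIall_pk n ω, ?_, Sys.Ball.one, ?_⟩
  · rw [map_zero, norm_zero]; exact zero_le_one
  · unfold Sys.Df
    simp [E]

/-- the set of squared distances -/
def dset (ε : ℝ) (f : B) (K : ℝ) (n : ℕ) (ω : ℕ → C × ℕ) : Set ℝ :=
  (fun d : B => ‖S.ι f - K • S.ι d‖ ^ 2) '' convexHull ℝ (KK S D ε n ω)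

/-- squared distance to the structured functions -/
noncomputable def ee (ε : ℝ) (f : B) (K : ℝ) (n : ℕ) (ω : ℕ → C × ℕ) : ℝ :=
  sInf (dset S D ε f K n ω)

theorem dset_bdd (ε : ℝ) (f : B) (K : ℝ) (n : ℕ) (ω : ℕ → C × ℕ) :
    BddBelow (dset S D ε f K n ω) := ⟨0, by
  rintro x ⟨d, _, rfl⟩
  exact sq_nonneg _⟩

theorem ee_nonneg (ε : ℝ) (f : B) (K : ℝ) (n : ℕ) (ω : ℕ → C × ℕ) : 0 ≤ ee S D ε f K n ω :=
  Real.sInf_nonneg (by rintro x ⟨d, _, rfl⟩; exact sq_nonneg _)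

theorem ee_le {ε : ℝ} {f : B} {K : ℝ} {n : ℕ} {ω : ℕ → C × ℕ} {d : B}
    (hd : d ∈ convexHull ℝ (KK S D ε n ω)) : ee S D ε f K n ω ≤ ‖S.ι f - K • S.ι d‖ ^ 2 :=
  csInf_le (dset_bdd S D ε f K n ω) ⟨d, hd, rfl⟩

variable {D} in
theorem dset_nonempty {εl : ℕ → ℝ} {θ : ℝ} (hD : GoodLevels D εl θ) (f : B) (K : ℝ) (n : ℕ)
    (ω : ℕ → C × ℕ) : (dset S D θ f K n ω).Nonempty :=
  ⟨_, 0, subset_convexHull ℝ _ (zero_mem_KK S hD n ω), rfl⟩

variable {D} in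
theorem ee_le_one {εl : ℕ → ℝ} {θ : ℝ} (hD : GoodLevels D εl θ) {f : B} (hf : ‖S.ι f‖ ≤ 1)
    (K : ℝ) (n : ℕ) (ω : ℕ → C × ℕ) : ee S D θ f K n ω ≤ 1 := by
  refine (ee_le S D (subset_convexHull ℝ _ (zero_mem_KK S hD n ω))).trans ?_
  rw [map_zero, smul_zero, sub_zero]
  calc _ ≤ (1 : ℝ) ^ 2 := pow_le_pow_left₀ (norm_nonneg _) hf 2
    _ = 1 := one_pow 2

variable {D} in
theorem ee_mono {εl : ℕ → ℝ} {θ : ℝ} (hD : GoodLevels D εl θ) (f : B) (K : ℝ) {n n' : ℕ}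
    {ω ω' : ℕ → C × ℕ} (hn : n ≤ n') (hω : Le ω ω') :
    ee S D θ f K n ω ≤ ee S D θ f K n' ω' := by
  refine csInf_le_csInf (dset_bdd S D θ f K n ω) (dset_nonempty S hD f K n' ω') ?_
  exact Set.image_mono (convexHull_mono (KK_mono S D hn hω))

theorem ee_dep (ε : ℝ) (f : B) (K : ℝ) (n : ℕ) : Dep n (ee S D ε f K n) := by
  intro ω ω' h
  unfold ee dset
  rw [KK_congr S D h]

variable {D} in
/-- the near minimiser inequality -/
theorem near_min {εl : ℕ → ℝ} {θ : ℝ} (hD : GoodLevels D εl θ) {f : B} (hf : ‖S.ι f‖ ≤ 1)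
    {K : ℝ} (hK : 0 < K) {n n' : ℕ} (hn : n ≤ n') {ω : ℕ → C × ℕ} {τ : ℝ} (hτ : τ ≤ 1)
    {d : B} (hd : d ∈ convexHull ℝ (KK S D θ n' (up ω)))
    (hd' : ‖S.ι f - K • S.ι d‖ ^ 2 ≤ ee S D θ f K n' (up ω) + τ)
    {s : ℝ} (hs : 0 < s) (hs1 : s ≤ 1) {d₁ : B} (hd₁ : d₁ ∈ KK S D θ n ω) :
    inner ℝ (S.ι f - K • S.ι d) (S.ι d₁)
      ≤ K⁻¹ * (6 + (ee S D θ f K n' (up ω) + τ - ee S D θ f K n ω) / (2 * s)
        + s * (K + 3) ^ 2 / 2) := by
  set e' := ee S D θ f K n' (up ω)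
  set e := ee S D θ f K n ω
  set x := S.ι f - K • S.ι d with hx
  set y := K • S.ι d₁ - K • S.ι d with hy
  have he' : e' ≤ 1 := ee_le_one S hD hf K n' (up ω)
  have hxn : ‖x‖ ≤ 2 := by
    have : ‖x‖ ^ 2 ≤ 2 ^ 2 := by linarith
    exact (pow_le_pow_iff_left₀ (norm_nonneg _) zero_le_two two_ne_zero).1 this
  have hKd : ‖K • S.ι d‖ ≤ 3 := by
    have : K • S.ι d = S.ι f - x := by rw [hx]; abel
    rw [this]
    exact (norm_sub_le _ _).trans (by linarith)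
  have hd₁n : ‖S.ι d₁‖ ≤ 1 := by
    obtain ⟨q, h, g, _, hh, hg, rfl⟩ := hd₁
    exact (S.norm_Df_le q h hg).trans hh
  have hyn : ‖y‖ ≤ K + 3 := by
    refine (norm_sub_le _ _).trans (add_le_add ?_ hKd)
    rw [norm_smul, Real.norm_of_nonneg hK.le]
    calc K * ‖S.ι d₁‖ ≤ K * 1 := mul_le_mul_of_nonneg_left hd₁n hK.le
      _ = K := mul_one K
  have hmem : (1 - s) • d + s • d₁ ∈ convexHull ℝ (KK S D θ n ω) := by
    refine (convex_convexHull ℝ _) (convexHull_mono (KK_mono S D hn (Le.up ω)) hd)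
      (subset_convexHull ℝ _ hd₁) (by linarith) hs.le (by ring)
  have h1 := ee_le S D (f := f) (K := K) hmem
  have h2 : S.ι f - K • S.ι ((1 - s) • d + s • d₁) = x - s • y := by
    rw [map_add, map_smul, map_smul, hx, hy]
    module
  rw [h2, norm_sub_sq_real, real_inner_smul_right, norm_smul, Real.norm_of_nonneg hs.le] at h1
  have h3 : inner ℝ x y = K * inner ℝ x (S.ι d₁) - inner ℝ x (K • S.ι d) := by
    rw [hy, inner_sub_right, real_inner_smul_right]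
  have h4 : inner ℝ x (K • S.ι d) ≤ 6 := by
    refine (real_inner_le_norm _ _).trans ?_
    nlinarith [norm_nonneg x, norm_nonneg (K • S.ι d)]
  have h5 : ‖y‖ ^ 2 ≤ (K + 3) ^ 2 := pow_le_pow_left₀ (norm_nonneg _) hyn 2
  have h6 : 2 * s * inner ℝ x y ≤ (e' + τ - e) + s ^ 2 * (K + 3) ^ 2 := by
    have : s ^ 2 * ‖y‖ ^ 2 ≤ s ^ 2 * (K + 3) ^ 2 :=
      mul_le_mul_of_nonneg_left h5 (sq_nonneg s)
    nlinarith
  have h7 : inner ℝ x y ≤ (e' + τ - e) / (2 * s) + s * (K + 3) ^ 2 / 2 := by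
    have e1 : (e' + τ - e) / (2 * s) + s * (K + 3) ^ 2 / 2
        = ((e' + τ - e) + s ^ 2 * (K + 3) ^ 2) / (2 * s) := by
      field_simp
    rw [e1, le_div_iff₀ (by positivity)]
    linarith
  have h8 : K * inner ℝ x (S.ι d₁)
      ≤ 6 + (e' + τ - e) / (2 * s) + s * (K + 3) ^ 2 / 2 := by linarith
  rw [← div_eq_inv_mul, le_div_iff₀ hK]
  linarith

/-- from bounds against dual functions to bounds for the averages -/
theorem norm_Bf_of_dual {p : Law ℤ} {fu : B} {m : ℝ} (hm : 0 ≤ m)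
    (h : ∀ h₁ g, ‖S.ι h₁‖ ≤ 1 → S.Ball g → inner ℝ (S.ι fu) (S.ι (S.Df p h₁ g)) ≤ m)
    {g : B} (hg : S.Ball g) : ‖S.ι (S.Bf p fu g)‖ ≤ m := by
  by_cases h0 : ‖S.ι (S.Bf p fu g)‖ = 0
  · rw [h0]; exact hm
  have hpos : 0 < ‖S.ι (S.Bf p fu g)‖ := lt_of_le_of_ne (norm_nonneg _) (Ne.symm h0)
  have := h (‖S.ι (S.Bf p fu g)‖⁻¹ • S.Bf p fu g) g
    (by rw [map_smul, norm_smul, norm_inv, norm_norm, inv_mul_cancel₀ h0]) hg
  rw [S.Df_adj, map_smul, real_inner_smul_right, real_inner_self_eq_norm_sq] at this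
  have e : ‖S.ι (S.Bf p fu g)‖⁻¹ * ‖S.ι (S.Bf p fu g)‖ ^ 2 = ‖S.ι (S.Bf p fu g)‖ := by
    field_simp
  rw [e] at this
  exact this

theorem sqrt_convex_comb {a b x y : ℝ} (ha : 0 ≤ a) (hb : 0 ≤ b) (hab : a + b = 1)
    (hx : 0 ≤ x) (hy : 0 ≤ y) : a * √x + b * √y ≤ √(a * x + b * y) := by
  refine Real.le_sqrt_of_sq_le ?_
  have h1 : √x ^ 2 = x := Real.sq_sqrt hx
  have h2 : √y ^ 2 = y := Real.sq_sqrt hy
  have hb' : b = 1 - a := by linarith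
  subst hb'
  nlinarith [mul_nonneg ha hb, sq_nonneg (√x - √y), mul_nonneg (mul_nonneg ha hb)
    (sq_nonneg (√x - √y))]

variable {D} in
/-- structured functions: energies -/
theorem structured {εl : ℕ → ℝ} {θ : ℝ} (hD : GoodLevels D εl θ) {f₂ : B} (hf₂ : S.Ball f₂)
    {n : ℕ} {ω : ℕ → C × ℕ} {d : B} (hd : d ∈ convexHull ℝ (KK S D θ n ω)) :
    ∃ e : ℕ → ℝ, (∀ k, 0 ≤ e k ∧ e k ≤ 1) ∧ ∀ k k', k ≤ k' → k' ≤ n → e k' ≤ e k ∧
      ∀ u, S.Ball2 u →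
        |inner ℝ (S.ι (S.Bf (D.pk k ω) d f₂) - S.ι (S.Bf (D.pk k' ω) d f₂)) (S.ι u)|
          ≤ 4 * θ + 2 * √(e k - e k') := by
  have hθ := hD.theta_nonneg
  let T : Set B := {d | ∃ e : ℕ → ℝ, (∀ k, 0 ≤ e k ∧ e k ≤ 1) ∧ ∀ k k', k ≤ k' → k' ≤ n →
      e k' ≤ e k ∧ ∀ u, S.Ball2 u →
        |inner ℝ (S.ι (S.Bf (D.pk k ω) d f₂) - S.ι (S.Bf (D.pk k' ω) d f₂)) (S.ι u)|
          ≤ 4 * θ + 2 * √(e k - e k')}
  have hKT : KK S D θ n ω ⊆ T := by
    rintro d ⟨q, h, g, hq, hh, hg, rfl⟩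
    refine ⟨fun k => S.En (D.pk k ω) q g f₂,
      fun k => ⟨S.En_nonneg _ _ _ _, S.En_le_one _ _ hg hf₂⟩, ?_⟩
    intro k k' hk hk'
    obtain ⟨m, rfl⟩ := Nat.exists_eq_add_of_le hk
    have hz := D.th_symm hD.symm k m ω
    have hE : ∀ φ : ℤ → B, E (D.pk (k + m) ω) φ
        = E (conv (D.pk k ω) (conv (D.th k m ω) (D.th k m ω))) φ := fun φ =>
      D.E_pk_add k m ω φ
    refine ⟨S.En_anti hz hE g f₂, fun u hu => ?_⟩
    exact S.inner_Bf_Df_sub_le hθ hz hE (hq k (by omega) ω (Le.refl ω))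
      (hq (k + m) hk' ω (Le.refl ω)) hh hg hf₂ hu
  have hT : Convex ℝ T := by
    rintro d ⟨e, he, hde⟩ d' ⟨e', he', hde'⟩ a b ha hb hab
    refine ⟨fun k => a * e k + b * e' k, fun k => ⟨?_, ?_⟩, ?_⟩
    · exact add_nonneg (mul_nonneg ha (he k).1) (mul_nonneg hb (he' k).1)
    · have h1 := mul_le_mul_of_nonneg_left (he k).2 ha
      have h2 := mul_le_mul_of_nonneg_left (he' k).2 hb
      linarith
    intro k k' hk hk'
    obtain ⟨h1, h2⟩ := hde k k' hk hk'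
    obtain ⟨h1', h2'⟩ := hde' k k' hk hk'
    refine ⟨?_, fun u hu => ?_⟩
    · have h3 := mul_le_mul_of_nonneg_left h1 ha
      have h4 := mul_le_mul_of_nonneg_left h1' hb
      linarith
    · have hlin : ∀ p : Law ℤ, S.Bf p (a • d + b • d') f₂
          = a • S.Bf p d f₂ + b • S.Bf p d' f₂ := by
        intro p
        unfold Sys.Bf
        rw [← E_smul, ← E_smul, ← E_add]
        congr 1
        funext x
        rw [map_add, map_smul, map_smul, add_mul, smul_mul_assoc, smul_mul_assoc]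
      have e1 : S.ι (S.Bf (D.pk k ω) (a • d + b • d') f₂)
          - S.ι (S.Bf (D.pk k' ω) (a • d + b • d') f₂)
          = a • (S.ι (S.Bf (D.pk k ω) d f₂) - S.ι (S.Bf (D.pk k' ω) d f₂))
            + b • (S.ι (S.Bf (D.pk k ω) d' f₂) - S.ι (S.Bf (D.pk k' ω) d' f₂)) := by
        rw [hlin, hlin, map_add, map_add, map_smul, map_smul, map_smul, map_smul]
        module
      rw [e1, inner_add_left, real_inner_smul_left, real_inner_smul_left]
      have h3 := h2 u hu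
      have h4 := h2' u hu
      have h5 := sqrt_convex_comb ha hb hab (sub_nonneg.2 h1) (sub_nonneg.2 h1')
      have e2 : a * (e k - e k') + b * (e' k - e' k')
          = a * e k + b * e' k - (a * e k' + b * e' k') := by ring
      rw [e2] at h5
      refine (abs_add_le _ _).trans ?_
      rw [abs_mul, abs_mul, abs_of_nonneg ha, abs_of_nonneg hb]
      have h6 := mul_le_mul_of_nonneg_left h3 ha
      have h7 := mul_le_mul_of_nonneg_left h4 hb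
      have h8 : 4 * θ = a * (4 * θ) + b * (4 * θ) := by rw [← add_mul, hab, one_mul]
      nlinarith
  exact convexHull_min hKT hT hd

end

end Pool.Agent.H58.TC
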