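import Pool.Agent.H58.TC.A3

/-!
# Part A, the core theorem (metastability with a uniform tail parameter)
-/

namespace Pool.Agent.H58.TC

open Finset

/-- pigeonhole -/
theorem pigeon {a : ℕ → ℝ} {K : ℕ} (hK : 0 < K) {m : ℕ} (h : a (m + K) - a m ≤ 1) :
    ∃ i < K, a (m + i + 1) - a (m + i) ≤ 1 / K := by
  by_contra hcon
  push Not at hcon
  have h1 : ∑ i ∈ range K, (1 / K : ℝ) < ∑ i ∈ range K, (a (m + i + 1) - a (m + i)) :=
    sum_lt_sum_of_nonempty ⟨0, mem_range.2 hK⟩ fun i hi => hcon i (mem_range.1 hi)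
  have h2 : ∑ i ∈ range K, (a (m + i + 1) - a (m + i)) = a (m + K) - a m := by
    have := sum_range_sub (fun i => a (m + i)) K
    simpa [add_assoc] using this
  have hK' : (K : ℝ) ≠ 0 := by exact_mod_cast hK.ne'
  rw [h2, sum_const, card_range, nsmul_eq_mul, mul_one_div_cancel hK'] at h1
  linarith

variable {C : Type}

section

variable {B H : Type*} [CommRing B] [StarRing B] [Algebra ℝ B]
    [NormedAddCommGroup H] [InnerProductSpace ℝ H] (S : Sys B H) {D : Levels C}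

/-- the bound for the pseudorandom part -/
noncomputable def mm (D : Levels C) (θ : ℝ) (f : B) (K s τ : ℝ) (n n' : ℕ) (ω : ℕ → C × ℕ) : ℝ :=
  K⁻¹ * (6 + (ee S D θ f K n' (up ω) + τ - ee S D θ f K n ω) / (2 * s) + s * (K + 3) ^ 2 / 2)

theorem omega_bound {εl : ℕ → ℝ} {θ : ℝ} (hD : GoodLevels D εl θ) {f₁ f₂ : B}
    (hf₁ : S.Ball f₁) (hf₂ : S.Ball f₂) {K : ℝ} (hK : 0 < K) {n n' : ℕ}
    {ω : ℕ → C × ℕ} {τ : ℝ} (hτ : τ ≤ 1)
    {d : B} (hd : d ∈ convexHull ℝ (KK S D θ n' (up ω)))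
    (hd' : ‖S.ι f₁ - K • S.ι d‖ ^ 2 ≤ ee S D θ f₁ K n' (up ω) + τ)
    {s : ℝ} (hs : 0 < s) (hs1 : s ≤ 1) {k k' : ℕ} (hk : n ≤ k) (hkk : k ≤ k') (hk' : k' ≤ n')
    {e : ℝ} (he : ∀ u, S.Ball2 u →
      |inner ℝ (S.ι (S.Bf (D.pk k (up ω)) d f₂) - S.ι (S.Bf (D.pk k' (up ω)) d f₂)) (S.ι u)|
        ≤ 4 * θ + 2 * e) :
    ‖S.ι (S.Bf (D.pk k (up ω)) f₁ f₂) - S.ι (S.Bf (D.pk k' (up ω)) f₁ f₂)‖ ^ 2
      ≤ K * (4 * θ + 2 * e) + 4 * mm S D θ f₁ K s τ n n' ω := by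
  set p := D.pk k (up ω)
  set p' := D.pk k' (up ω)
  set m := mm S D θ f₁ K s τ n n' ω with hm
  set fu := f₁ - K • d with hfu
  set u := S.Bf p f₁ f₂ - S.Bf p' f₁ f₂ with hu
  have hu2 : S.Ball2 u := (S.Bf_ball hf₁ hf₂).sub (S.Bf_ball hf₁ hf₂)
  have hnn : n ≤ n' := hk.trans (hkk.trans hk')
  have hιfu : S.ι fu = S.ι f₁ - K • S.ι d := by rw [hfu, map_sub, map_smul]
  have hm0 : 0 ≤ m := by
    have := near_min S hD hf₁.norm_le hK hnn hτ hd hd' hs hs1 (zero_mem_KK S hD n ω)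
    rw [map_zero, inner_zero_right] at this
    exact this
  have hdual : ∀ g, S.Ball g → ‖S.ι (S.Bf (D.pk n (up ω)) fu g)‖ ≤ m := by
    intro g hg
    refine norm_Bf_of_dual S hm0 (fun h₁ g hh hg => ?_) hg
    rw [hιfu]
    exact near_min S hD hf₁.norm_le hK hnn hτ hd hd' hs hs1
      ⟨D.pk n (up ω), h₁, g, hD.QIall_pk n ω, hh, hg, rfl⟩
  have hlater : ∀ k, n ≤ k → ‖S.ι (S.Bf (D.pk k (up ω)) fu f₂)‖ ≤ m := by
    intro k hk
    obtain ⟨j, rfl⟩ := Nat.exists_eq_add_of_le hk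
    have e1 : S.Bf (D.pk (n + j) (up ω)) fu f₂
        = S.Bf (conv (D.pk n (up ω)) (conv (D.th n j (up ω)) (D.th n j (up ω)))) fu f₂ := by
      unfold Sys.Bf
      exact D.E_pk_add n j (up ω) _
    rw [e1]
    exact S.norm_Bf_conv_le hdual _ hf₂
  have hlin : ∀ p : Law ℤ, S.ι (S.Bf p f₁ f₂) = K • S.ι (S.Bf p d f₂) + S.ι (S.Bf p fu f₂) := by
    intro p
    rw [← map_smul, ← map_add]
    congr 1
    unfold Sys.Bf
    rw [← E_smul, ← E_add]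
    congr 1
    funext x
    rw [hfu, map_sub, map_smul, sub_mul, smul_mul_assoc]
    abel
  have e1 : S.ι u = S.ι (S.Bf p f₁ f₂) - S.ι (S.Bf p' f₁ f₂) := map_sub _ _ _
  have e2 : S.ι u = K • (S.ι (S.Bf p d f₂) - S.ι (S.Bf p' d f₂))
      + (S.ι (S.Bf p fu f₂) - S.ι (S.Bf p' fu f₂)) := by
    rw [e1, hlin, hlin]
    module
  rw [← e1, ← real_inner_self_eq_norm_sq]
  have e3 : inner ℝ (S.ι u) (S.ι u)
      = K * inner ℝ (S.ι (S.Bf p d f₂) - S.ι (S.Bf p' d f₂)) (S.ι u)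
        + inner ℝ (S.ι (S.Bf p fu f₂) - S.ι (S.Bf p' fu f₂)) (S.ι u) := by
    conv_lhs => rw [e2]
    rw [inner_add_left, real_inner_smul_left]
    rw [← e2]
  rw [e3]
  have h1 : inner ℝ (S.ι (S.Bf p d f₂) - S.ι (S.Bf p' d f₂)) (S.ι u) ≤ 4 * θ + 2 * e :=
    (le_abs_self _).trans (he u hu2)
  have h2 : inner ℝ (S.ι (S.Bf p fu f₂) - S.ι (S.Bf p' fu f₂)) (S.ι u) ≤ 4 * m := by
    refine (real_inner_le_norm _ _).trans ?_
    have h3 : ‖S.ι (S.Bf p fu f₂) - S.ι (S.Bf p' fu f₂)‖ ≤ 2 * m :=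
      (norm_sub_le _ _).trans (by linarith [hlater k hk, hlater k' (hk.trans hkk)])
    have h4 := hu2.norm_le
    calc _ ≤ (2 * m) * 2 := mul_le_mul h3 h4 (norm_nonneg _) (by linarith)
      _ = 4 * m := by ring
  have h5 := mul_le_mul_of_nonneg_left h1 hK.le
  linarith

end

/-- the core estimate with explicit constants -/
theorem core_aux [Fintype C] [Nonempty C] {B H : Type*} [CommRing B] [StarRing B] [Algebra ℝ B]
    [NormedAddCommGroup H] [InnerProductSpace ℝ H] (S : Sys B H) {D : Levels C}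
    [∀ i, NeZero (D.R i)] {εl : ℕ → ℝ} {θ : ℝ} (hD : GoodLevels D εl θ) {f₁ f₂ : B}
    (hf₁ : S.Ball f₁) (hf₂ : S.Ball f₂) {K : ℝ} (hK : 0 < K) {τ : ℝ} (hτ0 : 0 < τ) (hτ : τ ≤ 1)
    {s : ℝ} (hs : 0 < s) (hs1 : s ≤ 1) {K₁ K₂ : ℕ} (hK₁ : 0 < K₁) (hK₂ : 0 < K₂) (F : ℕ → ℕ) :
    ∃ n, ∀ k k', n ≤ k → k ≤ k' → k' ≤ F n →
      ‖S.ι (S.Bf (D.nu k) f₁ f₂) - S.ι (S.Bf (D.nu k') f₁ f₂)‖ ^ 2
        ≤ K * (4 * θ + 2 * √(1 / K₂))
          + 4 * (K⁻¹ * (6 + (1 / K₁ + θ + τ) / (2 * s) + s * (K + 3) ^ 2 / 2)) := by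
  classical
  have hR := hD.Rpos
  let t : ℕ → ℕ := fun i => Nat.rec 0 (fun _ x => max x (F x)) i
  have t_succ : ∀ i, t (i + 1) = max (t i) (F (t i)) := fun i => rfl
  have t_mono : Monotone t := monotone_nat_of_le_succ fun i => by rw [t_succ]; exact le_max_left _ _
  let N := t (K₁ * K₂)
  let ω₀ : ℕ → C × ℕ := fun _ => (Classical.arbitrary C, 0)
  let A : ℕ → ℝ := fun n => EN D.R N (ee S D θ f₁ K n) ω₀
  have A0 : ∀ n, 0 ≤ A n := fun n => EN_nonneg _ _ (ee_nonneg S D θ f₁ K n) _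
  have A1 : ∀ n, A n ≤ 1 := fun n => by
    have := EN_mono D.R N (F' := fun _ => (1 : ℝ)) (ee_le_one S hD hf₁.norm_le K n) ω₀
    rwa [EN_const D.R hR] at this
  -- choose the big block
  obtain ⟨i₁, hi₁, hA⟩ : ∃ i₁ < K₁, A (t ((i₁ + 1) * K₂)) - A (t (i₁ * K₂)) ≤ 1 / K₁ := by
    have := pigeon (a := fun i => A (t (i * K₂))) hK₁ (m := 0) (by
      simp only [zero_add]
      linarith [A0 (t (0 * K₂)), A1 (t (K₁ * K₂))])
    obtain ⟨i, hi, h⟩ := this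
    refine ⟨i, hi, ?_⟩
    simpa using h
  set n₁ := t (i₁ * K₂) with hn₁
  set n₂ := t ((i₁ + 1) * K₂) with hn₂
  have hn₂N : n₂ ≤ N := t_mono (Nat.mul_le_mul_right _ hi₁)
  -- near minimisers
  have hex : ∀ ω : ℕ → C × ℕ, ∃ d ∈ convexHull ℝ (KK S D θ n₂ (up ω)),
      ‖S.ι f₁ - K • S.ι d‖ ^ 2 ≤ ee S D θ f₁ K n₂ (up ω) + τ := by
    intro ω
    have hlt : sInf (dset S D θ f₁ K n₂ (up ω)) < ee S D θ f₁ K n₂ (up ω) + τ := by
      unfold ee; linarith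
    obtain ⟨x, ⟨d, hd, rfl⟩, hx⟩ :=
      exists_lt_of_csInf_lt (dset_nonempty S hD f₁ K n₂ (up ω)) hlt
    exact ⟨d, hd, hx.le⟩
  choose dd hdd hdd' using hex
  have hst := fun ω => structured S hD hf₂ (hdd ω)
  choose ef hef0 hef using hst
  -- mean energy
  let Eb : ℕ → ℝ := fun k => EN D.R N (fun ω => ef ω k) ω₀
  have Eb0 : ∀ k, 0 ≤ Eb k := fun k => EN_nonneg _ _ (fun ω => (hef0 ω k).1) _
  have Eb1 : ∀ k, Eb k ≤ 1 := fun k => by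
    have := EN_mono D.R N (F := fun ω => ef ω k) (F' := fun _ => (1 : ℝ))
      (fun ω => (hef0 ω k).2) ω₀
    rwa [EN_const D.R hR] at this
  obtain ⟨i₂, hi₂, hE⟩ : ∃ i₂ < K₂,
      Eb (t (i₁ * K₂ + i₂)) - Eb (t (i₁ * K₂ + i₂ + 1)) ≤ 1 / K₂ := by
    obtain ⟨i, hi, h⟩ := pigeon (a := fun i => - Eb (t i)) hK₂ (m := i₁ * K₂)
      (by linarith [Eb0 (t (i₁ * K₂ + K₂)), Eb1 (t (i₁ * K₂))])
    exact ⟨i, hi, by linarith⟩
  set n := t (i₁ * K₂ + i₂) with hn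
  have hn1n : n₁ ≤ n := t_mono (Nat.le_add_right _ _)
  have hidx : i₁ * K₂ + i₂ + 1 ≤ (i₁ + 1) * K₂ := by
    have : (i₁ + 1) * K₂ = i₁ * K₂ + K₂ := by ring
    omega
  have hnext : t (i₁ * K₂ + i₂ + 1) ≤ n₂ := t_mono hidx
  have hFn : F n ≤ t (i₁ * K₂ + i₂ + 1) := by rw [t_succ]; exact le_max_right _ _
  refine ⟨n, fun k k' hk hkk hk' => ?_⟩
  have hk'2 : k' ≤ t (i₁ * K₂ + i₂ + 1) := hk'.trans hFn
  have hk'n₂ : k' ≤ n₂ := hk'2.trans hnext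
  have hk'N : k' ≤ N := hk'n₂.trans hn₂N
  -- pointwise bound
  let G : (ℕ → C × ℕ) → ℝ := fun ω =>
    ‖S.ι (S.Bf (D.pk k (up ω)) f₁ f₂) - S.ι (S.Bf (D.pk k' (up ω)) f₁ f₂)‖
  have hG : ∀ ω, G ω ^ 2 ≤ K * (4 * θ + 2 * √(ef ω k - ef ω k'))
      + 4 * mm S D θ f₁ K s τ n₁ n₂ ω := fun ω =>
    omega_bound S hD hf₁ hf₂ hK hτ (hdd ω) (hdd' ω) hs hs1 (hn1n.trans hk) hkk hk'n₂
      ((hef ω k k' hkk hk'n₂).2)
  -- averages
  have e1 : S.ι (S.Bf (D.nu k) f₁ f₂) - S.ι (S.Bf (D.nu k') f₁ f₂)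
      = EN D.R N (fun ω => S.ι (S.Bf (D.pk k (up ω)) f₁ f₂)
        - S.ι (S.Bf (D.pk k' (up ω)) f₁ f₂)) ω₀ := by
    have a1 : S.Bf (D.nu k) f₁ f₂ = EN D.R N (fun ω => S.Bf (D.pk k (up ω)) f₁ f₂) ω₀ :=
      (D.EN_pk (hkk.trans hk'N) (fun a => S.U a f₁ * S.W a f₂) ω₀).symm
    have a2 : S.Bf (D.nu k') f₁ f₂ = EN D.R N (fun ω => S.Bf (D.pk k' (up ω)) f₁ f₂) ω₀ :=
      (D.EN_pk hk'N (fun a => S.U a f₁ * S.W a f₂) ω₀).symm
    rw [EN_sub, a1, a2, EN_map, EN_map]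
  have e2 : ‖S.ι (S.Bf (D.nu k) f₁ f₂) - S.ι (S.Bf (D.nu k') f₁ f₂)‖ ^ 2
      ≤ EN D.R N (fun ω => G ω ^ 2) ω₀ := by
    rw [e1]
    exact (pow_le_pow_left₀ (norm_nonneg _) (EN_norm_le D.R N _ ω₀) 2).trans
      (EN_sq_le D.R hR N G ω₀)
  refine e2.trans ((EN_mono D.R N hG ω₀).trans ?_)
  have e3 : EN D.R N (fun ω => K * (4 * θ + 2 * √(ef ω k - ef ω k'))
      + 4 * mm S D θ f₁ K s τ n₁ n₂ ω) ω₀
      = K * (4 * θ + 2 * EN D.R N (fun ω => √(ef ω k - ef ω k')) ω₀)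
        + 4 * (K⁻¹ * (6 + (EN D.R N (fun ω => ee S D θ f₁ K n₂ (up ω)) ω₀ + τ - A n₁) / (2 * s)
          + s * (K + 3) ^ 2 / 2)) := by
    have b1 : (fun ω : ℕ → C × ℕ => K * (4 * θ + 2 * √(ef ω k - ef ω k'))
        + 4 * mm S D θ f₁ K s τ n₁ n₂ ω)
        = fun ω => (2 * K) • √(ef ω k - ef ω k')
          + ((4 * K⁻¹ / (2 * s)) • (ee S D θ f₁ K n₂ (up ω) - ee S D θ f₁ K n₁ ω)
          + (K * (4 * θ) + 4 * (K⁻¹ * (6 + τ / (2 * s) + s * (K + 3) ^ 2 / 2)))) := by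
      funext ω
      simp only [mm, smul_eq_mul]
      ring
    rw [b1, EN_add, EN_add, EN_smul, EN_smul, EN_sub, EN_const D.R hR]
    simp only [smul_eq_mul, A]
    ring
  rw [e3]
  have e4 : EN D.R N (fun ω => √(ef ω k - ef ω k')) ω₀ ≤ √(1 / K₂) := by
    refine Real.le_sqrt_of_sq_le ((EN_sq_le D.R hR N _ ω₀).trans ?_)
    have c1 : EN D.R N (fun ω => √(ef ω k - ef ω k') ^ 2) ω₀
        = EN D.R N (fun ω => ef ω k - ef ω k') ω₀ := by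
      congr 1
      funext ω
      exact Real.sq_sqrt (sub_nonneg.2 (hef ω k k' hkk hk'n₂).1)
    rw [c1, EN_sub]
    have c2 : Eb k ≤ Eb n := EN_mono D.R N (fun ω =>
      (hef ω n k hk (hkk.trans hk'n₂)).1) ω₀
    have c3 : Eb (t (i₁ * K₂ + i₂ + 1)) ≤ Eb k' := EN_mono D.R N (fun ω =>
      (hef ω k' _ hk'2 hnext).1) ω₀
    change Eb k - Eb k' ≤ _
    linarith
  have e5 : EN D.R N (fun ω => ee S D θ f₁ K n₂ (up ω)) ω₀ ≤ A n₂ + θ := by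
    have hdep : Dep N (ee S D θ f₁ K n₂) := fun ω ω' h =>
      ee_dep S D θ f₁ K n₂ ω ω' fun i hi => h i (by omega)
    have := EN_telescope D.R hR (ee S D θ f₁ K n₂) (ee_nonneg S D θ f₁ K n₂)
      (ee_le_one S hD hf₁.norm_le K n₂) hdep ω₀
    have h2 := hD.Rsum N
    exact this.trans (by simp only [A]; linarith)
  have e6 : (EN D.R N (fun ω => ee S D θ f₁ K n₂ (up ω)) ω₀ + τ - A n₁) / (2 * s)
      ≤ (1 / K₁ + θ + τ) / (2 * s) := by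
    apply div_le_div_of_nonneg_right _ (by positivity)
    linarith
  have hKi : 0 < K⁻¹ := inv_pos.2 hK
  have e7 := mul_le_mul_of_nonneg_left e4 hK.le
  have e8 := mul_le_mul_of_nonneg_left e6 hKi.le
  nlinarith

/-- the core theorem -/
theorem core.{u, v} {δ : ℝ} (hδ : 0 < δ) : ∃ θ > 0, ∀ {C : Type} [Fintype C] [Nonempty C]
    {B : Type u} {H : Type v} [CommRing B] [StarRing B] [Algebra ℝ B]
    [NormedAddCommGroup H] [InnerProductSpace ℝ H] (S : Sys B H) {D : Levels C}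
    [∀ i, NeZero (D.R i)] {εl : ℕ → ℝ} (_ : GoodLevels D εl θ) {f₁ f₂ : B}
    (_ : S.Ball f₁) (_ : S.Ball f₂) (F : ℕ → ℕ),
    ∃ n, ∀ k k', n ≤ k → k ≤ k' → k' ≤ F n →
      ‖S.ι (S.Bf (D.nu k) f₁ f₂) - S.ι (S.Bf (D.nu k') f₁ f₂)‖ ^ 2 ≤ δ := by
  set K : ℝ := max 1 (144 / δ) with hKdef
  have hK1 : 1 ≤ K := le_max_left _ _
  have hK : 0 < K := by linarith
  have hK2 : 144 / δ ≤ K := le_max_right _ _
  have t1 : 4 * (K⁻¹ * 6) ≤ δ / 6 := by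
    rw [div_le_iff₀ hδ] at hK2
    rw [← div_eq_inv_mul, mul_div_assoc', div_le_iff₀ hK]
    linarith
  set s : ℝ := min 1 (δ * K / (12 * (K + 3) ^ 2)) with hsdef
  have hs : 0 < s := lt_min one_pos (by positivity)
  have hs1 : s ≤ 1 := min_le_left _ _
  have hs2 : s ≤ δ * K / (12 * (K + 3) ^ 2) := min_le_right _ _
  have t2 : 4 * (K⁻¹ * (s * (K + 3) ^ 2 / 2)) ≤ δ / 6 := by
    rw [le_div_iff₀ (by positivity)] at hs2
    have : 4 * (K⁻¹ * (s * (K + 3) ^ 2 / 2)) = (s * (12 * (K + 3) ^ 2)) / (6 * K) := by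
      field_simp; ring
    rw [this, div_le_iff₀ (by positivity)]
    calc _ ≤ δ * K := hs2
      _ = δ / 6 * (6 * K) := by ring
  set θ : ℝ := min (δ / (24 * K)) (δ * (K * s) / 36) with hθdef
  have hθ : 0 < θ := lt_min (by positivity) (by positivity)
  have hθ1 : θ ≤ δ / (24 * K) := min_le_left _ _
  have hθ2 : θ ≤ δ * (K * s) / 36 := min_le_right _ _
  have t3 : K * (4 * θ) ≤ δ / 6 := by
    rw [le_div_iff₀ (by positivity)] at hθ1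
    linarith
  have aux : ∀ x : ℝ, x ≤ δ * (K * s) / 36 → 4 * (K⁻¹ * (x / (2 * s))) ≤ δ / 18 := by
    intro x hx
    have : 4 * (K⁻¹ * (x / (2 * s))) = 2 * x / (K * s) := by field_simp; ring
    rw [this, div_le_iff₀ (by positivity)]
    linarith
  set τ : ℝ := min 1 (δ * (K * s) / 36) with hτdef
  have hτ0 : 0 < τ := lt_min one_pos (by positivity)
  have hτ1 : τ ≤ 1 := min_le_left _ _
  have hτ2 : τ ≤ δ * (K * s) / 36 := min_le_right _ _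
  obtain ⟨K₁, hK₁⟩ := exists_nat_gt (1 / (δ * (K * s) / 36))
  have hK₁0 : 0 < K₁ := by
    have : (0 : ℝ) < K₁ := lt_trans (by positivity) hK₁
    exact_mod_cast this
  have hK₁' : (1 : ℝ) / K₁ ≤ δ * (K * s) / 36 := by
    have hp : (0 : ℝ) < K₁ := by exact_mod_cast hK₁0
    rw [div_le_iff₀ hp]
    rw [div_lt_iff₀ (by positivity)] at hK₁
    linarith
  obtain ⟨K₂, hK₂⟩ := exists_nat_gt ((12 * K / δ) ^ 2)
  have hK₂0 : 0 < K₂ := by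
    have : (0 : ℝ) < K₂ := lt_of_le_of_lt (sq_nonneg _) hK₂
    exact_mod_cast this
  have t4 : K * (2 * √(1 / K₂)) ≤ δ / 6 := by
    have hp : (0 : ℝ) < K₂ := by exact_mod_cast hK₂0
    have : √(1 / K₂) ≤ δ / (12 * K) := by
      rw [Real.sqrt_le_left (by positivity), div_le_iff₀ hp]
      have h2 : (12 * K / δ) ^ 2 * (δ / (12 * K)) ^ 2 = 1 := by
        field_simp
      have h3 := mul_le_mul_of_nonneg_right hK₂.le (sq_nonneg (δ / (12 * K)))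
      rw [h2] at h3
      linarith
    rw [le_div_iff₀ (by positivity)] at this
    linarith
  refine ⟨θ, hθ, fun {C} _ _ {B H} _ _ _ _ _ S {D} _ {εl} hD {f₁ f₂} hf₁ hf₂ F => ?_⟩
  obtain ⟨n, hn⟩ := core_aux S hD hf₁ hf₂ hK hτ0 hτ1 hs hs1 hK₁0 hK₂0 F
  refine ⟨n, fun k k' h1 h2 h3 => (hn k k' h1 h2 h3).trans ?_⟩
  have a1 := aux _ hK₁'
  have a2 := aux _ hθ2
  have a3 := aux _ hτ2
  have e : K * (4 * θ + 2 * √(1 / K₂))
      + 4 * (K⁻¹ * (6 + (1 / K₁ + θ + τ) / (2 * s) + s * (K + 3) ^ 2 / 2))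
      = K * (4 * θ) + K * (2 * √(1 / K₂)) + 4 * (K⁻¹ * 6) + 4 * (K⁻¹ * ((1 / K₁) / (2 * s)))
        + 4 * (K⁻¹ * (θ / (2 * s))) + 4 * (K⁻¹ * (τ / (2 * s)))
        + 4 * (K⁻¹ * (s * (K + 3) ^ 2 / 2)) := by ring
  rw [e]
  linarith

end Pool.Agent.H58.TC
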