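import Pool.Agent.H58.TC.Design

/-!
# Statements of the modules
-/

namespace Pool.Agent.H58.TC

open Finset MeasureTheory Filter Topology

/-- MODULE QI. -/
def QIStmt : Prop :=
  (∀ (L : ℕ) (q : Fin 4 → ℤ) (c : Fin 5), Symm ((half L q c).map Prod.fst)) ∧
  (∀ (L L' : ℕ) (q : Fin 4 → ℤ) (c : Fin 5),
    QI (conv ((half L q c).map Prod.fst) ((half L q c).map Prod.fst))
      (conv ((half L' q c).map Prod.fst) ((half L' q c).map Prod.fst))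
      ((16 * L + 6) / (2 * L' + 1)))

/-- MODULE B1: the averaged operator of one level has norm at most `74/75`. Here `d c` are the
five directions and the coefficients are `z (2 t chg c)`. -/
def OpStmt.{u, v} : Prop :=
  ∀ {B : Type u} {H : Type v} [CommRing B] [StarRing B] [Algebra ℝ B]
    [NormedAddCommGroup H] [InnerProductSpace ℝ H] (S : Sys B H) (Z : Zeta S)
    (q : Fin 4 → ℤ) (x : B),
    ‖S.ι ((1 / 15 : ℝ) • ∑ c : Fin 5, ∑ t : Fin 3,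
      Z.z (2 * (((t : ℕ) : ZMod 3) - 1) * chg c) *
        S.U (-2 * ((((t : ℕ) : ℤ) - 1) * dir q c)) x)‖ ≤ 74 / 75 * ‖S.ι x‖

/-- MODULE B2: the weighted averages for powers tend to zero, uniformly. -/
def BStmt.{u, v} : Prop :=
  ∀ {B : Type u} {H : Type v} [CommRing B] [StarRing B] [Algebra ℝ B]
    [NormedAddCommGroup H] [InnerProductSpace ℝ H] (S : Sys B H) (Z : Zeta S)
    (f1 f2 : B), S.Ball f1 → S.Ball f2 → ∀ k : ℕ,
    ‖S.ι (E (stg k) (fun a => Z.z a.2 * (S.U a.1 f1 * S.U (2 * a.1) f2)))‖ ^ 4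
      ≤ (674 / 675 : ℝ) ^ k

/-- The standard character of `ZMod 3`. -/
noncomputable def om (s : ZMod 3) : ℂ := ZMod.stdAddChar s

/-- MODULE M: the mass of the weight. -/
def MassStmt : Prop := ∀ k : ℕ, E (stg k) (fun a => om a.2) = ((4 / 5 : ℝ) ^ k : ℝ)

/-- MODULE C: the commuting system. `x ↦ (T ^ n) x` is the iterate. -/
def CStmt : Prop :=
  ∃ (X : Type) (_ : MeasurableSpace X) (μ : Measure X) (T₁ T₂ : X ≃ᵐ X) (f₁ f₂ : X → ℂ),
    IsProbabilityMeasure μ ∧ MeasurePreserving T₁ μ μ ∧ MeasurePreserving T₂ μ μ ∧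
    (∀ x, T₁ (T₂ x) = T₂ (T₁ x)) ∧ Measurable f₁ ∧ Measurable f₂ ∧
    (∀ x, ‖f₁ x‖ = 1) ∧ (∀ x, ‖f₂ x‖ = 1) ∧
    ∀ (k : ℕ) (ω : (stg k).Ω),
      eLpNorm (fun x => f₁ ((T₁.toEquiv ^ ((stg k).v ω).1 : Equiv.Perm X) x) *
          f₂ ((T₂.toEquiv ^ ((stg k).v ω).1 : Equiv.Perm X) x)
        - om (-((stg k).v ω).2) * (f₁ x * f₂ x)) 2 μ ≤ ENNReal.ofReal (1 / 8)

/-- MODULE ASM: a sequence of integers whose Cesàro averages follow a sequence of laws. -/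
def AsmStmt.{u, v} : Prop :=
  ∀ p : ℕ → Law ℤ, ∃ a : ℕ → ℤ,
    (∀ {V : Type u} [NormedAddCommGroup V] [NormedSpace ℝ V] (Ψ : ℤ → V) (M : ℝ),
      (∀ n, ‖Ψ n‖ ≤ M) → ∀ L : V, Tendsto (fun i => E (p i) Ψ) atTop (𝓝 L) →
        Tendsto (fun N : ℕ => (N : ℝ)⁻¹ • ∑ n ∈ Icc 1 N, Ψ (a n)) atTop (𝓝 L)) ∧
    (∀ {V : Type v} [NormedAddCommGroup V] [NormedSpace ℝ V] (Ψ : ℤ → V) (M : ℝ),
      (∀ n, ‖Ψ n‖ ≤ M) → ∀ L : V,
        Tendsto (fun N : ℕ => (N : ℝ)⁻¹ • ∑ n ∈ Icc 1 N, Ψ (a n)) atTop (𝓝 L) →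
        Tendsto (fun i => E (p i) Ψ) atTop (𝓝 L))

/-- MODULE A: the unweighted averages over the stage laws are Cauchy in `L²`, for arbitrary
commuting actions. -/
def AStmt.{u, v} : Prop :=
  ∀ {B : Type u} {H : Type v} [CommRing B] [StarRing B] [Algebra ℝ B]
    [NormedAddCommGroup H] [InnerProductSpace ℝ H] (S : Sys B H)
    (f1 f2 : B), S.Ball f1 → S.Ball f2 →
    CauchySeq (fun k : ℕ => S.ι (S.Bf ((stg k).map Prod.fst) f1 f2))

end Pool.Agent.H58.TC
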