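import Pool.Agent.H58.TC.A4
import Pool.Agent.H58.TC.Goals

/-!
# Part A for the explicit design
-/

namespace Pool.Agent.H58.TC

open Finset Filter Topology

/-- The levels `k₀, k₀+1, ..` of the design. -/
noncomputable def Dlev (k₀ : ℕ) : Levels (Fin 5) where
  σ i c r := (half (Lsc (k₀ + i) r) (gen (k₀ + i)) c).map Prod.fst
  R i := Rsc (k₀ + i)

instance (k₀ i : ℕ) : NeZero ((Dlev k₀).R i) := ⟨(inferInstance : NeZero (Rsc (k₀ + i))).out⟩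

theorem Lsc_pos (j r : ℕ) : 0 < Lsc j r := by unfold Lsc; positivity

theorem Lsc_ratio {j s r : ℕ} (h : s < r) : 64 * 2 ^ j * Lsc j s ≤ Lsc j r := by
  unfold Lsc
  have : (64 * 2 ^ j) * (64 * 2 ^ j) ^ (s + 1) = (64 * 2 ^ j) ^ (s + 1 + 1) := by
    rw [pow_succ _ (s + 1), mul_comm]
  rw [this]
  exact Nat.pow_le_pow_right (by positivity) (by omega)

theorem eps_le {j s r : ℕ} (h : s < r) :
    ((16 * (Lsc j s : ℕ) + 6 : ℝ)) / (2 * (Lsc j r : ℕ) + 1) ≤ (1 / 2 : ℝ) ^ j := by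
  have h1 : (1 : ℝ) ≤ Lsc j s := by exact_mod_cast Lsc_pos j s
  have h2 : (64 * 2 ^ j * Lsc j s : ℝ) ≤ Lsc j r := by exact_mod_cast Lsc_ratio h
  have h3 : (0 : ℝ) < 2 ^ j := by positivity
  rw [div_le_iff₀ (by positivity), one_div, inv_pow]
  have h4 : ((2 : ℝ) ^ j)⁻¹ * (2 * (Lsc j r : ℝ) + 1)
      ≥ ((2 : ℝ) ^ j)⁻¹ * (2 * (64 * 2 ^ j * Lsc j s)) := by
    apply mul_le_mul_of_nonneg_left _ (by positivity)
    linarith
  have h5 : ((2 : ℝ) ^ j)⁻¹ * (2 * (64 * 2 ^ j * Lsc j s)) = 128 * (Lsc j s : ℝ) := by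
    field_simp; norm_num
  rw [h5] at h4
  linarith

theorem geo_sum (k₀ n : ℕ) : ∑ i ∈ range n, (1 / 2 : ℝ) ^ (k₀ + i) ≤ 2 * (1 / 2 : ℝ) ^ k₀ := by
  have : ∑ i ∈ range n, (1 / 2 : ℝ) ^ (k₀ + i) = (1 / 2 : ℝ) ^ k₀ * ∑ i ∈ range n, (1 / 2 : ℝ) ^ i := by
    rw [mul_sum]; exact sum_congr rfl fun i _ => pow_add _ _ _
  rw [this, mul_comm 2]
  apply mul_le_mul_of_nonneg_left _ (by positivity)
  have h := geom_sum_eq (show (1 / 2 : ℝ) ≠ 1 by norm_num) n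
  rw [h]
  have : (0 : ℝ) ≤ (1 / 2 : ℝ) ^ n := by positivity
  have e : ((1 / 2 : ℝ) ^ n - 1) / (1 / 2 - 1) = 2 - 2 * (1 / 2 : ℝ) ^ n := by ring
  rw [e]; linarith

theorem goodLevels (hq : QIStmt) {k₀ : ℕ} {θ : ℝ} (hθ : 2 * (1 / 2 : ℝ) ^ k₀ ≤ θ) :
    GoodLevels (Dlev k₀) (fun i => (1 / 2 : ℝ) ^ (k₀ + i)) θ where
  symm i c r := hq.1 _ _ _
  qi i c s r h := (hq.2 (Lsc (k₀ + i) s) (Lsc (k₀ + i) r) (gen (k₀ + i)) c).mono (eps_le h)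
  nonneg i := by positivity
  sum_le n := (geo_sum k₀ n).trans hθ
  Rpos i := by
    change 0 < Rsc (k₀ + i)
    unfold Rsc; positivity
  Rsum n := by
    refine le_trans (le_of_eq ?_) ((geo_sum k₀ n).trans hθ)
    refine sum_congr rfl fun i _ => ?_
    change (1 : ℝ) / (Rsc (k₀ + i) : ℕ) = _
    unfold Rsc
    push_cast
    rw [one_div, one_div, inv_pow]

theorem E_rho_lev {V : Type*} [AddCommGroup V] [Module ℝ V] (k₀ i : ℕ) (φ : ℤ → V) :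
    E ((Dlev k₀).rho i) φ = E (lev (k₀ + i)) (fun a => φ a.1) := by
  unfold Levels.rho lev
  rw [E_mix, E_mix]
  congr 1

theorem E_stg_add {V : Type*} [AddCommGroup V] [Module ℝ V] (k₀ k : ℕ) (φ : ℤ → V) :
    E (stg (k₀ + k)) (fun a => φ a.1)
      = E (stg k₀) (fun a => E ((Dlev k₀).nu k) (fun b => φ (a.1 + b))) := by
  induction k generalizing φ with
  | zero =>
    simp [Levels.nu]
  | succ k ih =>
    have e1 : stg (k₀ + (k + 1)) = conv (stg (k₀ + k)) (lev (k₀ + k)) := rfl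
    rw [e1, E_conv]
    have e2 : (fun a : ℤ × ZMod 3 => E (lev (k₀ + k)) (fun b => φ (a + b).1))
        = fun a => (fun x : ℤ => E ((Dlev k₀).rho k) (fun b => φ (x + b))) a.1 := by
      funext a
      exact (E_rho_lev k₀ k (fun b => φ (a.1 + b))).symm
    rw [e2, ih (fun x : ℤ => E ((Dlev k₀).rho k) (fun b => φ (x + b)))]
    congr 1
    funext a
    have e3 : (Dlev k₀).nu (k + 1) = conv ((Dlev k₀).nu k) ((Dlev k₀).rho k) := rfl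
    rw [e3, E_conv]
    simp only [add_assoc]

theorem Bf_stg {B H : Type*} [CommRing B] [StarRing B] [Algebra ℝ B]
    [NormedAddCommGroup H] [InnerProductSpace ℝ H] (S : Sys B H) (k₀ k : ℕ) (f g : B) :
    S.Bf ((stg (k₀ + k)).map Prod.fst) f g
      = E (stg k₀) (fun a => S.Bf ((Dlev k₀).nu k) (S.U a.1 f) (S.W a.1 g)) := by
  unfold Sys.Bf
  rw [E_map, E_stg_add k₀ k (fun a => S.U a f * S.W a g)]
  congr 1
  funext a
  congr 1
  funext b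
  rw [add_comm a.1 b, S.U_add, S.W_add]

theorem astmt.{u, v} (hq : QIStmt) : AStmt.{u, v} := by
  intro B H _ _ _ _ _ S f₁ f₂ hf₁ hf₂
  rw [Metric.cauchySeq_iff']
  intro ε hε
  obtain ⟨θ, hθ, hcore⟩ := core.{u, v} (δ := (ε / 2) ^ 2) (by positivity)
  obtain ⟨k₀, hk₀⟩ : ∃ k₀ : ℕ, 2 * (1 / 2 : ℝ) ^ k₀ ≤ θ := by
    obtain ⟨k₀, hk₀⟩ := exists_pow_lt_of_lt_one (show 0 < θ / 2 by positivity)
      (show (1 / 2 : ℝ) < 1 by norm_num)
    exact ⟨k₀, by linarith⟩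
  have hD := goodLevels hq hk₀
  have key : ∀ f g : B, S.Ball f → S.Ball g → ∃ N, ∀ k k', N ≤ k → k ≤ k' →
      ‖S.ι (S.Bf ((Dlev k₀).nu k) f g) - S.ι (S.Bf ((Dlev k₀).nu k') f g)‖ ^ 2 ≤ (ε / 2) ^ 2 := by
    intro f g hf hg
    by_contra hcon
    push Not at hcon
    choose kk kk' h1 h2 h3 using hcon
    obtain ⟨n, hn⟩ := hcore S hD hf hg kk'
    exact absurd (hn (kk n) (kk' n) (h1 n) (h2 n) le_rfl) (not_le.2 (h3 n))
  have key2 : ∀ ω : (stg k₀).Ω, ∃ N, ∀ k k', N ≤ k → k ≤ k' →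
      ‖S.ι (S.Bf ((Dlev k₀).nu k) (S.U ((stg k₀).v ω).1 f₁) (S.W ((stg k₀).v ω).1 f₂))
        - S.ι (S.Bf ((Dlev k₀).nu k') (S.U ((stg k₀).v ω).1 f₁) (S.W ((stg k₀).v ω).1 f₂))‖ ^ 2
        ≤ (ε / 2) ^ 2 := fun ω => key _ _ (hf₁.U _) (hf₂.W _)
  choose Nf hNf using key2
  let N := univ.sup Nf
  refine ⟨k₀ + N, fun m hm => ?_⟩
  obtain ⟨k', rfl⟩ : ∃ k', m = k₀ + k' := ⟨m - k₀, by omega⟩
  have hNk' : N ≤ k' := by omega
  rw [dist_comm, dist_eq_norm, Bf_stg, Bf_stg, map_E, map_E, ← E_sub]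
  refine lt_of_le_of_lt (norm_E_le_of_le' _ (c := ε / 2) fun ω => ?_) (by linarith)
  have h := hNf ω N k' (Finset.le_sup (mem_univ ω)) hNk'
  exact (pow_le_pow_iff_left₀ (norm_nonneg _) (by positivity) two_ne_zero).1 h

end Pool.Agent.H58.TC
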