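import Pool.Agent.H58.TC.Goals

/-!
# Assembling a sequence from laws (module ASM)
-/

namespace Pool.Agent.H58.TC

open Finset Filter Topology

/-! ### Rational approximation of a finite law by an empirical law -/

open Classical in
theorem exists_samples (p : Law ℤ) (i : ℕ) : ∃ (len : ℕ) (j : ℕ → p.Ω), 0 < len ∧
    (∀ m, j (m + len) = j m) ∧
    ∑ ω, |(((range len).filter (fun m => j m = ω)).card : ℝ) / len - p.w ω| ≤ 1 / (i + 1) := by
  have hne : Nonempty p.Ω := by
    by_contra h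
    rw [not_nonempty_iff] at h
    have := p.sum_one
    simp at this
  set n := Fintype.card p.Ω with hn
  have hn0 : 0 < n := Fintype.card_pos
  set K : ℕ := n + 2 * n * (i + 1) with hK
  set mult : p.Ω → ℕ := fun ω => ⌊p.w ω * K⌋₊ with hmult
  set len := ∑ ω, mult ω with hlen
  have hm1 : ∀ ω, (mult ω : ℝ) ≤ p.w ω * K := fun ω =>
    Nat.floor_le (mul_nonneg (p.nonneg ω) (Nat.cast_nonneg _))
  have hm2 : ∀ ω, p.w ω * K < mult ω + 1 := fun ω => Nat.lt_floor_add_one _
  have hlen1 : (len : ℝ) ≤ K := by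
    rw [hlen]; push_cast
    calc ∑ ω, (mult ω : ℝ) ≤ ∑ ω, p.w ω * K := sum_le_sum fun ω _ => hm1 ω
      _ = K := by rw [← sum_mul, p.sum_one, one_mul]
  have hlen2 : (K : ℝ) ≤ len + n := by
    rw [hlen]; push_cast
    calc (K : ℝ) = ∑ ω, p.w ω * K := by rw [← sum_mul, p.sum_one, one_mul]
      _ ≤ ∑ ω, ((mult ω : ℝ) + 1) := sum_le_sum fun ω _ => (hm2 ω).le
      _ = ∑ ω, (mult ω : ℝ) + n := by rw [sum_add_distrib]; simp [hn]
  have hlen3 : (2 * n * (i + 1) : ℝ) ≤ len := by
    have : (K : ℝ) = n + 2 * n * (i + 1) := by rw [hK]; push_cast; ring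
    linarith
  have hnR : (0 : ℝ) < n := by exact_mod_cast hn0
  have hlenR : (0 : ℝ) < len := lt_of_lt_of_le (by positivity) hlen3
  have hlen0 : 0 < len := by exact_mod_cast hlenR
  have hcard : Fintype.card (Σ ω : p.Ω, Fin (mult ω)) = len := by
    simp [hlen]
  let e : (Σ ω : p.Ω, Fin (mult ω)) ≃ Fin len := Fintype.equivFinOfCardEq hcard
  let j : ℕ → p.Ω := fun m => (e.symm ⟨m % len, Nat.mod_lt _ hlen0⟩).1
  refine ⟨len, j, hlen0, fun m => ?_, ?_⟩
  · simp only [j, Nat.add_mod_right]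
  · have hcnt : ∀ ω, ((range len).filter (fun m => j m = ω)).card = mult ω := by
      intro ω
      rw [card_filter, sum_range (fun m => if j m = ω then 1 else 0)]
      have h1 : ∀ x : Fin len, (if j x = ω then 1 else 0) = (if (e.symm x).1 = ω then 1 else 0) := by
        intro x
        have : (⟨(x : ℕ) % len, Nat.mod_lt _ hlen0⟩ : Fin len) = x := by
          apply Fin.ext; exact Nat.mod_eq_of_lt x.2
        simp only [j, this]
      rw [sum_congr rfl fun x _ => h1 x]
      rw [e.symm.sum_comp (fun y : (Σ ω : p.Ω, Fin (mult ω)) => if y.1 = ω then 1 else 0)]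
      rw [Fintype.sum_sigma]
      have h2 : ∀ x : p.Ω, (∑ _y : Fin (mult x), if x = ω then 1 else 0)
          = if x = ω then mult x else 0 := by
        intro x
        split_ifs <;> simp
      rw [sum_congr rfl fun x _ => h2 x, sum_ite_eq' univ ω mult, if_pos (mem_univ _)]
    simp only [hcnt]
    calc ∑ ω, |(mult ω : ℝ) / len - p.w ω| ≤ ∑ ω, (1 + p.w ω * n) / len := by
          refine sum_le_sum fun ω _ => ?_
          rw [show (mult ω : ℝ) / len - p.w ω = (mult ω - p.w ω * len) / len by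
            field_simp, abs_div, abs_of_pos hlenR]
          refine div_le_div_of_nonneg_right ?_ hlenR.le
          rw [abs_le]
          have h1 := hm1 ω
          have h2 := hm2 ω
          have h3 := p.nonneg ω
          constructor
          · nlinarith
          · nlinarith
      _ = (n + n) / len := by
          rw [← sum_div, sum_add_distrib, ← sum_mul, p.sum_one]; simp [hn]
      _ ≤ 1 / (i + 1) := by
          rw [div_le_div_iff₀ hlenR (by positivity)]
          linarith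

section

variable (p : ℕ → Law ℤ)

/-- Period of block `i`. -/
noncomputable def slen (i : ℕ) : ℕ := (exists_samples (p i) i).choose

/-- Samples of block `i`. -/
noncomputable def smp (i : ℕ) : ℕ → (p i).Ω := (exists_samples (p i) i).choose_spec.choose

theorem slen_pos (i : ℕ) : 0 < slen p i := (exists_samples (p i) i).choose_spec.choose_spec.1

theorem smp_per (i m : ℕ) : smp p i (m + slen p i) = smp p i m :=
  (exists_samples (p i) i).choose_spec.choose_spec.2.1 m

open Classical in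
theorem smp_err (i : ℕ) :
    ∑ ω, |(((range (slen p i)).filter (fun m => smp p i m = ω)).card : ℝ) / slen p i - (p i).w ω|
      ≤ 1 / (i + 1) :=
  (exists_samples (p i) i).choose_spec.choose_spec.2.2

/-- The average over one period. -/
noncomputable def avg {V : Type*} [AddCommGroup V] [Module ℝ V] (Ψ : ℤ → V) (i : ℕ) : V :=
  (slen p i : ℝ)⁻¹ • ∑ m ∈ range (slen p i), Ψ ((p i).v (smp p i m))

theorem norm_avg_sub {V : Type*} [NormedAddCommGroup V] [NormedSpace ℝ V] {Ψ : ℤ → V} {M : ℝ}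
    (hM : ∀ n, ‖Ψ n‖ ≤ M) (i : ℕ) : ‖avg p Ψ i - E (p i) Ψ‖ ≤ M * (1 / (i + 1)) := by
  classical
  have h1 : avg p Ψ i = ∑ ω, ((((range (slen p i)).filter (fun m => smp p i m = ω)).card : ℝ)
      / slen p i) • Ψ ((p i).v ω) := by
    unfold avg
    rw [← sum_fiberwise (range (slen p i)) (smp p i) (fun m => Ψ ((p i).v (smp p i m))), smul_sum]
    refine sum_congr rfl fun ω _ => ?_
    rw [sum_congr rfl fun m hm => by rw [(mem_filter.1 hm).2], sum_const, ← Nat.cast_smul_eq_nsmul ℝ,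
      ← mul_smul, div_eq_inv_mul]
  rw [h1, E_def, ← sum_sub_distrib]
  have hM0 : 0 ≤ M := (norm_nonneg _).trans (hM 0)
  calc ‖∑ ω, (((((range (slen p i)).filter (fun m => smp p i m = ω)).card : ℝ)
      / slen p i) • Ψ ((p i).v ω) - (p i).w ω • Ψ ((p i).v ω))‖
      ≤ ∑ ω, ‖((((range (slen p i)).filter (fun m => smp p i m = ω)).card : ℝ)
      / slen p i) • Ψ ((p i).v ω) - (p i).w ω • Ψ ((p i).v ω)‖ := norm_sum_le _ _
    _ ≤ ∑ ω, M * |(((range (slen p i)).filter (fun m => smp p i m = ω)).card : ℝ) / slen p i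
        - (p i).w ω| := by
        refine sum_le_sum fun ω _ => ?_
        rw [← sub_smul, norm_smul, Real.norm_eq_abs, mul_comm]
        exact mul_le_mul_of_nonneg_right (hM _) (abs_nonneg _)
    _ ≤ M * (1 / (i + 1)) := by
        rw [← mul_sum]
        exact mul_le_mul_of_nonneg_left (smp_err p i) hM0

theorem norm_avg_le {V : Type*} [NormedAddCommGroup V] [NormedSpace ℝ V] {Ψ : ℤ → V} {M : ℝ}
    (hM : ∀ n, ‖Ψ n‖ ≤ M) (i : ℕ) : ‖avg p Ψ i‖ ≤ M := by
  have hl : (0 : ℝ) < slen p i := by exact_mod_cast slen_pos p i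
  unfold avg
  rw [norm_smul, norm_inv, Real.norm_of_nonneg hl.le, inv_mul_le_iff₀ hl]
  refine (norm_sum_le _ _).trans ((sum_le_sum fun m _ => hM _).trans (le_of_eq ?_))
  simp

/-- Block ends. -/
noncomputable def AA : ℕ → ℕ
  | 0 => 0
  | i + 1 => AA i + (i + 2) * (AA i + slen p (i + 1)) * slen p i

theorem AA_succ (i : ℕ) :
    AA p (i + 1) = AA p i + (i + 2) * (AA p i + slen p (i + 1)) * slen p i := rfl

theorem AA_ge (i : ℕ) : AA p i + (i + 2) * (AA p i + slen p (i + 1)) ≤ AA p (i + 1) := by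
  rw [AA_succ]
  have := slen_pos p i
  exact Nat.add_le_add_left (Nat.le_mul_of_pos_right _ this) _

theorem AA_lt (i : ℕ) : AA p i < AA p (i + 1) := by
  have h := AA_ge p i
  have h1 := slen_pos p (i + 1)
  have h2 : 0 < (i + 2) * (AA p i + slen p (i + 1)) := by positivity
  omega

theorem AA_mono : StrictMono (AA p) := strictMono_nat_of_lt_succ (AA_lt p)

theorem AA_len (i : ℕ) (hi : 0 < i) : (i + 1) * slen p i ≤ AA p i := by
  obtain ⟨k, rfl⟩ : ∃ k, i = k + 1 := ⟨i - 1, by omega⟩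
  have h := AA_ge p k
  calc (k + 1 + 1) * slen p (k + 1) ≤ (k + 2) * (AA p k + slen p (k + 1)) :=
        Nat.mul_le_mul le_rfl (Nat.le_add_left _ _)
    _ ≤ _ := le_trans (Nat.le_add_left _ _) h

theorem AA_double (i : ℕ) : 2 * AA p i ≤ AA p (i + 1) := by
  have h := AA_ge p i
  have : AA p i ≤ (i + 2) * (AA p i + slen p (i + 1)) := by nlinarith [slen_pos p (i + 1)]
  omega

theorem exists_blk (n : ℕ) : ∃ i, n < AA p (i + 1) :=
  ⟨n, lt_of_lt_of_le (Nat.lt_succ_self n) ((AA_mono p).id_le (n + 1))⟩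

/-- The block containing position `n`. -/
noncomputable def blk (n : ℕ) : ℕ := by
  classical exact Nat.find (exists_blk p n)

theorem blk_lt (n : ℕ) : n < AA p (blk p n + 1) := by
  classical
  unfold blk
  exact Nat.find_spec (exists_blk p n)

theorem blk_le (n : ℕ) : AA p (blk p n) ≤ n := by
  classical
  rcases Nat.eq_zero_or_pos (blk p n) with h | h
  · rw [h]; exact Nat.zero_le _
  · have h1 : ¬ (n < AA p (blk p n - 1 + 1)) := by
      have : blk p n - 1 < Nat.find (exists_blk p n) := by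
        have : blk p n = Nat.find (exists_blk p n) := by unfold blk; congr
        omega
      exact Nat.find_min (exists_blk p n) this
    rw [Nat.sub_add_cancel h] at h1
    omega

theorem blk_eq {n i : ℕ} (h1 : AA p i ≤ n) (h2 : n < AA p (i + 1)) : blk p n = i := by
  have h3 := blk_lt p n
  have h4 := blk_le p n
  have h5 : i < blk p n + 1 := (AA_mono p).lt_iff_lt.1 (lt_of_le_of_lt h1 h3)
  have h6 : blk p n < i + 1 := (AA_mono p).lt_iff_lt.1 (lt_of_le_of_lt h4 h2)
  omega

theorem blk_tendsto : Tendsto (blk p) atTop atTop := by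
  refine tendsto_atTop.2 fun I => eventually_atTop.2 ⟨AA p I, fun n hn => ?_⟩
  have h : I < blk p n + 1 := (AA_mono p).lt_iff_lt.1 (lt_of_le_of_lt hn (blk_lt p n))
  omega

/-- The sequence, indexed from `0`. -/
noncomputable def bseq (n : ℕ) : ℤ := (p (blk p n)).v (smp p (blk p n) (n - AA p (blk p n)))

/-- The sequence. -/
noncomputable def asmSeq (n : ℕ) : ℤ := bseq p (n - 1)

end

section

variable (p : ℕ → Law ℤ) {V : Type*} [NormedAddCommGroup V] [NormedSpace ℝ V] (Ψ : ℤ → V)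

/-- The defect inside block `i`. -/
noncomputable def dfc (i n : ℕ) : V :=
  ∑ m ∈ range n, Ψ ((p i).v (smp p i m)) - (n : ℝ) • avg p Ψ i

theorem dfc_zero (i : ℕ) : dfc p Ψ i 0 = 0 := by simp [dfc]

theorem dfc_succ (i n : ℕ) :
    dfc p Ψ i (n + 1) = dfc p Ψ i n + (Ψ ((p i).v (smp p i n)) - avg p Ψ i) := by
  unfold dfc
  rw [sum_range_succ]; push_cast; rw [add_smul, one_smul]; abel

theorem dfc_len (i : ℕ) : dfc p Ψ i (slen p i) = 0 := by
  unfold dfc avg
  have hl : (slen p i : ℝ) ≠ 0 := by exact_mod_cast (slen_pos p i).ne'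
  rw [smul_inv_smul₀ hl, sub_self]

theorem dfc_per (i n : ℕ) : dfc p Ψ i (n + slen p i) = dfc p Ψ i n := by
  induction n with
  | zero => rw [zero_add, dfc_len, dfc_zero]
  | succ n ih =>
    rw [add_right_comm, dfc_succ, dfc_succ, ih, smp_per]

theorem dfc_mul (i k : ℕ) : dfc p Ψ i (k * slen p i) = 0 := by
  induction k with
  | zero => rw [zero_mul, dfc_zero]
  | succ k ih => rw [add_mul, one_mul, dfc_per, ih]

variable {Ψ}

theorem dfc_bound {M : ℝ} (hM : ∀ n, ‖Ψ n‖ ≤ M) (i n : ℕ) :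
    ‖dfc p Ψ i n‖ ≤ 2 * M * slen p i := by
  have hM0 : 0 ≤ M := (norm_nonneg _).trans (hM 0)
  induction n using Nat.strong_induction_on with
  | _ n ih =>
    rcases lt_or_ge n (slen p i) with h | h
    · have h1 : ‖dfc p Ψ i n‖ ≤ 2 * M * n := by
        unfold dfc
        refine (norm_sub_le _ _).trans ?_
        have e1 : ‖∑ m ∈ range n, Ψ ((p i).v (smp p i m))‖ ≤ n * M :=
          (norm_sum_le _ _).trans ((sum_le_sum fun m _ => hM _).trans (le_of_eq (by simp)))
        have e2 : ‖(n : ℝ) • avg p Ψ i‖ ≤ n * M := by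
          rw [norm_smul, Real.norm_of_nonneg (Nat.cast_nonneg n)]
          exact mul_le_mul_of_nonneg_left (norm_avg_le p hM i) (Nat.cast_nonneg n)
        linarith
      refine h1.trans (mul_le_mul_of_nonneg_left ?_ (by positivity))
      exact_mod_cast h.le
    · obtain ⟨k, rfl⟩ := Nat.exists_eq_add_of_le' h
      rw [dfc_per]
      exact ih k (by have := slen_pos p i; omega)

variable (Ψ)

/-- The total defect. -/
noncomputable def GG (n : ℕ) : V := ∑ m ∈ range n, (Ψ (bseq p m) - avg p Ψ (blk p m))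

theorem GG_block (i : ℕ) : ∀ k, AA p i + k ≤ AA p (i + 1) →
    GG p Ψ (AA p i + k) = GG p Ψ (AA p i) + dfc p Ψ i k := by
  intro k
  induction k with
  | zero => intro _; rw [dfc_zero, add_zero, add_zero]
  | succ k ih =>
    intro h
    have hb : blk p (AA p i + k) = i := blk_eq p (Nat.le_add_right _ _) (by omega)
    have h1 : GG p Ψ (AA p i + (k + 1)) = GG p Ψ (AA p i + k)
        + (Ψ (bseq p (AA p i + k)) - avg p Ψ (blk p (AA p i + k))) := by
      unfold GG; rw [← add_assoc, sum_range_succ]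
    have h2 : bseq p (AA p i + k) = (p i).v (smp p i k) := by
      unfold bseq
      rw [hb, Nat.add_sub_cancel_left]
    rw [h1, ih (by omega), h2, hb, dfc_succ]; abel

theorem GG_AA (i : ℕ) : GG p Ψ (AA p i) = 0 := by
  induction i with
  | zero => simp [GG, AA]
  | succ i ih =>
    have := GG_block p Ψ i ((i + 2) * (AA p i + slen p (i + 1)) * slen p i) le_rfl
    rw [dfc_mul, ih, add_zero] at this
    exact this

theorem GG_eq (n : ℕ) : GG p Ψ n = dfc p Ψ (blk p n) (n - AA p (blk p n)) := by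
  have h1 := blk_le p n
  have h2 := blk_lt p n
  have := GG_block p Ψ (blk p n) (n - AA p (blk p n)) (by omega)
  rw [Nat.add_sub_cancel' h1, GG_AA, zero_add] at this
  exact this

variable {Ψ}

theorem GG_tendsto {M : ℝ} (hM : ∀ n, ‖Ψ n‖ ≤ M) :
    Tendsto (fun n : ℕ => (n : ℝ)⁻¹ • GG p Ψ n) atTop (𝓝 0) := by
  have hM0 : 0 ≤ M := (norm_nonneg _).trans (hM 0)
  have h1 : Tendsto (fun n : ℕ => 2 * M * (1 / ((blk p n : ℝ) + 1))) atTop (𝓝 0) := by
    have := (tendsto_one_div_add_atTop_nhds_zero_nat (𝕜 := ℝ)).comp (blk_tendsto p)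
    simpa using this.const_mul (2 * M)
  refine squeeze_zero_norm' ?_ h1
  filter_upwards [(blk_tendsto p).eventually_gt_atTop 0] with n hn
  rw [GG_eq, norm_smul, norm_inv, Real.norm_of_nonneg (Nat.cast_nonneg n)]
  have h2 := dfc_bound p hM (blk p n) (n - AA p (blk p n))
  have h3 : ((blk p n : ℝ) + 1) * slen p (blk p n) ≤ n := by
    exact_mod_cast (AA_len p (blk p n) hn).trans (blk_le p n)
  have hl : (0 : ℝ) < slen p (blk p n) := by exact_mod_cast slen_pos p (blk p n)
  have hn0 : (0 : ℝ) < n := lt_of_lt_of_le (by positivity) h3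
  rw [inv_mul_le_iff₀ hn0]
  refine h2.trans ?_
  rw [show (n : ℝ) * (2 * M * (1 / ((blk p n : ℝ) + 1))) = 2 * M * (n / ((blk p n : ℝ) + 1)) by ring]
  refine mul_le_mul_of_nonneg_left ?_ (by positivity)
  rw [le_div_iff₀ (by positivity)]
  linarith

theorem avg_sub_tendsto {M : ℝ} (hM : ∀ n, ‖Ψ n‖ ≤ M) :
    Tendsto (fun i : ℕ => avg p Ψ i - E (p i) Ψ) atTop (𝓝 0) := by
  have h1 : Tendsto (fun i : ℕ => M * (1 / ((i : ℝ) + 1))) atTop (𝓝 0) := by
    simpa using (tendsto_one_div_add_atTop_nhds_zero_nat (𝕜 := ℝ)).const_mul M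
  exact squeeze_zero_norm (norm_avg_sub p hM) h1

omit [NormedSpace ℝ V] in
theorem sum_asmSeq (Ψ : ℤ → V) (N : ℕ) :
    ∑ n ∈ Icc 1 N, Ψ (asmSeq p n) = ∑ n ∈ range N, Ψ (bseq p n) := by
  induction N with
  | zero => simp
  | succ N ih =>
    rw [sum_Icc_succ_top (by omega), sum_range_succ, ih]
    rfl

theorem asm_forward {M : ℝ} (hM : ∀ n, ‖Ψ n‖ ≤ M) {L : V}
    (h : Tendsto (fun i => E (p i) Ψ) atTop (𝓝 L)) :
    Tendsto (fun N : ℕ => (N : ℝ)⁻¹ • ∑ n ∈ Icc 1 N, Ψ (asmSeq p n)) atTop (𝓝 L) := by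
  have h1 : Tendsto (avg p Ψ) atTop (𝓝 L) := by
    have := (avg_sub_tendsto p hM).add h
    simpa using this
  have h2 : Tendsto (fun n => avg p Ψ (blk p n)) atTop (𝓝 L) := h1.comp (blk_tendsto p)
  have h3 := h2.cesaro_smul
  have h4 := (GG_tendsto p hM).add h3
  rw [zero_add] at h4
  refine h4.congr fun N => ?_
  rw [sum_asmSeq, ← smul_add]
  congr 1
  unfold GG
  rw [← sum_add_distrib]
  simp

theorem asm_backward {M : ℝ} (hM : ∀ n, ‖Ψ n‖ ≤ M) {L : V}
    (h : Tendsto (fun N : ℕ => (N : ℝ)⁻¹ • ∑ n ∈ Icc 1 N, Ψ (asmSeq p n)) atTop (𝓝 L)) :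
    Tendsto (fun i => E (p i) Ψ) atTop (𝓝 L) := by
  set C : ℕ → V := fun N => (N : ℝ)⁻¹ • ∑ n ∈ Icc 1 N, Ψ (asmSeq p n) with hC
  have hCS : ∀ N : ℕ, (N : ℝ) • C N = ∑ n ∈ range N, Ψ (bseq p n) := by
    intro N
    rw [hC]
    simp only [sum_asmSeq]
    rcases Nat.eq_zero_or_pos N with h0 | h0
    · subst h0; simp
    · rw [smul_inv_smul₀ (by exact_mod_cast h0.ne')]
  have hA : Tendsto (AA p) atTop atTop := (AA_mono p).tendsto_atTop
  have hC1 : Tendsto (fun i => C (AA p i)) atTop (𝓝 L) := h.comp hA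
  have hC2 : Tendsto (fun i => C (AA p (i + 1))) atTop (𝓝 L) := hC1.comp (tendsto_add_atTop_nat 1)
  have hrec : ∀ i, (AA p (i + 1) : ℝ) • C (AA p (i + 1)) = (AA p i : ℝ) • C (AA p i)
      + ((AA p (i + 1) : ℝ) - AA p i) • avg p Ψ i := by
    intro i
    rw [hCS, hCS]
    have h1 : ∑ n ∈ range (AA p (i + 1)), Ψ (bseq p n)
        = ∑ n ∈ range (AA p (i + 1)), avg p Ψ (blk p n) := by
      have := GG_AA p Ψ (i + 1)
      unfold GG at this
      rwa [sum_sub_distrib, sub_eq_zero] at this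
    have h2 : ∑ n ∈ range (AA p i), Ψ (bseq p n)
        = ∑ n ∈ range (AA p i), avg p Ψ (blk p n) := by
      have := GG_AA p Ψ i
      unfold GG at this
      rwa [sum_sub_distrib, sub_eq_zero] at this
    rw [h1, h2, ← sum_range_add_sum_Ico _ (AA_lt p i).le]
    congr 1
    rw [sum_congr rfl fun n hn => by
      rw [blk_eq p (mem_Ico.1 hn).1 (mem_Ico.1 hn).2], sum_const, Nat.card_Ico,
      ← Nat.cast_smul_eq_nsmul ℝ, Nat.cast_sub (AA_lt p i).le]
  have hdiff : Tendsto (fun i => avg p Ψ i - C (AA p (i + 1))) atTop (𝓝 0) := by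
    have h0 : Tendsto (fun i => ‖C (AA p (i + 1)) - C (AA p i)‖) atTop (𝓝 0) := by
      have := (hC2.sub hC1).norm
      simpa using this
    refine squeeze_zero_norm (fun i => ?_) h0
    have hlt : (AA p i : ℝ) < AA p (i + 1) := by exact_mod_cast AA_lt p i
    have hd : (2 : ℝ) * AA p i ≤ AA p (i + 1) := by exact_mod_cast AA_double p i
    have hpos : (0 : ℝ) < (AA p (i + 1) : ℝ) - AA p i := by linarith
    have he : avg p Ψ i - C (AA p (i + 1))
        = ((AA p i : ℝ) / ((AA p (i + 1) : ℝ) - AA p i)) • (C (AA p (i + 1)) - C (AA p i)) := by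
      have h1 : ((AA p (i + 1) : ℝ) - AA p i) • (avg p Ψ i - C (AA p (i + 1)))
          = (AA p i : ℝ) • (C (AA p (i + 1)) - C (AA p i)) := by
        have := hrec i
        rw [smul_sub, smul_sub, sub_smul _ _ (C (AA p (i + 1))), this]
        abel
      rw [div_eq_inv_mul, mul_smul, ← h1, inv_smul_smul₀ hpos.ne']
    rw [he, norm_smul, Real.norm_of_nonneg (div_nonneg (Nat.cast_nonneg _) hpos.le)]
    refine mul_le_of_le_one_left (norm_nonneg _) ?_
    rw [div_le_one hpos]; linarith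
  have h1 : Tendsto (avg p Ψ) atTop (𝓝 L) := by
    have := hdiff.add hC2
    simpa using this
  have h2 := h1.sub (avg_sub_tendsto p hM)
  simpa using h2

end

theorem asm : AsmStmt := fun p =>
  ⟨asmSeq p, fun _ _ hM _ h => asm_forward p hM h, fun _ _ hM _ h => asm_backward p hM h⟩

end Pool.Agent.H58.TC
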