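import Pool.Agent.H58.TC.Goals

/-!
# Module B: the weighted averages for powers tend to zero
-/

namespace Pool.Agent.H58.TC

open Finset

namespace TB

universe u v

/-! ### The stage law as a law on laws -/

/-- Inner law of a level. -/
noncomputable def inn (q : Fin 4 → ℤ) (c : Fin 5) (e : ℤ × ZMod 3) (y : ℤ) : Law (ℤ × ZMod 3) :=
  (theta q c).map (fun x => e + ((y, 0) + x))

/-- A level as a law on laws. -/
noncomputable def LL (j : ℕ) : Law (Law (ℤ × ZMod 3)) :=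
  mix (fun x : Fin 5 × Fin (Rsc j) =>
    Law.op (fun e y => inn (gen j) x.1 e y) (half (Lsc j (x.2 + 1)) (gen j) x.1)
      (box (Lsc j (x.2 + 1)) (gen j)))

/-- A stage as a law on laws. -/
noncomputable def PP : ℕ → Law (Law (ℤ × ZMod 3))
  | 0 => dirac (dirac 0)
  | k + 1 => Law.op conv (PP k) (LL k)

section

variable {V : Type*} [AddCommGroup V] [Module ℝ V]

theorem E_LL (j : ℕ) (φ : ℤ × ZMod 3 → V) :
    E (LL j) (fun p => E p φ) = E (lev j) φ := by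
  unfold LL lev
  rw [E_mix, E_mix]
  congr 1
  refine sum_congr rfl fun x _ => ?_
  rw [E_op]
  unfold hmu
  rw [E_conv]
  congr 1
  funext e
  conv_rhs => rw [half]
  rw [E_conv, E_map]
  rfl

theorem E_PP : ∀ (k : ℕ) (φ : ℤ × ZMod 3 → V),
    E (PP k) (fun p => E p φ) = E (stg k) φ
  | 0, φ => by
    unfold PP stg
    rw [E_dirac]
  | k + 1, φ => by
    rw [PP, stg, E_conv, E_op]
    have h1 : (fun p => E (LL k) (fun q => E (conv p q) φ))
        = fun p => E p (fun a => E (lev k) (fun b => φ (a + b))) := by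
      funext p
      have : (fun q => E (conv p q) φ) = fun q => E p (fun a => E q (fun b => φ (a + b))) := by
        funext q; rw [E_conv]
      rw [this, E_comm]
      congr 1
      funext a
      exact E_LL k (fun b => φ (a + b))
    rw [h1]
    exact E_PP k _

end

variable {B : Type u} {H : Type v} [CommRing B] [StarRing B] [Algebra ℝ B]
    [NormedAddCommGroup H] [InnerProductSpace ℝ H] {S : Sys B H} (Z : Zeta S)

theorem norm_z_mul (s : ZMod 3) (f : B) : ‖S.ι (Z.z s * f)‖ = ‖S.ι f‖ := by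
  have h : inner ℝ (S.ι (Z.z s * f)) (S.ι (Z.z s * f)) = inner ℝ (S.ι f) (S.ι f) := by
    rw [S.sa, Z.z_star, ← mul_assoc, ← Z.z_add, neg_add_cancel, Z.z_zero, one_mul]
  rw [real_inner_self_eq_norm_sq, real_inner_self_eq_norm_sq] at h
  exact (sq_eq_sq₀ (norm_nonneg _) (norm_nonneg _)).1 h

theorem ball_z (s : ZMod 3) : S.Ball (Z.z s) := fun f => (norm_z_mul Z s f).le

/-- The opposite character. -/
def Zop : Zeta S where
  z s := Z.z (-s)
  z_zero := by rw [neg_zero, Z.z_zero]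
  z_add s t := by rw [neg_add, Z.z_add]
  z_star s := Z.z_star _
  U_z a s := Z.U_z a _
  z_sum := by
    have h := Z.z_sum
    have h1 : (-1 : ZMod 3) = 2 := by decide
    have h2 : (-2 : ZMod 3) = 1 := by decide
    rw [h1, h2]
    rw [← h]; ring

/-- The integrand. -/
noncomputable def ph (F F' : ℤ → B) (a b : ℤ × ZMod 3) : ℝ :=
  inner ℝ (S.ι (Z.z (b.2 - a.2) * S.U (b.1 - a.1) (F (a.1 + b.1)))) (S.ι (F' (a.1 + b.1)))

/-- The quadratic form. -/
noncomputable def QQ (P : Law (Law (ℤ × ZMod 3))) (F F' : ℤ → B) : ℝ :=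
  E P (fun p => E p (fun a => E p (fun b => ph Z F F' a b)))

/-- The new first function. -/
noncomputable def nF (F : ℤ → B) (a b : ℤ × ZMod 3) : ℤ → B :=
  fun r => Z.z (b.2 - a.2) * S.U (b.1 - a.1) (F (r + (a.1 + b.1)))

theorem ph_add (F F' : ℤ → B) (a b a' b' : ℤ × ZMod 3) :
    ph Z F F' (a + a') (b + b') = ph Z (nF Z F a' b') (fun r => F' (r + (a'.1 + b'.1))) a b := by
  unfold ph nF
  have h1 : (a + a').1 + (b + b').1 = a.1 + b.1 + (a'.1 + b'.1) := by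
    simp only [Prod.fst_add]; ring
  have h2 : (b + b').2 - (a + a').2 = (b.2 - a.2) + (b'.2 - a'.2) := by
    simp only [Prod.snd_add]; ring
  have h3 : (b + b').1 - (a + a').1 = (b.1 - a.1) + (b'.1 - a'.1) := by
    simp only [Prod.fst_add]; ring
  rw [h1, h2, h3, S.U_add, Z.z_add]
  show _ = inner ℝ (S.ι (Z.z (b.2 - a.2) * S.U (b.1 - a.1) (Z.z (b'.2 - a'.2) *
    S.U (b'.1 - a'.1) (F (a.1 + b.1 + (a'.1 + b'.1)))))) (S.ι (F' (a.1 + b.1 + (a'.1 + b'.1))))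
  rw [map_mul (S.U (b.1 - a.1)), Z.U_z, mul_assoc]

theorem QQ_succ (k : ℕ) (F F' : ℤ → B) :
    QQ Z (PP (k + 1)) F F' = E (LL k) (fun q => E q (fun a' => E q (fun b' =>
      QQ Z (PP k) (nF Z F a' b') (fun r => F' (r + (a'.1 + b'.1)))))) := by
  unfold QQ
  rw [PP, E_op, E_comm]
  congr 1
  funext q
  have h1 : (fun p : Law (ℤ × ZMod 3) => E (conv p q) (fun a => E (conv p q) (fun b => ph Z F F' a b)))
      = fun p => E q (fun a' => E q (fun b' => E p (fun a => E p (fun b =>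
          ph Z (nF Z F a' b') (fun r => F' (r + (a'.1 + b'.1))) a b)))) := by
    funext p
    rw [E_conv, E_comm]
    congr 1
    funext a'
    have h2 : (fun a => E (conv p q) (fun b => ph Z F F' (a + a') b))
        = fun a => E q (fun b' => E p (fun b =>
          ph Z (nF Z F a' b') (fun r => F' (r + (a'.1 + b'.1))) a b)) := by
      funext a
      rw [E_conv, E_comm]
      congr 1
      funext b'
      congr 1
      funext b
      exact ph_add Z F F' a b a' b'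
    rw [h2, E_comm]
  rw [h1, E_comm]
  congr 1
  funext a'
  rw [E_comm]

theorem QQ_smul_sum {ι : Type*} (P : Law (Law (ℤ × ZMod 3))) (s : Finset ι) (c : ℝ)
    (F : ι → ℤ → B) (F' : ℤ → B) :
    QQ Z P (fun r => c • ∑ i ∈ s, F i r) F' = c * ∑ i ∈ s, QQ Z P (F i) F' := by
  unfold QQ
  rw [← E_sum, ← smul_eq_mul, ← E_smul]
  congr 1
  funext p
  rw [← E_sum, ← E_smul]
  congr 1
  funext a
  rw [← E_sum, ← E_smul]
  congr 1
  funext b
  unfold ph
  rw [map_smul, mul_smul_comm, map_smul, real_inner_smul_left, map_sum, mul_sum, map_sum,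
    sum_inner, smul_eq_mul]

/-- Sum over the level, for a real valued function. -/
theorem E_LL2 (k : ℕ) (T : ℤ × ZMod 3 → ℤ × ZMod 3 → ℝ) :
    E (LL k) (fun q => E q (fun a => E q (fun b => T a b)))
      = (Fintype.card (Fin 5 × Fin (Rsc k)) : ℝ)⁻¹ * ∑ x : Fin 5 × Fin (Rsc k),
        E (box (Lsc k (x.2 + 1)) (gen k)) (fun b1 => E (box (Lsc k (x.2 + 1)) (gen k)) (fun y =>
          E (theta (gen k) x.1) (fun u => E (theta (gen k) x.1) (fun v =>
            E (theta (gen k) x.1) (fun w =>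
              T ((b1, 0) + u + ((y, 0) + v)) ((b1, 0) + u + ((y, 0) + w))))))) := by
  unfold LL
  rw [E_mix, smul_eq_mul]
  congr 1
  refine sum_congr rfl fun x _ => ?_
  rw [E_op, half, E_conv, E_map]
  congr 1
  funext b1
  rw [E_comm]
  rfl

theorem E_theta (q : Fin 4 → ℤ) (c : Fin 5) (φ : ℤ × ZMod 3 → ℝ) :
    E (theta q c) φ = (1 / 3 : ℝ) * ∑ t : Fin 3,
      φ ((((t : ℕ) : ℤ) - 1) * dir q c, (((t : ℕ) : ZMod 3) - 1) * chg c) := by
  unfold theta
  rw [E_unif, smul_eq_mul, Fintype.card_fin]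
  norm_num

theorem norm_nF {F : ℤ → B} {A : ℝ} (hF : ∀ r, ‖S.ι (F r)‖ ≤ A) (a b : ℤ × ZMod 3) (r : ℤ) :
    ‖S.ι (nF Z F a b r)‖ ≤ A := by
  unfold nF
  rw [norm_z_mul, S.norm_U]
  exact hF _

/-- The operator estimate in the form needed. -/
theorem good_norm (hop : OpStmt.{u, v}) (k : ℕ) {F : ℤ → B} {A : ℝ} (hF : ∀ r, ‖S.ι (F r)‖ ≤ A) (m r : ℤ) :
    ‖S.ι ((1 / 15 : ℝ) • ∑ x : Fin 5 × Fin 3,
      Z.z (-2 * ((((x.2 : ℕ) : ZMod 3) - 1) * chg x.1)) *
        S.U (-2 * ((((x.2 : ℕ) : ℤ) - 1) * dir (gen k) x.1)) (F (r + m)))‖ ≤ 74 / 75 * A := by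
  have h := hop S (Zop Z) (gen k) (F (r + m))
  have h1 : ∀ (c : Fin 5) (t : Fin 3), (Zop Z).z (2 * (((t : ℕ) : ZMod 3) - 1) * chg c)
      = Z.z (-2 * ((((t : ℕ) : ZMod 3) - 1) * chg c)) := by
    intro c t
    show Z.z _ = _
    congr 1
    ring
  simp only [h1] at h
  rw [Fintype.sum_prod_type]
  refine h.trans ?_
  exact mul_le_mul_of_nonneg_left (hF _) (by norm_num)

theorem sum_E_E {p q : Law ℤ} (G : Fin 5 → ℤ → ℤ → ℝ) :
    ∑ c, E p (fun b => E q (fun y => G c b y))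
      = 5 * E p (fun b => E q (fun y => (1 / 5 : ℝ) • ∑ c, G c b y)) := by
  simp only [E_smul, E_sum]
  rw [smul_eq_mul]
  ring

theorem step_bound (hop : OpStmt.{u, v}) (k : ℕ) {K : ℝ} (hK : 0 ≤ K)
    (ih : ∀ (F F' : ℤ → B) (A A' : ℝ), 0 ≤ A → 0 ≤ A' → (∀ r, ‖S.ι (F r)‖ ≤ A) →
      (∀ r, ‖S.ι (F' r)‖ ≤ A') → |QQ Z (PP k) F F'| ≤ K * (A * A'))
    (F F' : ℤ → B) (A A' : ℝ) (hA : 0 ≤ A) (hA' : 0 ≤ A') (hF : ∀ r, ‖S.ι (F r)‖ ≤ A)
    (hF' : ∀ r, ‖S.ι (F' r)‖ ≤ A') :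
    |QQ Z (PP (k + 1)) F F'| ≤ 674 / 675 * K * (A * A') := by
  rw [QQ_succ, E_LL2]
  set T : ℤ × ZMod 3 → ℤ × ZMod 3 → ℝ := fun a' b' =>
    QQ Z (PP k) (nF Z F a' b') (fun r => F' (r + (a'.1 + b'.1))) with hT
  -- reorganise
  have e1 : (Fintype.card (Fin 5 × Fin (Rsc k)) : ℝ)⁻¹ * ∑ x : Fin 5 × Fin (Rsc k),
        E (box (Lsc k (x.2 + 1)) (gen k)) (fun b1 => E (box (Lsc k (x.2 + 1)) (gen k)) (fun y =>
          E (theta (gen k) x.1) (fun u => E (theta (gen k) x.1) (fun v =>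
            E (theta (gen k) x.1) (fun w =>
              T ((b1, 0) + u + ((y, 0) + v)) ((b1, 0) + u + ((y, 0) + w)))))))
      = (Fintype.card (Fin (Rsc k)) : ℝ)⁻¹ * ∑ i : Fin (Rsc k),
        E (box (Lsc k (i + 1)) (gen k)) (fun b1 => E (box (Lsc k (i + 1)) (gen k)) (fun y =>
          (1 / 5 : ℝ) • ∑ c : Fin 5, E (theta (gen k) c) (fun u => E (theta (gen k) c) (fun v =>
            E (theta (gen k) c) (fun w =>
              T ((b1, 0) + u + ((y, 0) + v)) ((b1, 0) + u + ((y, 0) + w))))))) := by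
    rw [Fintype.card_prod, Fintype.card_fin, Fintype.sum_prod_type, sum_comm]
    simp only [sum_E_E]
    rw [← mul_sum]
    push_cast
    ring
  rw [e1]
  -- the pointwise bound
  have key : ∀ b1 y : ℤ, |(1 / 5 : ℝ) • ∑ c : Fin 5, E (theta (gen k) c) (fun u =>
      E (theta (gen k) c) (fun v => E (theta (gen k) c) (fun w =>
              T ((b1, 0) + u + ((y, 0) + v)) ((b1, 0) + u + ((y, 0) + w)))))|
      ≤ 674 / 675 * K * (A * A') := by
    intro b1 y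
    set M : ℝ := K * (A * A') with hM
    have hTM : ∀ a' b', |T a' b'| ≤ M := fun a' b' =>
      ih _ _ A A' hA hA' (norm_nF Z hF a' b') (fun r => hF' _)
    set pt : Fin 5 → Fin 3 → ℤ × ZMod 3 := fun c t =>
      ((((t : ℕ) : ℤ) - 1) * dir (gen k) c, (((t : ℕ) : ZMod 3) - 1) * chg c) with hpt
    set V : Fin 5 → Fin 3 → Fin 3 → Fin 3 → ℝ := fun c i j l =>
      T ((b1, 0) + pt c i + ((y, 0) + pt c j)) ((b1, 0) + pt c i + ((y, 0) + pt c l)) with hV
    have hVM : ∀ c i j l, |V c i j l| ≤ M := fun c i j l => hTM _ _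
    have e2 : ∀ c : Fin 5, E (theta (gen k) c) (fun u => E (theta (gen k) c) (fun v =>
        E (theta (gen k) c) (fun w =>
              T ((b1, 0) + u + ((y, 0) + v)) ((b1, 0) + u + ((y, 0) + w)))))
        = 1 / 27 * ∑ i : Fin 3, ∑ j : Fin 3, ∑ l : Fin 3, V c i j l := by
      intro c
      simp only [E_theta, ← mul_sum]
      simp only [hV, hpt]
      ring
    simp only [e2, ← mul_sum, smul_eq_mul]
    -- good part
    have hgood : |∑ c : Fin 5, (V c 1 0 2 + V c 1 1 1 + V c 1 2 0)| ≤ 15 * (74 / 75 * M) := by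
      set m : ℤ := 2 * (b1 + y) with hm
      have hg : ∀ c : Fin 5, ∀ t : Fin 3, V c 1 t (2 - t)
          = QQ Z (PP k) (fun r => Z.z (-2 * ((((t : ℕ) : ZMod 3) - 1) * chg c)) *
            S.U (-2 * ((((t : ℕ) : ℤ) - 1) * dir (gen k) c)) (F (r + m)))
            (fun r => F' (r + m)) := by
        intro c t
        have hch : (((2 - t : Fin 3) : ℕ) : ZMod 3) - 1 = -((((t : ℕ) : ZMod 3)) - 1) := by
          fin_cases t <;> decide
        have hci : (((2 - t : Fin 3) : ℕ) : ℤ) - 1 = -((((t : ℕ) : ℤ)) - 1) := by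
          fin_cases t <;> decide
        have p1 : pt c 1 = 0 := by
          simp [hpt]
        have p2 : pt c (2 - t) = - pt c t := by
          simp only [hpt, hch, hci, neg_mul]
          rfl
        have q1 : ((b1, 0) + pt c 1 + ((y, 0) + pt c t) : ℤ × ZMod 3).1
            + ((b1, 0) + pt c 1 + ((y, 0) + pt c (2 - t)) : ℤ × ZMod 3).1 = m := by
          rw [p1, p2]
          simp only [Prod.fst_add, Prod.fst_zero, Prod.fst_neg, hm]
          ring
        have q2 : ((b1, 0) + pt c 1 + ((y, 0) + pt c (2 - t)) : ℤ × ZMod 3).1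
            - ((b1, 0) + pt c 1 + ((y, 0) + pt c t) : ℤ × ZMod 3).1
            = -2 * ((((t : ℕ) : ℤ) - 1) * dir (gen k) c) := by
          rw [p1, p2]
          simp only [Prod.fst_add, Prod.fst_zero, Prod.fst_neg, hpt]
          ring
        have q3 : ((b1, 0) + pt c 1 + ((y, 0) + pt c (2 - t)) : ℤ × ZMod 3).2
            - ((b1, 0) + pt c 1 + ((y, 0) + pt c t) : ℤ × ZMod 3).2
            = -2 * ((((t : ℕ) : ZMod 3) - 1) * chg c) := by
          rw [p1, p2]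
          simp only [Prod.snd_add, Prod.snd_zero, Prod.snd_neg, hpt]
          ring
        simp only [hV, hT]
        congr 1
        · funext r
          unfold nF
          rw [q1, q2, q3]
        · funext r
          rw [q1]
      have hs : ∑ c : Fin 5, (V c 1 0 2 + V c 1 1 1 + V c 1 2 0)
          = ∑ x : Fin 5 × Fin 3, V x.1 1 x.2 (2 - x.2) := by
        rw [Fintype.sum_prod_type]
        refine sum_congr rfl fun c _ => ?_
        rw [Fin.sum_univ_three]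
        rfl
      rw [hs]
      simp only [hg]
      have h2 := QQ_smul_sum Z (PP k) (univ : Finset (Fin 5 × Fin 3)) (1 / 15)
        (fun x r => Z.z (-2 * ((((x.2 : ℕ) : ZMod 3) - 1) * chg x.1)) *
            S.U (-2 * ((((x.2 : ℕ) : ℤ) - 1) * dir (gen k) x.1)) (F (r + m)))
        (fun r => F' (r + m))
      have h3 := ih _ _ (74 / 75 * A) A' (by positivity) hA'
        (fun r => good_norm Z hop k hF m r) (fun r => hF' (r + m))
      rw [h2, abs_mul, abs_of_pos (by norm_num : (0 : ℝ) < 1 / 15)] at h3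
      rw [hM]
      nlinarith [h3]
    have hrest : ∀ c : Fin 5, |∑ i : Fin 3, ∑ j : Fin 3, ∑ l : Fin 3, V c i j l
        - (V c 1 0 2 + V c 1 1 1 + V c 1 2 0)| ≤ 24 * M := by
      intro c
      have hu := fun i j l => (abs_le.1 (hVM c i j l)).2
      have hl := fun i j l => (abs_le.1 (hVM c i j l)).1
      simp only [Fin.sum_univ_three]
      rw [abs_le]
      constructor
      · linarith [hl 0 0 0, hl 0 0 1, hl 0 0 2, hl 0 1 0, hl 0 1 1, hl 0 1 2, hl 0 2 0, hl 0 2 1,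
          hl 0 2 2, hl 1 0 0, hl 1 0 1, hl 1 1 0, hl 1 1 2, hl 1 2 1, hl 1 2 2,
          hl 2 0 0, hl 2 0 1, hl 2 0 2, hl 2 1 0, hl 2 1 1, hl 2 1 2, hl 2 2 0, hl 2 2 1, hl 2 2 2]
      · linarith [hu 0 0 0, hu 0 0 1, hu 0 0 2, hu 0 1 0, hu 0 1 1, hu 0 1 2, hu 0 2 0, hu 0 2 1,
          hu 0 2 2, hu 1 0 0, hu 1 0 1, hu 1 1 0, hu 1 1 2, hu 1 2 1, hu 1 2 2,
          hu 2 0 0, hu 2 0 1, hu 2 0 2, hu 2 1 0, hu 2 1 1, hu 2 1 2, hu 2 2 0, hu 2 2 1, hu 2 2 2]
    have hrs : |∑ c : Fin 5, (∑ i : Fin 3, ∑ j : Fin 3, ∑ l : Fin 3, V c i j l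
        - (V c 1 0 2 + V c 1 1 1 + V c 1 2 0))| ≤ 120 * M := by
      refine (abs_sum_le_sum_abs _ _).trans ((sum_le_sum fun c _ => hrest c).trans ?_)
      rw [sum_const, card_univ, Fintype.card_fin, nsmul_eq_mul]
      push_cast
      linarith
    rw [sum_sub_distrib] at hrs
    have h4 := abs_le.1 hrs
    have h5 := abs_le.1 hgood
    rw [abs_le]
    have hMe : 674 / 675 * K * (A * A') = 674 / 675 * M := by rw [hM]; ring
    rw [hMe]
    constructor <;> linarith [h4.1, h4.2, h5.1, h5.2]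
  have hR : (0 : ℝ) < (Fintype.card (Fin (Rsc k)) : ℝ) := by
    exact_mod_cast Fintype.card_pos
  rw [abs_mul, abs_of_pos (inv_pos.2 hR), inv_mul_le_iff₀ hR]
  refine (abs_sum_le_sum_abs _ _).trans ((sum_le_sum fun i _ =>
    abs_E_le_of_le _ fun b1 => abs_E_le_of_le _ fun y => key b1 y).trans ?_)
  rw [sum_const, card_univ, nsmul_eq_mul]

theorem QQ_bound (hop : OpStmt.{u, v}) : ∀ (k : ℕ) (F F' : ℤ → B) (A A' : ℝ), 0 ≤ A → 0 ≤ A' →
    (∀ r, ‖S.ι (F r)‖ ≤ A) → (∀ r, ‖S.ι (F' r)‖ ≤ A') →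
    |QQ Z (PP k) F F'| ≤ (674 / 675) ^ k * (A * A')
  | 0, F, F', A, A', hA, hA', hF, hF' => by
    unfold QQ
    rw [PP, E_dirac, E_dirac, E_dirac, pow_zero, one_mul]
    unfold ph
    refine (abs_real_inner_le_norm _ _).trans ?_
    rw [norm_z_mul, S.norm_U]
    exact mul_le_mul (hF _) (hF' _) (norm_nonneg _) hA
  | k + 1, F, F', A, A', hA, hA', hF, hF' => by
    rw [pow_succ, mul_comm ((674 / 675 : ℝ) ^ k)]
    exact step_bound Z hop k (by positivity) (QQ_bound hop k) F F' A A' hA hA' hF hF'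

/-- The exact identity. -/
theorem ident (f0 f2 : B) (a b : ℤ × ZMod 3) :
    inner ℝ (S.ι (star (Z.z a.2 * S.U a.1 f2) * S.U (-a.1) f0))
      (S.ι (star (Z.z b.2 * S.U b.1 f2) * S.U (-b.1) f0))
    = ph Z (fun r => f0 * S.U r f2) (fun r => f0 * S.U r f2) a b := by
  have hR : ∀ x : ℤ, S.U (-x) (f0 * S.U (a.1 + b.1) f2) = S.U (-x) f0 * S.U (-x + (a.1 + b.1)) f2 := by
    intro x
    rw [map_mul, ← S.U_add]
  unfold ph
  have h0 : S.U (b.1 - a.1) (f0 * S.U (a.1 + b.1) f2)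
      = S.U b.1 (S.U (-a.1) (f0 * S.U (a.1 + b.1) f2)) := by
    rw [← S.U_add]; rfl
  have h1 : Z.z (b.2 - a.2) * S.U (b.1 - a.1) (f0 * S.U (a.1 + b.1) f2)
      = S.U b.1 (Z.z (b.2 - a.2) * S.U (-a.1) (f0 * S.U (a.1 + b.1) f2)) := by
    rw [map_mul (S.U b.1), Z.U_z, h0]
  rw [h1, S.U_adj, hR, hR]
  have e1 : -a.1 + (a.1 + b.1) = b.1 := by ring
  have e2 : -b.1 + (a.1 + b.1) = a.1 := by ring
  rw [e1, e2]
  have h2 : star (Z.z a.2 * S.U a.1 f2) * S.U (-a.1) f0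
      = star (S.U a.1 f2) * (Z.z (-a.2) * S.U (-a.1) f0) := by
    rw [star_mul, Z.z_star]; ring
  rw [h2, S.sa, star_star]
  have h3 : S.U a.1 f2 * (star (Z.z b.2 * S.U b.1 f2) * S.U (-b.1) f0)
      = star (Z.z b.2 * S.U b.1 f2) * (S.U (-b.1) f0 * S.U a.1 f2) := by ring
  rw [h3, ← S.sa]
  congr 2
  rw [sub_eq_add_neg, Z.z_add]
  ring

theorem bmain (hop : OpStmt.{u, v}) (f1 f2 : B) (hf1 : S.Ball f1) (hf2 : S.Ball f2) (k : ℕ) :
    ‖S.ι (E (stg k) (fun a => Z.z a.2 * (S.U a.1 f1 * S.U (2 * a.1) f2)))‖ ^ 4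
      ≤ (674 / 675 : ℝ) ^ k := by
  set f0 : B := E (stg k) (fun a => Z.z a.2 * (S.U a.1 f1 * S.U (2 * a.1) f2)) with hf0
  have hb0 : S.Ball f0 := Sys.Ball.E fun ω =>
    (ball_z Z _).mul ((hf1.U _).mul (hf2.U _))
  have h1 : ‖S.ι f0‖ ^ 2 = E (PP k) (fun p => E p (fun a =>
      inner ℝ (S.ι (Z.z a.2 * (S.U a.1 f1 * S.U (2 * a.1) f2))) (S.ι f0))) := by
    rw [E_PP, ← E_inner_left, ← map_E, ← hf0, real_inner_self_eq_norm_sq]
  have h2 : ∀ a : ℤ × ZMod 3, inner ℝ (S.ι (Z.z a.2 * (S.U a.1 f1 * S.U (2 * a.1) f2))) (S.ι f0)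
      = inner ℝ (S.ι f1) (S.ι (star (Z.z a.2 * S.U a.1 f2) * S.U (-a.1) f0)) := by
    intro a
    have : Z.z a.2 * (S.U a.1 f1 * S.U (2 * a.1) f2)
        = S.U a.1 ((Z.z a.2 * S.U a.1 f2) * f1) := by
      rw [map_mul, map_mul, Z.U_z, ← S.U_add, two_mul]
      ring
    rw [this, S.U_adj, S.sa]
  have h3 : (‖S.ι f0‖ ^ 2) ^ 2 ≤ QQ Z (PP k) (fun r => f0 * S.U r f2) (fun r => f0 * S.U r f2) := by
    rw [h1]
    refine (sq_E_le _ _).trans (E_mono _ fun p => ?_)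
    have h4 : E p (fun a => inner ℝ (S.ι (Z.z a.2 * (S.U a.1 f1 * S.U (2 * a.1) f2))) (S.ι f0))
        = inner ℝ (S.ι f1) (S.ι (E p (fun a => star (Z.z a.2 * S.U a.1 f2) * S.U (-a.1) f0))) := by
      simp only [h2]
      rw [← E_inner_right, ← map_E]
    rw [h4]
    have h5 := abs_real_inner_le_norm (S.ι f1)
      (S.ι (E p (fun a => star (Z.z a.2 * S.U a.1 f2) * S.U (-a.1) f0)))
    have h6 : |inner ℝ (S.ι f1) (S.ι (E p (fun a => star (Z.z a.2 * S.U a.1 f2) * S.U (-a.1) f0)))|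
        ≤ ‖S.ι (E p (fun a => star (Z.z a.2 * S.U a.1 f2) * S.U (-a.1) f0))‖ := by
      refine h5.trans ?_
      exact mul_le_of_le_one_left (norm_nonneg _) hf1.norm_le
    rw [← sq_abs]
    refine (pow_le_pow_left₀ (abs_nonneg _) h6 2).trans (le_of_eq ?_)
    rw [← real_inner_self_eq_norm_sq, map_E, E_inner_left]
    congr 1
    funext a
    rw [E_inner_right]
    congr 1
    funext b
    exact ident Z f0 f2 a b
  have h7 : ∀ r, ‖S.ι (f0 * S.U r f2)‖ ≤ 1 := fun r => (hb0.mul (hf2.U r)).norm_le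
  have h8 := QQ_bound Z hop k _ _ 1 1 zero_le_one zero_le_one h7 h7
  calc ‖S.ι f0‖ ^ 4 = (‖S.ι f0‖ ^ 2) ^ 2 := by ring
    _ ≤ _ := h3
    _ ≤ _ := le_abs_self _
    _ ≤ _ := h8
    _ = (674 / 675 : ℝ) ^ k := by ring

end TB

/-- MODULE B2. -/
theorem bmain.{u, v} (hop : OpStmt.{u, v}) : BStmt.{u, v} :=
  fun _ Z f1 f2 h1 h2 k => TB.bmain Z hop f1 f2 h1 h2 k

end Pool.Agent.H58.TC
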