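import Pool.Agent.H58.TC.CDefs

/-!
# The commuting system (module C2)
-/

namespace Pool.Agent.H58.TC

open Finset MeasureTheory Filter Topology
open scoped ENNReal

/-! ### Uniform measures and the digit space -/

/-- The uniform probability on `ZMod n`. -/
noncomputable def um (n : ℕ) : Measure (ZMod n) := (n : ℝ≥0∞)⁻¹ • Measure.count

instance um_prob (n : ℕ) [NeZero n] : IsProbabilityMeasure (um n) := by
  constructor
  have h0 : (n : ℝ≥0∞) ≠ 0 := by exact_mod_cast NeZero.ne n
  simp [um, Measure.count_univ, ENNReal.inv_mul_cancel h0 (ENNReal.natCast_ne_top n)]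

theorem um_apply (n : ℕ) [NeZero n] (s : Finset (ZMod n)) :
    um n (s : Set (ZMod n)) = (s.card : ℝ≥0∞) / n := by
  simp [um, ENNReal.div_eq_inv_mul]

theorem um_map_add (n : ℕ) [NeZero n] (a : ZMod n) : (um n).map (fun x => x + a) = um n := by
  ext s hs
  rw [Measure.map_apply (by fun_prop) hs]
  simp only [um, Measure.smul_apply]
  congr 1
  have hs' : (fun x : ZMod n => x + a) ⁻¹' s = (fun x => x - a) '' s := by
    ext x
    simp only [Set.mem_preimage, Set.mem_image]
    constructor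
    · intro h; exact ⟨x + a, h, by ring⟩
    · rintro ⟨y, hy, rfl⟩; simpa using hy
  rw [hs', Measure.count_injective_image (sub_left_injective) s]

/-- The digit space. -/
abbrev PP : Type := (m : ℕ) → ZMod (3 * Qg m)

/-- The product measure. -/
noncomputable def mu0 : Measure PP := Measure.infinitePi (fun m => um (3 * Qg m))

instance : IsProbabilityMeasure mu0 := by unfold mu0; infer_instance

/-- Shift of the digit space. -/
def sh (a : ℤ) (x : PP) : PP := fun m => x m + (a : ZMod (3 * Qg m))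

theorem measurable_sh (a : ℤ) : Measurable (sh a) := by
  unfold sh
  refine measurable_pi_lambda _ fun m => ?_
  have : (fun x : PP => x m + (a : ZMod (3 * Qg m))) = (fun z => z + (a : ZMod (3 * Qg m))) ∘
    (fun x : PP => x m) := rfl
  rw [this]
  exact (Measurable.of_discrete).comp (measurable_pi_apply m)

theorem sh_add (a b : ℤ) (x : PP) : sh (a + b) x = sh a (sh b x) := by
  funext m; simp only [sh]; push_cast; ring

theorem sh_zero (x : PP) : sh 0 x = x := by
  funext m; simp [sh]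

theorem mp_sh (a : ℤ) : MeasurePreserving (sh a) mu0 mu0 := by
  refine ⟨measurable_sh a, ?_⟩
  unfold mu0
  have := Measure.infinitePi_map_pi (μ := fun m => um (3 * Qg m))
    (f := fun m (z : ZMod (3 * Qg m)) => z + (a : ZMod (3 * Qg m)))
    (fun m => Measurable.of_discrete)
  simp only [um_map_add] at this
  exact this

theorem mu0_eval (m : ℕ) (s : Finset (ZMod (3 * Qg m))) :
    mu0 {x | x m ∈ s} = (s.card : ℝ≥0∞) / (3 * Qg m : ℕ) := by
  have h := (measurePreserving_eval_infinitePi (fun m => um (3 * Qg m)) m).measure_preimage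
    (s := (s : Set (ZMod (3 * Qg m)))) (MeasurableSet.of_discrete.nullMeasurableSet)
  rw [um_apply] at h
  exact h

/-! ### The base action and the cocycle -/

/-- The base space. -/
abbrev YY : Type := PP × PP

/-- The fibre. -/
abbrev KC2 : Type := ZMod 3 × ZMod 3

/-- The action on the base. -/
def act (g : ℤ × ℤ) (y : YY) : YY := (sh g.1 y.1, sh g.2 y.2)

theorem act_add (g h : ℤ × ℤ) (y : YY) : act (g + h) y = act g (act h y) := by
  simp [act, sh_add]

theorem act_zero (y : YY) : act 0 y = y := by simp [act, sh_zero]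

theorem measurable_act (g : ℤ × ℤ) : Measurable (act g) :=
  ((measurable_sh g.1).comp measurable_fst).prodMk ((measurable_sh g.2).comp measurable_snd)

/-- The digits of level `j`. -/
def dig (j : ℕ) (x : PP) : Fin 4 → ZMod 3 := fun i => Dg (4 * j + i) (x (4 * j + i))

theorem measurable_dig (j : ℕ) : Measurable (dig j) := by
  refine measurable_pi_lambda _ fun i => ?_
  exact (Measurable.of_discrete (f := Dg (4 * j + i))).comp (measurable_pi_apply _)

/-- The pair of polynomials. -/
def PPc (q : (Fin 4 → ZMod 3) × (Fin 4 → ZMod 3)) : KC2 := (P1 q.1 q.2, P2 q.1 q.2)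

/-- Partial sums of the formal transfer function. -/
def Phi (n : ℕ) (y : YY) : KC2 := ∑ j ∈ range n, PPc (dig j y.1, dig j y.2)

theorem measurable_Phi (n : ℕ) : Measurable (Phi n) := by
  have h : ∀ j, Measurable (fun y : YY => (dig j y.1, dig j y.2)) := fun j =>
    ((measurable_dig j).comp measurable_fst).prodMk ((measurable_dig j).comp measurable_snd)
  unfold Phi
  induction n with
  | zero => simp
  | succ n ih =>
    simp only [sum_range_succ]
    have h2 : Measurable (fun y : YY => PPc (dig n y.1, dig n y.2)) :=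
      (Measurable.of_discrete (f := PPc)).comp (h n)
    exact (Measurable.of_discrete (f := fun q : KC2 × KC2 => q.1 + q.2)).comp (ih.prodMk h2)

/-- Good points: the formal coboundary is eventually constant. -/
def Good (y : YY) : Prop := ∀ g : ℤ × ℤ, ∃ k : KC2, ∀ᶠ n in atTop, Phi n (act g y) - Phi n y = k

open Classical in
/-- The cocycle. -/
noncomputable def DD (g : ℤ × ℤ) (y : YY) : KC2 := if h : Good y then (h g).choose else 0

theorem DD_spec {y : YY} (h : Good y) (g : ℤ × ℤ) :
    ∀ᶠ n in atTop, Phi n (act g y) - Phi n y = DD g y := by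
  unfold DD
  rw [dif_pos h]
  exact (h g).choose_spec

theorem DD_eq {y : YY} (h : Good y) (g : ℤ × ℤ) {k : KC2}
    (hk : ∀ᶠ n in atTop, Phi n (act g y) - Phi n y = k) : DD g y = k := by
  obtain ⟨n, h1, h2⟩ := ((DD_spec h g).and hk).exists
  rw [← h1, ← h2]

theorem good_act {y : YY} (h : Good y) (g : ℤ × ℤ) : Good (act g y) := by
  intro g'
  refine ⟨DD (g' + g) y - DD g y, ?_⟩
  filter_upwards [DD_spec h (g' + g), DD_spec h g] with n h1 h2
  rw [← h1, ← h2, act_add]; abel

theorem good_act_iff {y : YY} (g : ℤ × ℤ) : Good (act g y) ↔ Good y := by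
  refine ⟨fun h => ?_, fun h => good_act h g⟩
  have := good_act h (-g)
  rwa [← act_add, neg_add_cancel, act_zero] at this

theorem DD_add (g h : ℤ × ℤ) (y : YY) : DD (g + h) y = DD g (act h y) + DD h y := by
  by_cases hy : Good y
  · refine DD_eq hy _ ?_
    filter_upwards [DD_spec hy h, DD_spec (good_act hy h) g] with n h1 h2
    rw [← h1, ← h2, act_add]; abel
  · have hy' : ¬ Good (act h y) := fun h' => hy ((good_act_iff h).1 h')
    simp [DD, hy, hy']

theorem DD_zero (y : YY) : DD 0 y = 0 := by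
  have := DD_add 0 0 y
  rw [act_zero, zero_add] at this
  exact left_eq_add.1 this

theorem measurableSet_ev (g : ℤ × ℤ) (k : KC2) :
    MeasurableSet {y : YY | ∀ᶠ n in atTop, Phi n (act g y) - Phi n y = k} := by
  have h0 : {y : YY | ∀ᶠ n in atTop, Phi n (act g y) - Phi n y = k}
      = ⋃ N : ℕ, ⋂ n : ℕ, ⋂ _ : N ≤ n, {y : YY | Phi n (act g y) - Phi n y = k} := by
    ext y; simp [eventually_atTop]
  rw [h0]
  refine MeasurableSet.iUnion fun N => MeasurableSet.iInter fun n => MeasurableSet.iInter fun _ => ?_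
  have h : Measurable (fun y : YY => Phi n (act g y) - Phi n y) :=
    (Measurable.of_discrete (f := fun q : KC2 × KC2 => q.1 - q.2)).comp
      (((measurable_Phi n).comp (measurable_act g)).prodMk (measurable_Phi n))
  exact h (measurableSet_singleton k)

theorem measurableSet_good : MeasurableSet {y : YY | Good y} := by
  have : {y : YY | Good y} = ⋂ g : ℤ × ℤ, ⋃ k : KC2,
      {y : YY | ∀ᶠ n in atTop, Phi n (act g y) - Phi n y = k} := by
    ext y; simp [Good]
  rw [this]
  exact MeasurableSet.iInter fun g => MeasurableSet.iUnion fun k => measurableSet_ev g k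

theorem measurable_DD (g : ℤ × ℤ) : Measurable (DD g) := by
  refine measurable_to_countable' fun k => ?_
  have : DD g ⁻¹' {k} = ({y : YY | Good y} ∩ {y : YY | ∀ᶠ n in atTop, Phi n (act g y) - Phi n y = k})
      ∪ ({y : YY | Good y}ᶜ ∩ {y : YY | (0 : KC2) = k}) := by
    ext y
    simp only [Set.mem_preimage, Set.mem_singleton_iff, Set.mem_union, Set.mem_inter_iff,
      Set.mem_ofPred_eq, Set.mem_compl_iff]
    by_cases hy : Good y
    · constructor
      · intro h
        left
        refine ⟨hy, ?_⟩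
        rw [← h]; exact DD_spec hy g
      · rintro (⟨_, h⟩ | ⟨h, _⟩)
        · exact DD_eq hy g h
        · exact absurd hy h
    · have h0 : DD g y = 0 := by simp [DD, hy]
      rw [h0]
      constructor
      · intro h; exact Or.inr ⟨hy, h⟩
      · rintro (⟨h, _⟩ | ⟨_, h⟩)
        · exact absurd h hy
        · exact h
  rw [this]
  exact (measurableSet_good.inter (measurableSet_ev g k)).union
    (measurableSet_good.compl.inter (MeasurableSet.const _))

/-! ### The skew product -/

/-- The space. -/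
abbrev XX : Type := YY × KC2

/-- The skew product map. -/
noncomputable def skf (g : ℤ × ℤ) (p : XX) : XX := (act g p.1, p.2 + DD g p.1)

theorem skf_add (g h : ℤ × ℤ) (p : XX) : skf (g + h) p = skf g (skf h p) := by
  simp only [skf, act_add, DD_add]
  refine Prod.ext rfl ?_
  simp only; abel

theorem skf_zero (p : XX) : skf 0 p = p := by
  simp [skf, act_zero, DD_zero]

theorem measurable_skf (g : ℤ × ℤ) : Measurable (skf g) := by
  refine ((measurable_act g).comp measurable_fst).prodMk ?_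
  exact (Measurable.of_discrete (f := fun q : KC2 × KC2 => q.1 + q.2)).comp
      (measurable_snd.prodMk ((measurable_DD g).comp measurable_fst))

/-- The action as a homomorphism to permutations. -/
noncomputable def skh : Multiplicative (ℤ × ℤ) →* Equiv.Perm XX where
  toFun g :=
    { toFun := skf (Multiplicative.toAdd g)
      invFun := skf (-(Multiplicative.toAdd g))
      left_inv := fun p => by rw [← skf_add, neg_add_cancel, skf_zero]
      right_inv := fun p => by rw [← skf_add, add_neg_cancel, skf_zero] }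
  map_one' := by ext1 p; exact skf_zero p
  map_mul' g h := by ext1 p; exact skf_add _ _ p

/-- The action by measurable equivalences. -/
noncomputable def ske (g : ℤ × ℤ) : XX ≃ᵐ XX where
  toEquiv := skh (Multiplicative.ofAdd g)
  measurable_toFun := measurable_skf g
  measurable_invFun := measurable_skf (-g)

theorem ske_apply (g : ℤ × ℤ) (p : XX) : ske g p = skf g p := rfl

theorem ske_zpow (g : ℤ × ℤ) (a : ℤ) (p : XX) :
    ((ske g).toEquiv ^ a : Equiv.Perm XX) p = skf (a • g) p := by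
  have : ((ske g).toEquiv ^ a : Equiv.Perm XX) = skh (Multiplicative.ofAdd (a • g)) := by
    rw [ofAdd_zsmul, map_zpow]; rfl
  rw [this]; rfl

/-- The measure. -/
noncomputable def muX : Measure XX := (mu0.prod mu0).prod ((um 3).prod (um 3))

instance : IsProbabilityMeasure muX := by
  unfold muX; infer_instance

theorem mp_act (g : ℤ × ℤ) : MeasurePreserving (act g) (mu0.prod mu0) (mu0.prod mu0) :=
  (mp_sh g.1).prod (mp_sh g.2)

theorem um_add_kk (k : KC2) : ((um 3).prod (um 3)).map (fun z : KC2 => z + k)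
    = (um 3).prod (um 3) := by
  have h : ∀ a : ZMod 3, MeasurePreserving (fun x : ZMod 3 => x + a) (um 3) (um 3) :=
    fun a => ⟨Measurable.of_discrete, um_map_add 3 a⟩
  exact ((h k.1).prod (h k.2)).map_eq

theorem mp_skf (g : ℤ × ℤ) : MeasurePreserving (skf g) muX muX := by
  unfold muX
  refine MeasurePreserving.skew_product (mp_act g) (g := fun y z => z + DD g y) ?_ ?_
  · exact (Measurable.of_discrete (f := fun q : KC2 × KC2 => q.1 + q.2)).comp
      (measurable_snd.prodMk ((measurable_DD g).comp measurable_fst))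
  · exact Eventually.of_forall fun y => um_add_kk _

/-! ### Almost every point is good -/

theorem two_pow_le_Qg : ∀ m : ℕ, 2 ^ m ≤ Qg m
  | 0 => le_refl _
  | m + 1 => by
    have h := two_pow_le_Qg m
    have h1 : 1 ≤ 2 ^ (m + 10) * (Bd (m / 4) + 1) := Nat.succ_le_of_lt (by positivity)
    calc 2 ^ (m + 1) = 2 * 2 ^ m := by ring
      _ ≤ 3 * Qg m := by omega
      _ = 3 * Qg m * 1 := by ring
      _ ≤ 3 * Qg m * (2 ^ (m + 10) * (Bd (m / 4) + 1)) := Nat.mul_le_mul_left _ h1
      _ = Qg (m + 1) := rfl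

theorem mu0_digit (hc : CountStmt) (a : ℤ) (m : ℕ) :
    mu0 {x | Dg m (sh a x m) ≠ Dg m (x m)} ≤ ENNReal.ofReal (|(a : ℝ)| * (1 / 2) ^ m) := by
  have h := mu0_eval m (univ.filter (fun x : ZMod (3 * Qg m) =>
      Dg m (x + ((a + Qg m * 0 : ℤ) : ZMod (3 * Qg m))) ≠ Dg m x + ((0 : ℤ) : ZMod 3)))
  have h2 := hc m a 0
  set C := univ.filter (fun x : ZMod (3 * Qg m) =>
      Dg m (x + ((a + Qg m * 0 : ℤ) : ZMod (3 * Qg m))) ≠ Dg m x + ((0 : ℤ) : ZMod 3)) with hC
  have h3 : {x : PP | Dg m (sh a x m) ≠ Dg m (x m)} = {x : PP | x m ∈ C} := by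
    ext x; simp [hC, sh]
  rw [h3, h]
  have hQ : (0 : ℝ) < Qg m := by exact_mod_cast Qg_pos m
  have h4 : ((C.card : ℝ≥0∞) / (3 * Qg m : ℕ)) = ENNReal.ofReal ((C.card : ℝ) / (3 * Qg m)) := by
    rw [ENNReal.ofReal_div_of_pos (by positivity), ENNReal.ofReal_natCast]
    congr 1
    rw [show (3 * (Qg m : ℝ)) = ((3 * Qg m : ℕ) : ℝ) by push_cast; ring, ENNReal.ofReal_natCast]
  rw [h4]
  refine ENNReal.ofReal_le_ofReal ?_
  rw [div_le_iff₀ (by positivity)]
  have h5 : (C.card : ℝ) ≤ 3 * |(a : ℝ)| := by exact_mod_cast h2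
  have h6 : (2 : ℝ) ^ m ≤ Qg m := by exact_mod_cast two_pow_le_Qg m
  have h7 : 1 ≤ (1 / 2 : ℝ) ^ m * Qg m := by
    calc (1 : ℝ) = (1 / 2 : ℝ) ^ m * 2 ^ m := by rw [← mul_pow]; norm_num
      _ ≤ _ := by gcongr
  nlinarith [abs_nonneg (a : ℝ)]

theorem ae_digit (hc : CountStmt) (a : ℤ) :
    ∀ᵐ x ∂mu0, ∀ᶠ m in atTop, Dg m (sh a x m) = Dg m (x m) := by
  have h := ae_eventually_notMem (μ := mu0) (s := fun m => {x | Dg m (sh a x m) ≠ Dg m (x m)}) ?_
  · filter_upwards [h] with x hx
    filter_upwards [hx] with m hm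
    simpa using hm
  · refine ne_top_of_le_ne_top ?_ (ENNReal.tsum_le_tsum (mu0_digit hc a))
    have hs : Summable (fun m : ℕ => |(a : ℝ)| * (1 / 2) ^ m) :=
      (summable_geometric_of_lt_one (by norm_num) (by norm_num)).mul_left _
    rw [← ENNReal.ofReal_tsum_of_nonneg (fun m => by positivity) hs]
    exact ENNReal.ofReal_ne_top

theorem ev_dig {a : ℤ} {x : PP} (h : ∀ᶠ m in atTop, Dg m (sh a x m) = Dg m (x m)) :
    ∀ᶠ j in atTop, dig j (sh a x) = dig j x := by
  obtain ⟨N, hN⟩ := eventually_atTop.1 h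
  refine eventually_atTop.2 ⟨N, fun j hj => ?_⟩
  funext i
  exact hN _ (by omega)

theorem good_of_ev {y : YY} (h : ∀ g : ℤ × ℤ, ∀ᶠ j in atTop,
    dig j (sh g.1 y.1) = dig j y.1 ∧ dig j (sh g.2 y.2) = dig j y.2) : Good y := by
  intro g
  obtain ⟨N, hN⟩ := eventually_atTop.1 (h g)
  refine ⟨Phi N (act g y) - Phi N y, eventually_atTop.2 ⟨N, fun n hn => ?_⟩⟩
  induction n, hn using Nat.le_induction with
  | base => rfl
  | succ n hn ih =>
    rw [← ih]
    simp only [Phi, sum_range_succ, act]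
    rw [(hN n hn).1, (hN n hn).2]; abel

theorem ae_good (hc : CountStmt) : ∀ᵐ y ∂(mu0.prod mu0), Good y := by
  have h : ∀ᵐ y ∂(mu0.prod mu0), ∀ g : ℤ × ℤ, ∀ᶠ j in atTop,
    dig j (sh g.1 y.1) = dig j y.1 ∧ dig j (sh g.2 y.2) = dig j y.2 := by
    rw [ae_all_iff]
    intro g
    have h1 := (Measure.quasiMeasurePreserving_fst (μ := mu0) (ν := mu0)).ae (ae_digit hc g.1)
    have h2 := (Measure.quasiMeasurePreserving_snd (μ := mu0) (ν := mu0)).ae (ae_digit hc g.2)
    filter_upwards [h1, h2] with y hy1 hy2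
    exact (ev_dig hy1).and (ev_dig hy2)
  filter_upwards [h] with y hy
  exact good_of_ev hy

/-! ### The key identity -/

theorem key (halg : AlgStmt) {k : ℕ} {a : ℤ} {s : ZMod 3} {c : ℕ → Fin 5} {t : ℕ → ZMod 3}
    (ht : ∀ j, k ≤ j → t j = 0) (hs : s = ∑ j ∈ range k, t j * chg (c j))
    {y : YY} (hy : Good y)
    (h1 : ∀ j, dig j (sh a y.1) = dig j y.1 + t j • vec (c j))
    (h2 : ∀ j, dig j (sh a y.2) = dig j y.2 + t j • vec (c j)) :
    (DD (a, 0) y).1 + (DD (0, a) y).2 = s := by
  obtain ⟨n, ⟨hn1, hn2⟩, hn⟩ :=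
    (((DD_spec hy (a, 0)).and (DD_spec hy (0, a))).and (eventually_ge_atTop k)).exists
  rw [← hn1, ← hn2]
  have e1 : ∀ y' : YY, (Phi n y').1 = ∑ j ∈ range n, P1 (dig j y'.1) (dig j y'.2) := fun y' => by
    simp [Phi, PPc, Prod.fst_sum]
  have e2 : ∀ y' : YY, (Phi n y').2 = ∑ j ∈ range n, P2 (dig j y'.1) (dig j y'.2) := fun y' => by
    simp [Phi, PPc, Prod.snd_sum]
  rw [Prod.fst_sub, Prod.snd_sub, e1, e1, e2, e2]
  simp only [act, sh_zero, h1, h2]
  rw [← sum_sub_distrib, ← sum_sub_distrib, ← sum_add_distrib]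
  rw [hs, sum_congr rfl fun j _ => halg (dig j y.1) (dig j y.2) (c j) (t j)]
  exact (sum_subset (range_mono hn) fun j _ hj => by
    rw [ht j (by simpa using hj), zero_mul]).symm

/-! ### The carry set -/

/-- The carry set. -/
def carrySet (a : ℤ) (c : ℕ → Fin 5) (t : ℕ → ZMod 3) : Set PP :=
  ⋃ m : ℕ, {x | Dg m (sh a x m) ≠ Dg m (x m) + t (m / 4) * vec (c (m / 4)) (Fin.ofNat 4 m)}

theorem dig_of_notMem {a : ℤ} {c : ℕ → Fin 5} {t : ℕ → ZMod 3} {x : PP}
    (h : x ∉ carrySet a c t) (j : ℕ) : dig j (sh a x) = dig j x + t j • vec (c j) := by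
  funext i
  have h1 : ¬ (Dg (4 * j + i) (sh a x (4 * j + i)) ≠ Dg (4 * j + i) (x (4 * j + i)) +
      t ((4 * j + i) / 4) * vec (c ((4 * j + i) / 4)) (Fin.ofNat 4 (4 * j + i))) :=
    fun h' => h (Set.mem_iUnion.2 ⟨4 * j + i, h'⟩)
  have h2 : (4 * j + (i : ℕ)) / 4 = j := by omega
  have h3 : Fin.ofNat 4 (4 * j + i) = i := by
    apply Fin.ext; simp [Fin.ofNat]
  rw [not_not, h2, h3] at h1
  simpa [dig] using h1

theorem mu0_carry {a : ℤ} {c : ℕ → Fin 5} {t : ℕ → ZMod 3}
    (h : ∀ (m j : ℕ) (i : Fin 4), m = 4 * j + i →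
      ((univ.filter (fun x : ZMod (3 * Qg m) =>
        Dg m (x + ((a : ℤ) : ZMod (3 * Qg m))) ≠ Dg m x + t j * vec (c j) i)).card : ℝ)
        / (3 * Qg m) ≤ 1 / 2 ^ (m + 10)) :
    mu0 (carrySet a c t) ≤ ENNReal.ofReal (1 / 2 ^ 9) := by
  unfold carrySet
  refine (measure_iUnion_le _).trans ?_
  have h1 : ∀ m : ℕ, mu0 {x | Dg m (sh a x m) ≠ Dg m (x m) +
      t (m / 4) * vec (c (m / 4)) (Fin.ofNat 4 m)} ≤ ENNReal.ofReal ((1 / 2 ^ 10) * (1 / 2) ^ m) := by
    intro m
    have h0 := h m (m / 4) (Fin.ofNat 4 m) (by simp [Fin.ofNat]; omega)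
    have h2 := mu0_eval m (univ.filter (fun x : ZMod (3 * Qg m) =>
        Dg m (x + ((a : ℤ) : ZMod (3 * Qg m))) ≠ Dg m x +
          t (m / 4) * vec (c (m / 4)) (Fin.ofNat 4 m)))
    set C := univ.filter (fun x : ZMod (3 * Qg m) =>
        Dg m (x + ((a : ℤ) : ZMod (3 * Qg m))) ≠ Dg m x +
          t (m / 4) * vec (c (m / 4)) (Fin.ofNat 4 m)) with hC
    have h3 : {x : PP | Dg m (sh a x m) ≠ Dg m (x m) +
        t (m / 4) * vec (c (m / 4)) (Fin.ofNat 4 m)} = {x : PP | x m ∈ C} := by
      ext x; simp [hC, sh]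
    rw [h3, h2]
    have hQ : (0 : ℝ) < Qg m := by exact_mod_cast Qg_pos m
    have h4 : ((C.card : ℝ≥0∞) / (3 * Qg m : ℕ)) = ENNReal.ofReal ((C.card : ℝ) / (3 * Qg m)) := by
      rw [ENNReal.ofReal_div_of_pos (by positivity), ENNReal.ofReal_natCast]
      congr 1
      rw [show (3 * (Qg m : ℝ)) = ((3 * Qg m : ℕ) : ℝ) by push_cast; ring, ENNReal.ofReal_natCast]
    rw [h4]
    refine ENNReal.ofReal_le_ofReal (h0.trans (le_of_eq ?_))
    rw [pow_add, one_div_pow, one_div_mul_one_div, mul_comm]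
  refine (ENNReal.tsum_le_tsum h1).trans ?_
  have hs : Summable (fun m : ℕ => ((1 : ℝ) / 2 ^ 10) * (1 / 2) ^ m) :=
    (summable_geometric_of_lt_one (by norm_num) (by norm_num)).mul_left _
  rw [← ENNReal.ofReal_tsum_of_nonneg (fun m => by positivity) hs]
  refine ENNReal.ofReal_le_ofReal (le_of_eq ?_)
  rw [tsum_mul_left, tsum_geometric_of_lt_one (by norm_num) (by norm_num)]
  norm_num

/-! ### The final estimate -/

theorem om_addC2 (s t : ZMod 3) : om (s + t) = om s * om t := AddChar.map_add_eq_mul _ _ _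

theorem norm_om (s : ZMod 3) : ‖om s‖ = 1 := by
  unfold om
  rw [ZMod.stdAddChar_apply]
  exact Circle.norm_coe _

theorem c2 : C2Stmt := by
  intro halg hcount hcarry
  refine ⟨XX, inferInstance, muX, ske (1, 0), ske (0, 1), fun p => om (-p.2.1),
    fun p => om (-p.2.2), inferInstance, mp_skf _, mp_skf _, ?_, ?_, ?_, fun x => norm_om _,
    fun x => norm_om _, ?_⟩
  · intro x
    rw [ske_apply, ske_apply, ske_apply, ske_apply, ← skf_add, ← skf_add, add_comm]
  · exact (Measurable.of_discrete (f := fun z : KC2 => om (-z.1))).comp measurable_snd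
  · exact (Measurable.of_discrete (f := fun z : KC2 => om (-z.2))).comp measurable_snd
  · intro k ω
    obtain ⟨c, t, ht, hs, hcar⟩ := hcarry k ω
    set a := ((stg k).v ω).1 with ha
    set s := ((stg k).v ω).2 with hs'
    have hA := mu0_carry hcar
    set A := carrySet a c t with hAdef
    set Bad : Set XX := {p | p.1.1 ∈ A} ∪ {p | p.1.2 ∈ A} with hBad
    have hAm : MeasurableSet A := by
      rw [hAdef]
      refine MeasurableSet.iUnion fun m => ?_
      exact (MeasurableSet.of_discrete (s := {z : ZMod (3 * Qg m) |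
        Dg m (z + (a : ZMod (3 * Qg m))) ≠ Dg m z + t (m / 4) * vec (c (m / 4)) (Fin.ofNat 4 m)})).preimage
        (measurable_pi_apply m)
    have hp1 : MeasurePreserving (fun p : XX => p.1.1) muX mu0 :=
      (measurePreserving_fst (μ := mu0) (ν := mu0)).comp
        (measurePreserving_fst (μ := mu0.prod mu0) (ν := (um 3).prod (um 3)))
    have hp2 : MeasurePreserving (fun p : XX => p.1.2) muX mu0 :=
      (measurePreserving_snd (μ := mu0) (ν := mu0)).comp
        (measurePreserving_fst (μ := mu0.prod mu0) (ν := (um 3).prod (um 3)))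
    have hm1 : muX {p : XX | p.1.1 ∈ A} ≤ ENNReal.ofReal (1 / 2 ^ 9) := by
      have := hp1.measure_preimage hAm.nullMeasurableSet
      exact (le_of_eq this).trans hA
    have hm2 : muX {p : XX | p.1.2 ∈ A} ≤ ENNReal.ofReal (1 / 2 ^ 9) := by
      have := hp2.measure_preimage hAm.nullMeasurableSet
      exact (le_of_eq this).trans hA
    have hm : muX Bad ≤ ENNReal.ofReal (1 / 2 ^ 8) := by
      refine (measure_union_le _ _).trans ((add_le_add hm1 hm2).trans (le_of_eq ?_))
      rw [← ENNReal.ofReal_add (by positivity) (by positivity)]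
      norm_num
    have hgood : ∀ᵐ p ∂muX, Good p.1 :=
      (Measure.quasiMeasurePreserving_fst (μ := mu0.prod mu0) (ν := (um 3).prod (um 3))).ae
        (ae_good hcount)
    have hle : eLpNorm (fun x : XX => om (-(((ske (1, 0)).toEquiv ^ a : Equiv.Perm XX) x).2.1) *
          om (-(((ske (0, 1)).toEquiv ^ a : Equiv.Perm XX) x).2.2)
        - om (-s) * (om (-x.2.1) * om (-x.2.2))) 2 muX
        ≤ eLpNorm (Bad.indicator (fun _ => (2 : ℝ))) 2 muX := by
      refine eLpNorm_mono_ae ?_
      filter_upwards [hgood] with p hp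
      by_cases hpB : p ∈ Bad
      · rw [Set.indicator_of_mem hpB]
        refine (norm_sub_le _ _).trans ?_
        simp only [norm_mul, norm_om]
        norm_num
      · rw [Set.indicator_of_notMem hpB, norm_zero]
        have h1 : p.1.1 ∉ A := fun h => hpB (Or.inl h)
        have h2 : p.1.2 ∉ A := fun h => hpB (Or.inr h)
        have hk := key halg ht hs hp (dig_of_notMem h1) (dig_of_notMem h2)
        have e1 : (((ske (1, 0)).toEquiv ^ a : Equiv.Perm XX) p).2.1 = p.2.1 + (DD (a, 0) p.1).1 := by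
          rw [ske_zpow]; simp [skf]
        have e2 : (((ske (0, 1)).toEquiv ^ a : Equiv.Perm XX) p).2.2 = p.2.2 + (DD (0, a) p.1).2 := by
          rw [ske_zpow]; simp [skf]
        rw [e1, e2, ← om_addC2, ← om_addC2, ← om_addC2, ← hk]
        have : -(p.2.1 + (DD (a, 0) p.1).1) + -(p.2.2 + (DD (0, a) p.1).2)
            = -((DD (a, 0) p.1).1 + (DD (0, a) p.1).2) + (-p.2.1 + -p.2.2) := by ring
        rw [this, sub_self, norm_zero]
    refine hle.trans ((eLpNorm_indicator_const_le _ _).trans ?_)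
    have h2 : ‖(2 : ℝ)‖ₑ = ENNReal.ofReal 2 := by
      rw [Real.enorm_eq_ofReal (by norm_num)]
    have h3 : muX Bad ^ (1 / (2 : ℝ≥0∞).toReal) ≤ ENNReal.ofReal (1 / 2 ^ 4) := by
      refine (ENNReal.rpow_le_rpow hm (by simp)).trans (le_of_eq ?_)
      rw [ENNReal.ofReal_rpow_of_nonneg (by positivity) (by simp)]
      congr 1
      rw [ENNReal.toReal_ofNat, ← Real.sqrt_eq_rpow,
        show (1 / 2 ^ 8 : ℝ) = (1 / 2 ^ 4) ^ 2 by norm_num, Real.sqrt_sq (by norm_num)]
    rw [h2]
    refine (mul_le_mul_right h3 _).trans (le_of_eq ?_)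
    rw [← ENNReal.ofReal_mul (by norm_num)]
    norm_num

end Pool.Agent.H58.TC
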