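import Pool.Agent.H58.TC.CDefs

/-!
# Modules C0 and C1: the corner identity, carries
-/

namespace Pool.Agent.H58.TC

open Finset

/-- MODULE C0. -/
theorem alg : AlgStmt := by
  intro x y c t
  have h3 : (3 : ZMod 3) = 0 := by decide
  have ht : t ^ 3 - t = 0 := by revert t; decide
  fin_cases c
  · simp only [P1, P2, gr, e3, vec, chg, Pi.add_apply, Pi.smul_apply, smul_eq_mul, Fin.zero_eta,
      Fin.cases_zero, if_true, mul_one]
    linear_combination (t * ((x 1 * x 2 + x 1 * x 3 + x 2 * x 3) + (x 0 * x 2 + x 0 * x 3 + x 2 * x 3)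
      + (x 0 * x 1 + x 0 * x 3 + x 1 * x 3) + (x 0 * x 1 + x 0 * x 2 + x 1 * x 2))
      + 2 * t ^ 2 * (x 0 + x 1 + x 2 + x 3) - t ^ 2 * (y 0 + y 1 + y 2 + y 3) + t ^ 3) * h3 + ht
  · have hv : vec 1 = Pi.single 0 1 := rfl
    have hc : chg 1 = 0 := rfl
    simp only [P1, P2, gr, e3, Pi.add_apply, Pi.smul_apply, smul_eq_mul, Fin.mk_one, hv, hc]
    simp
    linear_combination (t * (x 1 * x 2 + x 1 * x 3 + x 2 * x 3)) * h3
  · have hv : vec 2 = Pi.single 1 1 := rfl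
    have hc : chg 2 = 0 := rfl
    simp only [P1, P2, gr, e3, Pi.add_apply, Pi.smul_apply, smul_eq_mul, Fin.reduceFinMk, hv, hc]
    simp
    linear_combination (t * (x 0 * x 2 + x 0 * x 3 + x 2 * x 3)) * h3
  · have hv : vec 3 = Pi.single 2 1 := rfl
    have hc : chg 3 = 0 := rfl
    simp only [P1, P2, gr, e3, Pi.add_apply, Pi.smul_apply, smul_eq_mul, Fin.reduceFinMk, hv, hc]
    simp
    linear_combination (t * (x 0 * x 1 + x 0 * x 3 + x 1 * x 3)) * h3
  · have hv : vec 4 = Pi.single 3 1 := rfl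
    have hc : chg 4 = 0 := rfl
    simp only [P1, P2, gr, e3, Pi.add_apply, Pi.smul_apply, smul_eq_mul, Fin.reduceFinMk, hv, hc]
    simp
    linear_combination (t * (x 0 * x 1 + x 0 * x 2 + x 1 * x 2)) * h3

theorem Dg_add (m : ℕ) (x : ZMod (3 * Qg m)) (z : ℤ) :
    Dg m (x + (z : ZMod (3 * Qg m))) = ((((x.val : ℤ) + z) / (Qg m : ℤ) : ℤ) : ZMod 3) := by
  have hQ : (0 : ℤ) < Qg m := by exact_mod_cast Qg_pos m
  have hx : x + (z : ZMod (3 * Qg m)) = (((x.val : ℤ) + z : ℤ) : ZMod (3 * Qg m)) := by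
    push_cast
    rw [ZMod.natCast_zmod_val]
  unfold Dg
  rw [hx]
  have h1 : ((((((x.val : ℤ) + z : ℤ) : ZMod (3 * Qg m)).val / Qg m : ℕ) : ℤ)
      = (((x.val : ℤ) + z) % ((3 * Qg m : ℕ) : ℤ)) / (Qg m : ℤ)) := by
    rw [Int.natCast_ediv, ZMod.val_intCast]
  have h2 : (((((((x.val : ℤ) + z : ℤ) : ZMod (3 * Qg m)).val / Qg m : ℕ)) : ZMod 3))
      = ((((((((x.val : ℤ) + z : ℤ) : ZMod (3 * Qg m)).val / Qg m : ℕ)) : ℤ)) : ZMod 3) := by
    push_cast; rfl
  rw [h2, h1]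
  set w : ℤ := (x.val : ℤ) + z with hw
  have h4 : (w % ((3 * Qg m : ℕ) : ℤ)) / (Qg m : ℤ) = w / (Qg m : ℤ) + (-3 * (w / ((3 * Qg m : ℕ) : ℤ))) := by
    rw [Int.emod_def]
    have : w - ((3 * Qg m : ℕ) : ℤ) * (w / ((3 * Qg m : ℕ) : ℤ))
        = w + (-3 * (w / ((3 * Qg m : ℕ) : ℤ))) * (Qg m : ℤ) := by
      push_cast; ring
    rw [this, Int.add_mul_ediv_right _ _ hQ.ne']
  rw [h4]
  have h3 : (3 : ZMod 3) = 0 := by decide
  push_cast
  rw [h3]
  ring

/-- MODULE C1, first part. -/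
theorem count : CountStmt := by
  intro m l g
  have hQ : (0 : ℤ) < Qg m := by exact_mod_cast Qg_pos m
  have hQn : 0 < Qg m := Qg_pos m
  have hcard : (univ.filter (fun x : ZMod (3 * Qg m) =>
      Dg m (x + ((l + Qg m * g : ℤ) : ZMod (3 * Qg m))) ≠ Dg m x + (g : ZMod 3))).card
      ≤ (range 3 ×ˢ range l.natAbs).card := by
    refine card_le_card_of_injOn
      (fun x => (x.val / Qg m, if 0 ≤ l then Qg m - 1 - x.val % Qg m else x.val % Qg m)) ?_ ?_
    · intro x hx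
      have hx' := (mem_filter.1 (mem_coe.1 hx)).2
      rw [Dg_add] at hx'
      have hv : x.val < 3 * Qg m := ZMod.val_lt x
      have hd : x.val / Qg m < 3 := Nat.div_lt_of_lt_mul (by rw [mul_comm (Qg m) 3]; exact hv)
      have hr : x.val % Qg m < Qg m := Nat.mod_lt _ hQn
      have hdm := Nat.div_add_mod x.val (Qg m)
      set d := x.val / Qg m with hdd
      set r := x.val % Qg m with hrr
      have h1 : ((x.val : ℤ) + (l + Qg m * g)) / (Qg m : ℤ) = (r + l) / (Qg m : ℤ) + (d + g) := by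
        have : (x.val : ℤ) + (l + Qg m * g) = (r + l) + (d + g) * (Qg m : ℤ) := by
          rw [← hdm]; push_cast; ring
        rw [this, Int.add_mul_ediv_right _ _ hQ.ne']
      have h2 : Dg m x = (d : ZMod 3) := rfl
      rw [h1, h2] at hx'
      have h3 : (r + l) / (Qg m : ℤ) ≠ 0 := by
        intro h0
        apply hx'
        rw [h0]
        push_cast
        ring
      have h4 : (r : ℤ) + l < 0 ∨ (Qg m : ℤ) ≤ r + l := by
        by_contra hcon
        push Not at hcon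
        exact h3 (Int.ediv_eq_zero_of_lt hcon.1 hcon.2)
      rw [mem_coe, mem_product, mem_range, mem_range]
      refine ⟨hd, ?_⟩
      show (if 0 ≤ l then Qg m - 1 - r else r) < l.natAbs
      split_ifs with hl <;> omega
    · intro x hx y hy hxy
      simp only [Prod.mk.injEq] at hxy
      obtain ⟨h1, h2⟩ := hxy
      apply ZMod.val_injective
      have hrx : x.val % Qg m < Qg m := Nat.mod_lt _ hQn
      have hry : y.val % Qg m < Qg m := Nat.mod_lt _ hQn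
      have hmod : x.val % Qg m = y.val % Qg m := by
        split_ifs at h2 <;> omega
      rw [← Nat.div_add_mod x.val (Qg m), ← Nat.div_add_mod y.val (Qg m), h1, hmod]
  rw [card_product, card_range, card_range] at hcard
  calc ((univ.filter (fun x : ZMod (3 * Qg m) =>
      Dg m (x + ((l + Qg m * g : ℤ) : ZMod (3 * Qg m))) ≠ Dg m x + (g : ZMod 3))).card : ℤ)
      ≤ ((3 * l.natAbs : ℕ) : ℤ) := by exact_mod_cast hcard
    _ = 3 * |l| := by push_cast; rfl

/-! ### Carries -/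

/-- Integer version of `vec`. -/
def vi : Fin 5 → Fin 4 → ℤ := Fin.cases (fun _ => 1) (fun i => Pi.single i 1)

theorem vi_cast (c : Fin 5) (i : Fin 4) : ((vi c i : ℤ) : ZMod 3) = vec c i := by
  revert c i; decide

theorem vi_abs (c : Fin 5) (i : Fin 4) : |vi c i| ≤ 1 := by
  revert c i; decide

theorem dir_eq (q : Fin 4 → ℤ) (c : Fin 5) : dir q c = ∑ i, q i * vi c i := by
  refine Fin.cases ?_ (fun i => ?_) c
  · simp [dir, vi]
  · have h1 : dir q i.succ = q i := rfl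
    have h2 : vi i.succ = Pi.single i 1 := rfl
    rw [h1, h2]
    rw [Finset.sum_eq_single i]
    · simp
    · intro b _ hb
      rw [Pi.single_eq_of_ne hb, mul_zero]
    · intro h; exact absurd (mem_univ _) h

theorem half_form (L : ℕ) (q : Fin 4 → ℤ) (c : Fin 5) (ω : (half L q c).Ω) :
    ∃ (Y : Fin 4 → ℤ) (τ : ℤ), (∀ i, |Y i| ≤ L) ∧ |τ| ≤ 1 ∧
      ((half L q c).v ω).1 = ∑ i, q i * (3 * Y i + τ * vi c i) ∧
      ((half L q c).v ω).2 = (τ : ZMod 3) * chg c := by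
  change (Fin (2 * L + 1) × Fin (2 * L + 1) × Fin (2 * L + 1) × Fin (2 * L + 1)) × Fin 3 at ω
  obtain ⟨⟨y0, y1, y2, y3⟩, t⟩ := ω
  have hy : ∀ y : Fin (2 * L + 1), |((y : ℕ) : ℤ) - L| ≤ L := by
    intro y
    have := y.2
    rw [abs_le]
    constructor <;> omega
  refine ⟨![((y0 : ℕ) : ℤ) - L, ((y1 : ℕ) : ℤ) - L, ((y2 : ℕ) : ℤ) - L, ((y3 : ℕ) : ℤ) - L],
    ((t : ℕ) : ℤ) - 1, ?_, ?_, ?_, ?_⟩
  · intro i
    fin_cases i
    · exact hy y0
    · exact hy y1
    · exact hy y2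
    · exact hy y3
  · have := t.2
    rw [abs_le]
    constructor <;> omega
  · have h1 : ((half L q c).v (((y0, y1, y2, y3), t) :
        (Fin (2 * L + 1) × Fin (2 * L + 1) × Fin (2 * L + 1) × Fin (2 * L + 1)) × Fin 3)).1
        = ((((y0 : ℕ) : ℤ) - L) * (3 * q 0) + ((((y1 : ℕ) : ℤ) - L) * (3 * q 1)
          + ((((y2 : ℕ) : ℤ) - L) * (3 * q 2) + (((y3 : ℕ) : ℤ) - L) * (3 * q 3))))
          + (((t : ℕ) : ℤ) - 1) * dir q c := rfl
    refine h1.trans ?_
    rw [dir_eq]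
    simp only [Fin.sum_univ_four]
    simp
    ring
  · have h1 : ((half L q c).v (((y0, y1, y2, y3), t) :
        (Fin (2 * L + 1) × Fin (2 * L + 1) × Fin (2 * L + 1) × Fin (2 * L + 1)) × Fin 3)).2
        = 0 + (((t : ℕ) : ZMod 3) - 1) * chg c := rfl
    refine h1.trans ?_
    push_cast
    ring

theorem Lsc_mono (j : ℕ) {r s : ℕ} (h : r ≤ s) : Lsc j r ≤ Lsc j s := by
  unfold Lsc
  exact Nat.pow_le_pow_right (by positivity) (by omega)

theorem lev_form (j : ℕ) (ω : (lev j).Ω) :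
    ∃ (n : Fin 4 → ℤ) (c : Fin 5) (t : ZMod 3), (∀ i, |n i| ≤ Bd j) ∧
      (∀ i, ((n i : ℤ) : ZMod 3) = t * vec c i) ∧
      ((lev j).v ω).1 = ∑ i, gen j i * n i ∧ ((lev j).v ω).2 = t * chg c := by
  obtain ⟨⟨c, r⟩, ⟨h, h'⟩⟩ := ω
  obtain ⟨Y, τ, hY, hτ, e1, e2⟩ := half_form (Lsc j (r + 1)) (gen j) c h
  obtain ⟨Y', τ', hY', hτ', e1', e2'⟩ := half_form (Lsc j (r + 1)) (gen j) c h'
  have hL : ((Lsc j (r + 1) : ℕ) : ℤ) ≤ Lsc j (Rsc j) := by
    exact_mod_cast Lsc_mono j (by have := r.2; omega)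
  have h3 : (3 : ZMod 3) = 0 := by decide
  refine ⟨fun i => 3 * (Y i + Y' i) + (τ + τ') * vi c i, c, ((τ + τ' : ℤ) : ZMod 3), ?_, ?_, ?_, ?_⟩
  · intro i
    have b1 := abs_le.1 (hY i)
    have b2 := abs_le.1 (hY' i)
    have b3 := abs_le.1 hτ
    have b4 := abs_le.1 hτ'
    have b5 : |(τ + τ') * vi c i| ≤ 2 := by
      rw [abs_mul]
      have : |τ + τ'| ≤ 2 := by rw [abs_le]; constructor <;> linarith [b3.1, b3.2, b4.1, b4.2]
      calc |τ + τ'| * |vi c i| ≤ 2 * 1 := mul_le_mul this (vi_abs c i) (abs_nonneg _) (by norm_num)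
        _ = 2 := by norm_num
    have b6 := abs_le.1 b5
    have hB : ((Bd j : ℕ) : ℤ) = 2 * (3 * Lsc j (Rsc j) + 1) := by
      unfold Bd; push_cast; ring
    rw [hB, abs_le]
    constructor <;> linarith [b1.1, b1.2, b2.1, b2.2, b6.1, b6.2]
  · intro i
    push_cast
    rw [vi_cast, h3]
    ring
  · have h1 : ((lev j).v (⟨(c, r), (h, h')⟩ : Σ x : Fin 5 × Fin (Rsc j),
        (hmu (Lsc j (x.2 + 1)) (gen j) x.1).Ω)).1
        = ((half (Lsc j (r + 1)) (gen j) c).v h).1 + ((half (Lsc j (r + 1)) (gen j) c).v h').1 := rfl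
    refine h1.trans ?_
    rw [e1, e1', ← sum_add_distrib]
    refine sum_congr rfl fun i _ => ?_
    ring
  · have h1 : ((lev j).v (⟨(c, r), (h, h')⟩ : Σ x : Fin 5 × Fin (Rsc j),
        (hmu (Lsc j (x.2 + 1)) (gen j) x.1).Ω)).2
        = ((half (Lsc j (r + 1)) (gen j) c).v h).2 + ((half (Lsc j (r + 1)) (gen j) c).v h').2 := rfl
    refine h1.trans ?_
    rw [e2, e2']
    push_cast
    ring

theorem stg_form : ∀ (k : ℕ) (ω : (stg k).Ω), ∃ (N : ℕ → ℤ) (c : ℕ → Fin 5) (t : ℕ → ZMod 3),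
    (∀ j, k ≤ j → t j = 0) ∧ (∀ m, 4 * k ≤ m → N m = 0) ∧ (∀ m, |N m| ≤ Bd (m / 4)) ∧
    (∀ (j : ℕ) (i : Fin 4), ((N (4 * j + i) : ℤ) : ZMod 3) = t j * vec (c j) i) ∧
    ((stg k).v ω).1 = ∑ m ∈ range (4 * k), Qg m * N m ∧
    ((stg k).v ω).2 = ∑ j ∈ range k, t j * chg (c j)
  | 0, ω => by
    refine ⟨fun _ => 0, fun _ => 0, fun _ => 0, fun _ _ => rfl, fun _ _ => rfl, ?_, ?_, ?_, ?_⟩
    · intro m; simp
    · intro j i; simp
    · rfl
    · rfl
  | k + 1, (ω, ω') => by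
    obtain ⟨N, c, t, h1, h2, h3, h4, h5, h6⟩ := stg_form k ω
    obtain ⟨n, c', t', g1, g2, g3, g4⟩ := lev_form k ω'
    have hsplit : ∀ m, 4 * k ≤ m → ¬ 4 * (k + 1) ≤ m → m / 4 = k := by
      intro m ha hb; omega
    refine ⟨fun m => if m / 4 = k then n ⟨m % 4, Nat.mod_lt _ (by norm_num)⟩ else N m,
      fun j => if j = k then c' else c j, fun j => if j = k then t' else t j, ?_, ?_, ?_, ?_, ?_, ?_⟩
    · intro j hj
      show (if j = k then t' else t j) = 0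
      rw [if_neg (by omega)]
      exact h1 j (by omega)
    · intro m hm
      show (if m / 4 = k then n ⟨m % 4, Nat.mod_lt _ (by norm_num)⟩ else N m) = 0
      rw [if_neg (by omega)]
      exact h2 m (by omega)
    · intro m
      show |(if m / 4 = k then n ⟨m % 4, Nat.mod_lt _ (by norm_num)⟩ else N m)| ≤ _
      split_ifs with hm
      · rw [hm]; exact g1 _
      · exact h3 m
    · intro j i
      have hi := i.2
      have hd : (4 * j + (i : ℕ)) / 4 = j := by omega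
      have hm : (4 * j + (i : ℕ)) % 4 = i := by omega
      show (((if (4 * j + (i : ℕ)) / 4 = k then n ⟨(4 * j + (i : ℕ)) % 4, Nat.mod_lt _ (by norm_num)⟩
        else N (4 * j + i)) : ℤ) : ZMod 3) = (if j = k then t' else t j) * vec (if j = k then c' else c j) i
      rw [hd]
      split_ifs with hj
      · have : (⟨(4 * j + (i : ℕ)) % 4, Nat.mod_lt _ (by norm_num)⟩ : Fin 4) = i := Fin.ext hm
        rw [this]
        exact g2 i
      · exact h4 j i
    · have e0 : ((stg (k + 1)).v ((ω, ω') : (stg k).Ω × (lev k).Ω)).1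
          = ((stg k).v ω).1 + ((lev k).v ω').1 := rfl
      refine e0.trans ?_
      rw [h5, g3]
      have e1 : 4 * (k + 1) = 4 * k + 1 + 1 + 1 + 1 := by ring
      rw [e1, sum_range_succ, sum_range_succ, sum_range_succ, sum_range_succ, Fin.sum_univ_four]
      have d0 : (4 * k) / 4 = k := by omega
      have d1 : (4 * k + 1) / 4 = k := by omega
      have d2 : (4 * k + 1 + 1) / 4 = k := by omega
      have d3 : (4 * k + 1 + 1 + 1) / 4 = k := by omega
      have m0 : (⟨(4 * k) % 4, Nat.mod_lt _ (by norm_num)⟩ : Fin 4) = 0 := Fin.ext (by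
        show (4 * k) % 4 = 0; omega)
      have m1 : (⟨(4 * k + 1) % 4, Nat.mod_lt _ (by norm_num)⟩ : Fin 4) = 1 := Fin.ext (by
        show (4 * k + 1) % 4 = 1; omega)
      have m2 : (⟨(4 * k + 1 + 1) % 4, Nat.mod_lt _ (by norm_num)⟩ : Fin 4) = 2 := Fin.ext (by
        show (4 * k + 1 + 1) % 4 = 2; omega)
      have m3 : (⟨(4 * k + 1 + 1 + 1) % 4, Nat.mod_lt _ (by norm_num)⟩ : Fin 4) = 3 := Fin.ext (by
        show (4 * k + 1 + 1 + 1) % 4 = 3; omega)
      simp only [d0, d1, d2, d3, if_true, m0, m1, m2, m3]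
      have e2 : ∑ m ∈ range (4 * k), (Qg m : ℤ) * (if m / 4 = k then
          n ⟨m % 4, Nat.mod_lt _ (by norm_num)⟩ else N m) = ∑ m ∈ range (4 * k), (Qg m : ℤ) * N m := by
        refine sum_congr rfl fun m hm => ?_
        rw [mem_range] at hm
        rw [if_neg (by omega)]
      rw [e2]
      have gg : ∀ i : Fin 4, gen k i = (Qg (4 * k + i) : ℤ) := fun _ => rfl
      rw [gg 0, gg 1, gg 2, gg 3]
      have i0 : 4 * k + ((0 : Fin 4) : ℕ) = 4 * k := rfl
      have i1 : 4 * k + ((1 : Fin 4) : ℕ) = 4 * k + 1 := rfl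
      have i2 : 4 * k + ((2 : Fin 4) : ℕ) = 4 * k + 1 + 1 := rfl
      have i3 : 4 * k + ((3 : Fin 4) : ℕ) = 4 * k + 1 + 1 + 1 := rfl
      rw [i0, i1, i2, i3]
      ring
    · have e0 : ((stg (k + 1)).v ((ω, ω') : (stg k).Ω × (lev k).Ω)).2
          = ((stg k).v ω).2 + ((lev k).v ω').2 := rfl
      refine e0.trans ?_
      rw [h6, g4, sum_range_succ]
      beta_reduce
      rw [if_pos rfl, if_pos rfl]
      congr 1
      refine sum_congr rfl fun j hj => ?_
      rw [mem_range] at hj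
      rw [if_neg (by omega), if_neg (by omega)]

/-- The lower part is small. -/
theorem low_le : ∀ m : ℕ, 2 ^ (m + 10) * ∑ m' ∈ range m, Qg m' * Bd (m' / 4) ≤ Qg m
  | 0 => by simp
  | m + 1 => by
    have ih := low_le m
    rw [sum_range_succ, Qg]
    set s := ∑ m' ∈ range m, Qg m' * Bd (m' / 4)
    set q := Qg m
    set b := Bd (m / 4)
    have h2 : 1 ≤ 2 ^ (m + 10) := Nat.one_le_two_pow
    calc 2 ^ (m + 1 + 10) * (s + q * b) = 2 * (2 ^ (m + 10) * s) + 2 * 2 ^ (m + 10) * (q * b) := by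
          ring
      _ ≤ 2 * q + 2 * 2 ^ (m + 10) * (q * b) := by omega
      _ ≤ 2 * (2 ^ (m + 10) * q) + 2 * 2 ^ (m + 10) * (q * b) := by
          have : q ≤ 2 ^ (m + 10) * q := Nat.le_mul_of_pos_left q (by positivity)
          omega
      _ = 2 * (q * (2 ^ (m + 10) * (b + 1))) := by ring
      _ ≤ 3 * (q * (2 ^ (m + 10) * (b + 1))) := by omega
      _ = 3 * q * (2 ^ (m + 10) * (b + 1)) := by ring

theorem Qg_dvd_succ (m : ℕ) : 3 * Qg m ∣ Qg (m + 1) := ⟨_, rfl⟩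

theorem Qg_dvd {m n : ℕ} (h : m < n) : 3 * Qg m ∣ Qg n := by
  induction n, h using Nat.le_induction with
  | base => exact Qg_dvd_succ m
  | succ n _ ih => exact ih.trans (dvd_trans (Dvd.intro_left 3 rfl) (Qg_dvd_succ n))

/-- MODULE C1, second part. -/
theorem carry (hc : CountStmt) : CarryStmt := by
  intro k ω
  obtain ⟨N, c, t, h1, h2, h3, h4, h5, h6⟩ := stg_form k ω
  refine ⟨c, t, h1, h6, ?_⟩
  intro m j i hm
  have hQ : (0 : ℝ) < Qg m := by exact_mod_cast Qg_pos m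
  -- decomposition
  have hM : ((stg k).v ω).1 = ∑ m' ∈ range (max (4 * k) (m + 1)), (Qg m' : ℤ) * N m' := by
    rw [h5]
    refine sum_subset (range_mono (le_max_left _ _)) ?_
    intro x _ hx
    rw [mem_range, not_lt] at hx
    rw [h2 x hx, mul_zero]
  obtain ⟨M, hMm⟩ : ∃ M, max (4 * k) (m + 1) = m + 1 + M := ⟨_, (Nat.add_sub_of_le (le_max_right _ _)).symm⟩
  rw [hMm, sum_range_add, sum_range_succ] at hM
  set l : ℤ := ∑ m' ∈ range m, (Qg m' : ℤ) * N m' with hl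
  obtain ⟨w, hw⟩ : (3 * Qg m : ℤ) ∣ ∑ x ∈ range M, (Qg (m + 1 + x) : ℤ) * N (m + 1 + x) := by
    refine dvd_sum fun x _ => Dvd.dvd.mul_right ?_ _
    exact_mod_cast Qg_dvd (by omega : m < m + 1 + x)
  rw [hw] at hM
  have hcast : ((((stg k).v ω).1 : ℤ) : ZMod (3 * Qg m)) = ((l + Qg m * N m : ℤ) : ZMod (3 * Qg m)) := by
    rw [hM]
    have h0 : (((3 * Qg m : ℤ) : ℤ) : ZMod (3 * Qg m)) = 0 := by
      have := ZMod.natCast_self (3 * Qg m)
      exact_mod_cast this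
    push_cast
    push_cast at h0
    rw [h0, zero_mul, add_zero]
  have hN : ((N m : ℤ) : ZMod 3) = t j * vec (c j) i := by rw [hm]; exact h4 j i
  rw [hcast, ← hN]
  have hcnt := hc m l (N m)
  have hlow : 2 ^ (m + 10) * |l| ≤ (Qg m : ℤ) := by
    have e1 : |l| ≤ ((∑ m' ∈ range m, Qg m' * Bd (m' / 4) : ℕ) : ℤ) := by
      rw [hl]
      refine (abs_sum_le_sum_abs _ _).trans ?_
      push_cast
      refine sum_le_sum fun x _ => ?_
      rw [abs_mul, abs_of_nonneg (by positivity : (0 : ℤ) ≤ (Qg x : ℤ))]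
      exact mul_le_mul_of_nonneg_left (h3 x) (by positivity)
    have e2 : ((2 ^ (m + 10) * ∑ m' ∈ range m, Qg m' * Bd (m' / 4) : ℕ) : ℤ) ≤ (Qg m : ℤ) := by
      exact_mod_cast low_le m
    push_cast at e1 e2
    exact (mul_le_mul_of_nonneg_left e1 (by positivity)).trans e2
  rw [div_le_div_iff₀ (by positivity) (by positivity), one_mul]
  have r1 : (((univ.filter (fun x : ZMod (3 * Qg m) =>
      Dg m (x + ((l + Qg m * N m : ℤ) : ZMod (3 * Qg m))) ≠ Dg m x + (N m : ZMod 3))).card : ℤ) : ℝ)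
      ≤ ((3 * |l| : ℤ) : ℝ) := by exact_mod_cast hcnt
  have r2 : ((2 ^ (m + 10) * |l| : ℤ) : ℝ) ≤ ((Qg m : ℤ) : ℝ) := by exact_mod_cast hlow
  push_cast at r1 r2 ⊢
  calc _ ≤ 3 * |(l : ℝ)| * 2 ^ (m + 10) := mul_le_mul_of_nonneg_right r1 (by positivity)
    _ = 3 * (2 ^ (m + 10) * |(l : ℝ)|) := by ring
    _ ≤ _ := mul_le_mul_of_nonneg_left r2 (by norm_num)

end Pool.Agent.H58.TC
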