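import Pool.Agent.H58.TC.Goals

/-!
# Definitions and statements for the commuting system (module C)
-/

namespace Pool.Agent.H58.TC

open Finset MeasureTheory Filter Topology

/-- The digit of a residue modulo `3 * Qg m`: the top base 3 digit. -/
def Dg (m : ℕ) (x : ZMod (3 * Qg m)) : ZMod 3 := ((x.val / Qg m : ℕ) : ZMod 3)

/-- The five directions modulo 3. -/
def vec : Fin 5 → Fin 4 → ZMod 3 := Fin.cases (fun _ => 1) (fun i => Pi.single i 1)

/-- The cubic form `e₃`. -/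
def e3 (x : Fin 4 → ZMod 3) : ZMod 3 :=
  x 0 * x 1 * x 2 + x 0 * x 1 * x 3 + x 0 * x 2 * x 3 + x 1 * x 2 * x 3

/-- Its gradient, paired with a vector: `dot (y, grad e3 x)`. -/
def gr (y x : Fin 4 → ZMod 3) : ZMod 3 :=
  y 0 * (x 1 * x 2 + x 1 * x 3 + x 2 * x 3) + y 1 * (x 0 * x 2 + x 0 * x 3 + x 2 * x 3)
  + y 2 * (x 0 * x 1 + x 0 * x 3 + x 1 * x 3) + y 3 * (x 0 * x 1 + x 0 * x 2 + x 1 * x 2)

def P1 (x y : Fin 4 → ZMod 3) : ZMod 3 := e3 x - gr y x

def P2 (x y : Fin 4 → ZMod 3) : ZMod 3 := gr x (x + y)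

/-- MODULE C0: the corner identity on the five lines. -/
def AlgStmt : Prop :=
  ∀ (x y : Fin 4 → ZMod 3) (c : Fin 5) (t : ZMod 3),
    P1 (x + t • vec c) y - P1 x y + (P2 x (y + t • vec c) - P2 x y) = t * chg c

/-- MODULE C1, first part: few residues have a wrong digit after a shift. -/
def CountStmt : Prop :=
  ∀ (m : ℕ) (l g : ℤ),
    ((univ.filter (fun x : ZMod (3 * Qg m) =>
      Dg m (x + ((l + Qg m * g : ℤ) : ZMod (3 * Qg m))) ≠ Dg m x + (g : ZMod 3))).card : ℤ)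
      ≤ 3 * |l|

/-- MODULE C1, second part: every sample of the stage law acts on the digits by a family of
vectors on the five lines, except for carries, whose probability is summable and small. -/
def CarryStmt : Prop :=
  ∀ (k : ℕ) (ω : (stg k).Ω), ∃ (c : ℕ → Fin 5) (t : ℕ → ZMod 3),
    (∀ j, k ≤ j → t j = 0) ∧
    ((stg k).v ω).2 = ∑ j ∈ range k, t j * chg (c j) ∧
    ∀ (m j : ℕ) (i : Fin 4), m = 4 * j + i →
      ((univ.filter (fun x : ZMod (3 * Qg m) =>
        Dg m (x + ((((stg k).v ω).1 : ℤ) : ZMod (3 * Qg m))) ≠ Dg m x + t j * vec (c j) i)).card : ℝ)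
        / (3 * Qg m) ≤ 1 / 2 ^ (m + 10)

/-- MODULE C2 : the system. -/
def C2Stmt : Prop := AlgStmt → CountStmt → CarryStmt → CStmt

end Pool.Agent.H58.TC
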