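import Mathlib

/-!
# The definitions of the problem
-/

namespace Pool.Agent.H58.TC

open MeasureTheory Filter Topology

/-- The functions `F N` converge in the mean, i.e. in `L²(μ)`. -/
def ConvInMean {X : Type*} [MeasurableSpace X] (μ : Measure X) (F : ℕ → X → ℂ) : Prop :=
  ∃ g : X → ℂ, MemLp g 2 μ ∧ Tendsto (fun N => eLpNorm (F N - g) 2 μ) atTop (𝓝 0)

/-- The sequence `a` is good for `ℓ`-convergence of powers: for every invertible measure
preserving system `(X, μ, T)` and all `f 0, ..., f (ℓ - 1)` in `L^∞(μ)` the averages over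
`1 ≤ n ≤ N` of `∏ i, f i (T ^ ((i + 1) * a n) x)` converge in the mean. -/
def GoodPowers.{u} (ℓ : ℕ) (a : ℕ → ℤ) : Prop :=
  ∀ (X : Type u) [MeasurableSpace X] (μ : Measure X) [IsProbabilityMeasure μ] (T : X ≃ᵐ X),
    MeasurePreserving T μ μ → ∀ f : Fin ℓ → X → ℂ, (∀ i, MemLp (f i) ⊤ μ) →
    ConvInMean μ (fun N x => (N : ℂ)⁻¹ * ∑ n ∈ Finset.Icc 1 N,
      ∏ i : Fin ℓ, f i ((T.toEquiv ^ (((i : ℤ) + 1) * a n) : Equiv.Perm X) x))

/-- The sequence `a` is good for `ℓ`-convergence of commuting transformations: for every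
probability space `(X, μ)`, all pairwise commuting invertible measure preserving maps
`T 0, ..., T (ℓ - 1)` and all `f 0, ..., f (ℓ - 1)` in `L^∞(μ)` the averages over
`1 ≤ n ≤ N` of `∏ i, f i (T i ^ (a n) x)` converge in the mean. -/
def GoodCommuting.{u} (ℓ : ℕ) (a : ℕ → ℤ) : Prop :=
  ∀ (X : Type u) [MeasurableSpace X] (μ : Measure X) [IsProbabilityMeasure μ]
    (T : Fin ℓ → X ≃ᵐ X), (∀ i, MeasurePreserving (T i) μ μ) →
    (∀ i j x, T i (T j x) = T j (T i x)) → ∀ f : Fin ℓ → X → ℂ, (∀ i, MemLp (f i) ⊤ μ) →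
    ConvInMean μ (fun N x => (N : ℂ)⁻¹ * ∑ n ∈ Finset.Icc 1 N,
      ∏ i : Fin ℓ, f i (((T i).toEquiv ^ (a n) : Equiv.Perm X) x))

end Pool.Agent.H58.TC
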