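import Pool.Agent.H58.TC.Sys

/-!
# The explicit design
-/

namespace Pool.Agent.H58.TC

open Finset

/-- Scale `r` of level `j`. -/
def Lsc (j r : ℕ) : ℕ := (64 * 2 ^ j) ^ (r + 1)

/-- Number of scales used at level `j`. -/
def Rsc (j : ℕ) : ℕ := 2 ^ j

instance (j : ℕ) : NeZero (Rsc j) := ⟨by unfold Rsc; positivity⟩

/-- Bound for the coordinates of the vectors at level `j`. -/
def Bd (j : ℕ) : ℕ := 2 * (3 * Lsc j (Rsc j) + 1)

/-- The generators (four consecutive ones for each level). -/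
def Qg : ℕ → ℕ
  | 0 => 1
  | m + 1 => 3 * Qg m * (2 ^ (m + 10) * (Bd (m / 4) + 1))

theorem Qg_pos : ∀ m, 0 < Qg m
  | 0 => one_pos
  | m + 1 => by
    have := Qg_pos m
    unfold Qg
    positivity

instance (m : ℕ) : NeZero (3 * Qg m) := ⟨by have := Qg_pos m; positivity⟩

/-- The four generators of level `j`. -/
def gen (j : ℕ) : Fin 4 → ℤ := fun i => (Qg (4 * j + i) : ℤ)

/-- The five directions: `0 ↦ q 0 + q 1 + q 2 + q 3`, `i + 1 ↦ q i`. -/
def dir (q : Fin 4 → ℤ) : Fin 5 → ℤ := Fin.cases (∑ i, q i) q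

/-- The charge of a direction. -/
def chg (c : Fin 5) : ZMod 3 := if c = 0 then 1 else 0

/-- The three point law on a line: `t * dir q c` with charge `t * chg c`, `t ∈ {-1,0,1}`. -/
noncomputable def theta (q : Fin 4 → ℤ) (c : Fin 5) : Law (ℤ × ZMod 3) :=
  unifLaw (fun t : Fin 3 =>
    ((((t : ℕ) : ℤ) - 1) * dir q c, (((t : ℕ) : ZMod 3) - 1) * chg c))

/-- Uniform law on `{y * d : |y| ≤ L}`. -/
noncomputable def uni (L : ℕ) (d : ℤ) : Law ℤ :=
  unifLaw (fun y : Fin (2 * L + 1) => (((y : ℕ) : ℤ) - L) * d)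

/-- Law of `3 (q 0 y 0 + .. + q 3 y 3)`, `y` uniform in `[-L, L]^4`. -/
noncomputable def box (L : ℕ) (q : Fin 4 → ℤ) : Law ℤ :=
  conv (uni L (3 * q 0)) (conv (uni L (3 * q 1)) (conv (uni L (3 * q 2)) (uni L (3 * q 3))))

/-- The half law. -/
noncomputable def half (L : ℕ) (q : Fin 4 → ℤ) (c : Fin 5) : Law (ℤ × ZMod 3) :=
  conv ((box L q).map (fun a => (a, 0))) (theta q c)

/-- The law of one level for a given direction `c` and a given scale. -/
noncomputable def hmu (L : ℕ) (q : Fin 4 → ℤ) (c : Fin 5) : Law (ℤ × ZMod 3) :=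
  conv (half L q c) (half L q c)

/-- The law of level `j`. -/
noncomputable def lev (j : ℕ) : Law (ℤ × ZMod 3) :=
  mix (fun x : Fin 5 × Fin (Rsc j) => hmu (Lsc j (x.2 + 1)) (gen j) x.1)

/-- The law of stage `k`. -/
noncomputable def stg : ℕ → Law (ℤ × ZMod 3)
  | 0 => dirac 0
  | k + 1 => conv (stg k) (lev k)

/-- `0 ↦ 2`, `1, 2 ↦ 1/2`: this is `1 + Re ω^s`. -/
noncomputable def tau (s : ZMod 3) : ℝ := if s = 0 then 2 else 1 / 2

theorem tau_pos (s : ZMod 3) : 0 < tau s := by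
  unfold tau; split_ifs <;> norm_num

/-- Normalising constant of the tilted law. -/
noncomputable def Zk (k : ℕ) : ℝ := E (stg k) (fun a => tau a.2)

theorem Zk_pos (k : ℕ) : 0 < Zk k := by
  have : (1 / 2 : ℝ) ≤ Zk k := le_E_of_le _ fun a => by
    unfold tau; split_ifs <;> norm_num
  linarith

/-- The tilted law of stage `k`. -/
noncomputable def tlt (k : ℕ) : Law ℤ where
  Ω := (stg k).Ω
  fin := (stg k).fin
  w ω := (Zk k)⁻¹ * ((stg k).w ω * tau ((stg k).v ω).2)
  v ω := ((stg k).v ω).1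
  nonneg ω := mul_nonneg (inv_nonneg.2 (Zk_pos k).le)
    (mul_nonneg ((stg k).nonneg ω) (tau_pos _).le)
  sum_one := by
    rw [← mul_sum, inv_mul_eq_one₀ (Zk_pos k).ne']
    rfl

theorem E_tlt {V : Type*} [AddCommGroup V] [Module ℝ V] (k : ℕ) (φ : ℤ → V) :
    E (tlt k) φ = (Zk k)⁻¹ • E (stg k) (fun a => tau a.2 • φ a.1) := by
  simp only [E, smul_sum]
  refine sum_congr rfl fun ω _ => ?_
  rw [← mul_smul, ← mul_smul, mul_assoc]
  rfl

/-- The sequence of laws used by the final sequence: alternately the stage law and the tilted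
law. -/
noncomputable def plaw (i : ℕ) : Law ℤ :=
  if i % 2 = 0 then (stg (i / 2)).map Prod.fst else tlt (i / 2)

/-! ### Goals (statements of the modules) -/

/-- A character of `ZMod 3` inside the algebra. -/
structure Zeta {B H : Type*} [CommRing B] [StarRing B] [Algebra ℝ B]
    [NormedAddCommGroup H] [InnerProductSpace ℝ H] (S : Sys B H) where
  z : ZMod 3 → B
  z_zero : z 0 = 1
  z_add : ∀ s t, z (s + t) = z s * z t
  z_star : ∀ s, star (z s) = z (-s)
  U_z : ∀ a s, S.U a (z s) = z s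
  z_sum : 1 + z 1 + z 2 = 0

end Pool.Agent.H58.TC
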