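import Pool.Agent.H58.TC.Goals

/-!
# Norm of the averaged operator of one level
-/

namespace Pool.Agent.H58.TC

open Finset

namespace Zeta

variable {B H : Type*} [CommRing B] [StarRing B] [Algebra ℝ B]
    [NormedAddCommGroup H] [InnerProductSpace ℝ H] {S : Sys B H} (Z : Zeta S)

theorem norm_z (s : ZMod 3) (x : B) : ‖S.ι (Z.z s * x)‖ = ‖S.ι x‖ := by
  have h1 : ‖S.ι (Z.z s * x)‖ ^ 2 = ‖S.ι x‖ ^ 2 := by
    rw [← real_inner_self_eq_norm_sq, ← real_inner_self_eq_norm_sq, S.sa, Z.z_star, ← mul_assoc,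
      ← Z.z_add, neg_add_cancel, Z.z_zero, one_mul]
  exact (sq_eq_sq₀ (norm_nonneg _) (norm_nonneg _)).1 h1

theorem norm_z_sub (x : B) : ‖S.ι ((Z.z 2 - 1) * x)‖ ^ 2 = 3 * ‖S.ι x‖ ^ 2 := by
  have hs : star (Z.z 2 - 1) * ((Z.z 2 - 1) * x) = (3 : ℝ) • x := by
    have h1 : star (Z.z 2 - 1) = Z.z 1 - 1 := by
      rw [star_sub, star_one, Z.z_star]; rfl
    have h2 : Z.z 1 * Z.z 2 = 1 := by
      rw [← Z.z_add, ← Z.z_zero]; rfl
    have h3 := Z.z_sum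
    rw [h1, ← mul_assoc]
    have h4 : (Z.z 1 - 1) * (Z.z 2 - 1) = 3 := by
      linear_combination h2 - h3
    rw [h4]
    rw [Algebra.smul_def, map_ofNat]
  rw [← real_inner_self_eq_norm_sq, S.sa, hs, map_smul, real_inner_smul_right,
    real_inner_self_eq_norm_sq]

end Zeta

theorem three_vec {H : Type*} [NormedAddCommGroup H] [InnerProductSpace ℝ H] {a b c : H} {r δ : ℝ}
    (ha : ‖a‖ = r) (hb : ‖b‖ = r) (hc : ‖c‖ = r) (h1 : ‖a - b‖ = δ) (h2 : ‖c - b‖ = δ) :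
    ‖a + b + c‖ ^ 2 ≤ 9 * r ^ 2 - 2 * δ ^ 2 := by
  have e1 : ‖a + b + c‖ ^ 2 = ‖a + b‖ ^ 2 + 2 * inner ℝ (a + b) c + ‖c‖ ^ 2 :=
    norm_add_sq_real _ _
  have e2 : ‖a + b‖ ^ 2 = ‖a‖ ^ 2 + 2 * inner ℝ a b + ‖b‖ ^ 2 := norm_add_sq_real _ _
  have e3 : ‖a - b‖ ^ 2 = ‖a‖ ^ 2 - 2 * inner ℝ a b + ‖b‖ ^ 2 := norm_sub_sq_real _ _
  have e4 : ‖c - b‖ ^ 2 = ‖c‖ ^ 2 - 2 * inner ℝ c b + ‖b‖ ^ 2 := norm_sub_sq_real _ _
  have e5 : ‖a - c‖ ^ 2 = ‖a‖ ^ 2 - 2 * inner ℝ a c + ‖c‖ ^ 2 := norm_sub_sq_real _ _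
  have e6 : inner ℝ (a + b) c = inner ℝ a c + inner ℝ c b := by
    rw [inner_add_left, real_inner_comm c b]
  rw [ha, hb] at e2 e3
  rw [hb, hc] at e4
  rw [ha, hc] at e5
  rw [h1] at e3
  rw [h2] at e4
  have e7 := sq_nonneg ‖a - c‖
  rw [e1, e2, e6, hc]
  nlinarith

theorem op.{u, v} : OpStmt.{u, v} := by
  intro B H _ _ _ _ _ S Z q x
  set r := ‖S.ι x‖ with hr
  let V : Fin 5 → B := fun c => Z.z (2 * chg c) * S.U (-2 * dir q c) x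
  let V' : Fin 5 → B := fun c => Z.z (-(2 * chg c)) * S.U (2 * dir q c) x
  let δ : Fin 5 → ℝ := fun c => ‖S.ι (V c - x)‖
  -- the inner sum
  have hsum : ∀ c : Fin 5, ∑ t : Fin 3, Z.z (2 * (((t : ℕ) : ZMod 3) - 1) * chg c) *
      S.U (-2 * ((((t : ℕ) : ℤ) - 1) * dir q c)) x = V' c + x + V c := by
    intro c
    rw [Fin.sum_univ_three]
    have e0 : Z.z (2 * ((((0 : Fin 3) : ℕ) : ZMod 3) - 1) * chg c) *
        S.U (-2 * (((((0 : Fin 3) : ℕ) : ℤ) - 1) * dir q c)) x = V' c := by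
      have a1 : (2 * ((((0 : Fin 3) : ℕ) : ZMod 3) - 1) * chg c) = -(2 * chg c) := by simp
      have a2 : (-2 * (((((0 : Fin 3) : ℕ) : ℤ) - 1) * dir q c)) = 2 * dir q c := by simp
      rw [a1, a2]
    have e1 : Z.z (2 * ((((1 : Fin 3) : ℕ) : ZMod 3) - 1) * chg c) *
        S.U (-2 * (((((1 : Fin 3) : ℕ) : ℤ) - 1) * dir q c)) x = x := by
      have a1 : (2 * ((((1 : Fin 3) : ℕ) : ZMod 3) - 1) * chg c) = 0 := by simp
      have a2 : (-2 * (((((1 : Fin 3) : ℕ) : ℤ) - 1) * dir q c)) = 0 := by simp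
      rw [a1, a2, Z.z_zero, S.U_zero, one_mul]
    have e2 : Z.z (2 * ((((2 : Fin 3) : ℕ) : ZMod 3) - 1) * chg c) *
        S.U (-2 * (((((2 : Fin 3) : ℕ) : ℤ) - 1) * dir q c)) x = V c := by
      have b1 : ((((2 : Fin 3) : ℕ) : ZMod 3) - 1) = 1 := by rfl
      have b2 : (((((2 : Fin 3) : ℕ) : ℤ) - 1)) = 1 := by rfl
      rw [b1, b2, mul_one, one_mul]
    rw [e0, e1, e2]
  have hVn : ∀ c, ‖S.ι (V c)‖ = r := fun c => by
    simp only [V]; rw [Z.norm_z, S.norm_U]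
  have hV'n : ∀ c, ‖S.ι (V' c)‖ = r := fun c => by
    simp only [V']; rw [Z.norm_z, S.norm_U]
  have hV'δ : ∀ c, ‖S.ι (V' c - x)‖ = δ c := fun c => by
    have e1 : Z.z (2 * chg c) * S.U (-2 * dir q c) (V' c - x) = -(V c - x) := by
      simp only [V', V]
      rw [map_sub, map_mul, Z.U_z, ← S.U_add, mul_sub, ← mul_assoc, ← Z.z_add]
      have a1 : -2 * dir q c + 2 * dir q c = 0 := by ring
      rw [a1, add_neg_cancel, Z.z_zero, S.U_zero, one_mul]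
      ring
    have e2 : ‖S.ι (Z.z (2 * chg c) * S.U (-2 * dir q c) (V' c - x))‖ = ‖S.ι (V' c - x)‖ := by
      rw [Z.norm_z, S.norm_U]
    rw [← e2, e1, map_neg, norm_neg]
  -- bound of each inner sum
  have hS : ∀ c, ‖S.ι (V' c + x + V c)‖ ^ 2 ≤ 9 * r ^ 2 - 2 * δ c ^ 2 := fun c => by
    rw [map_add, map_add]
    refine three_vec (hV'n c) rfl (hVn c) ?_ ?_
    · rw [← map_sub]; exact hV'δ c
    · rw [← map_sub]
  -- the triangle inequality for the five directions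
  have hδ : ∀ i : Fin 4, δ i.succ = ‖S.ι (S.U (-2 * q i) x - x)‖ := fun i => by
    simp only [δ, V]
    have : chg i.succ = 0 := by unfold chg; simp
    rw [this, mul_zero, Z.z_zero, one_mul]
    simp [dir]
  have htri : ∀ a b : ℤ, ‖S.ι (S.U (a + b) x - x)‖
      ≤ ‖S.ι (S.U a x - x)‖ + ‖S.ι (S.U b x - x)‖ := fun a b => by
    have : S.U (a + b) x - x = S.U a (S.U b x - x) + (S.U a x - x) := by
      rw [map_sub, S.U_add]; ring
    rw [this, map_add]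
    refine (norm_add_le _ _).trans ?_
    rw [S.norm_U]; linarith
  have h0 : ‖S.ι (S.U (-2 * dir q 0) x - x)‖ ≤ δ 1 + δ 2 + δ 3 + δ 4 := by
    have e1 : -2 * dir q 0 = -2 * q 0 + (-2 * q 1 + (-2 * q 2 + -2 * q 3)) := by
      unfold dir; simp only [Fin.cases_zero, Fin.sum_univ_four]; ring
    rw [e1]
    have d1 : δ 1 = ‖S.ι (S.U (-2 * q 0) x - x)‖ := hδ 0
    have d2 : δ 2 = ‖S.ι (S.U (-2 * q 1) x - x)‖ := hδ 1
    have d3 : δ 3 = ‖S.ι (S.U (-2 * q 2) x - x)‖ := hδ 2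
    have d4 : δ 4 = ‖S.ι (S.U (-2 * q 3) x - x)‖ := hδ 3
    rw [d1, d2, d3, d4]
    linarith [htri (-2 * q 0) (-2 * q 1 + (-2 * q 2 + -2 * q 3)),
      htri (-2 * q 1) (-2 * q 2 + -2 * q 3), htri (-2 * q 2) (-2 * q 3)]
  have h3 : √3 * r ≤ δ 0 + (δ 1 + δ 2 + δ 3 + δ 4) := by
    have e1 : √3 * r = ‖S.ι ((Z.z 2 - 1) * x)‖ := by
      have := Z.norm_z_sub x
      have h4 : (√3 * r) ^ 2 = ‖S.ι ((Z.z 2 - 1) * x)‖ ^ 2 := by
        rw [this, mul_pow, Real.sq_sqrt (by norm_num : (0 : ℝ) ≤ 3)]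
      exact (sq_eq_sq₀ (by positivity) (norm_nonneg _)).1 h4
    have e2 : (Z.z 2 - 1) * x = (V 0 - x) - Z.z 2 * (S.U (-2 * dir q 0) x - x) := by
      have : chg 0 = 1 := rfl
      simp only [V]
      rw [this, mul_one]
      ring
    rw [e1, e2, map_sub]
    refine (norm_sub_le _ _).trans ?_
    rw [Z.norm_z]
    exact add_le_add le_rfl h0
  -- conclusion
  have hT : ‖S.ι ((1 / 15 : ℝ) • ∑ c : Fin 5, ∑ t : Fin 3,
      Z.z (2 * (((t : ℕ) : ZMod 3) - 1) * chg c) *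
        S.U (-2 * ((((t : ℕ) : ℤ) - 1) * dir q c)) x)‖
      ≤ (1 / 15) * ∑ c : Fin 5, ‖S.ι (V' c + x + V c)‖ := by
    simp only [hsum]
    rw [map_smul, map_sum, norm_smul]
    rw [Real.norm_of_nonneg (by norm_num : (0 : ℝ) ≤ 1 / 15)]
    exact mul_le_mul_of_nonneg_left (norm_sum_le _ _) (by norm_num)
  refine hT.trans ?_
  have hsq : (∑ c : Fin 5, ‖S.ι (V' c + x + V c)‖) ^ 2 ≤ 219 * r ^ 2 := by
    have a1 := sq_sum_le_card_mul_sum_sq (s := (univ : Finset (Fin 5)))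
      (f := fun c => ‖S.ι (V' c + x + V c)‖)
    have a2 := sum_le_sum fun c (_ : c ∈ (univ : Finset (Fin 5))) => hS c
    have a3 := sq_sum_le_card_mul_sum_sq (s := (univ : Finset (Fin 5))) (f := δ)
    rw [sum_sub_distrib, ← mul_sum] at a2
    simp only [card_univ, Fintype.card_fin, sum_const, nsmul_eq_mul] at a1 a2 a3
    have a4 : ∑ c : Fin 5, δ c = δ 0 + (δ 1 + δ 2 + δ 3 + δ 4) := by
      rw [Fin.sum_univ_five]; ring
    rw [a4] at a3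
    have a5 : 3 * r ^ 2 ≤ (δ 0 + (δ 1 + δ 2 + δ 3 + δ 4)) ^ 2 := by
      have := pow_le_pow_left₀ (by positivity) h3 2
      rwa [mul_pow, Real.sq_sqrt (by norm_num : (0 : ℝ) ≤ 3)] at this
    push_cast at a1 a2 a3
    have a6 : ∑ x : Fin 5, 2 * δ x ^ 2 = 2 * ∑ x : Fin 5, δ x ^ 2 := (mul_sum _ _ _).symm
    rw [a6] at a2
    linarith
  have hr0 : 0 ≤ r := norm_nonneg _
  have hs0 : 0 ≤ ∑ c : Fin 5, ‖S.ι (V' c + x + V c)‖ := sum_nonneg fun _ _ => norm_nonneg _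
  have : ∑ c : Fin 5, ‖S.ι (V' c + x + V c)‖ ≤ 15 * (74 / 75) * r := by
    refine abs_le_of_sq_le_sq' ?_ (by positivity) |>.2
    refine hsq.trans ?_
    nlinarith [sq_nonneg r]
  linarith

end Pool.Agent.H58.TC
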