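import Pool.Agent.H58.TC.A2
import Pool.Agent.H58.TC.Goals

/-!
# Quasi-invariance of the explicit laws
-/

namespace Pool.Agent.H58.TC

open Finset

theorem SE.neg {q : Law ℤ} {a : ℤ} {ε : ℝ} (h : SE q a ε) : SE q (-a) ε := by
  intro ψ hψ
  have := h (fun b => ψ (b + a)) (fun b => hψ _)
  simp only [sub_add_cancel] at this
  rw [← abs_neg, ← E_neg]
  simpa [sub_neg_eq_add] using this

theorem SE.nsmul {q : Law ℤ} {a : ℤ} {ε : ℝ} (h : SE q a ε) (n : ℕ) :
    SE q (a * n) (n * ε) := by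
  induction n with
  | zero => simpa using SE.zero q
  | succ n ih =>
    have := ih.add h
    push_cast
    rw [mul_add, mul_one, add_mul, one_mul]
    exact this

theorem SE.zsmul {q : Law ℤ} {a : ℤ} {ε : ℝ} (h : SE q a ε) (z : ℤ) :
    SE q (a * z) (|(z : ℝ)| * ε) := by
  rcases Int.eq_nat_or_neg z with ⟨n, rfl | rfl⟩
  · simpa using h.nsmul n
  · have := (h.nsmul n).neg
    simpa using this

theorem SE_uni (L : ℕ) (d : ℤ) : SE (uni L d) d (2 / (2 * L + 1)) := by
  intro ψ hψ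
  unfold uni
  rw [E_unif]
  let g : ℕ → ℝ := fun y => ψ (((y : ℤ) - 1 - L) * d)
  have e : ∑ i : Fin (2 * L + 1),
      (ψ ((((i : ℕ) : ℤ) - L) * d - d) - ψ ((((i : ℕ) : ℤ) - L) * d))
      = g 0 - g (2 * L + 1) := by
    rw [Fin.sum_univ_eq_sum_range
      (fun i : ℕ => ψ ((((i : ℕ) : ℤ) - L) * d - d) - ψ ((((i : ℕ) : ℤ) - L) * d)) (2 * L + 1),
      ← sum_range_sub']
    refine sum_congr rfl fun i _ => ?_
    simp only [g]
    congr 2
    · ring
    · push_cast; ring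
  rw [e, smul_eq_mul, abs_mul, Fintype.card_fin]
  push_cast
  rw [abs_of_nonneg (by positivity : (0 : ℝ) ≤ (2 * (L : ℝ) + 1)⁻¹), ← div_eq_inv_mul]
  apply div_le_div_of_nonneg_right _ (by positivity)
  have h1 := abs_le.1 (hψ ((((0 : ℕ) : ℤ) - 1 - L) * d))
  have h2 := abs_le.1 (hψ ((((2 * L + 1 : ℕ) : ℤ) - 1 - L) * d))
  rw [abs_le]
  constructor <;> simp only [g] <;> linarith [h1.1, h1.2, h2.1, h2.2]

theorem SE_box (L : ℕ) (q : Fin 4 → ℤ) (i : Fin 4) : SE (box L q) (3 * q i) (2 / (2 * L + 1)) := by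
  unfold box
  fin_cases i
  · exact (SE_uni L _).conv_left
  · exact ((SE_uni L _).conv_left).conv_right
  · exact (((SE_uni L _).conv_left).conv_right).conv_right
  · exact (((SE_uni L _).conv_right).conv_right).conv_right

theorem SE_box_dir (L : ℕ) (q : Fin 4 → ℤ) (c : Fin 5) :
    SE (box L q) (3 * dir q c) (8 / (2 * L + 1)) := by
  have hL : (0 : ℝ) < 2 * L + 1 := by positivity
  refine Fin.cases ?_ (fun i => ?_) c
  · have h := (((SE_box L q 0).add (SE_box L q 1)).add (SE_box L q 2)).add (SE_box L q 3)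
    have e1 : 3 * dir q 0 = 3 * q 0 + 3 * q 1 + 3 * q 2 + 3 * q 3 := by
      unfold dir
      simp only [Fin.cases_zero, Fin.sum_univ_four]
      ring
    have e2 : (8 : ℝ) / (2 * L + 1)
        = 2 / (2 * L + 1) + 2 / (2 * L + 1) + 2 / (2 * L + 1) + 2 / (2 * L + 1) := by ring
    rw [e1, e2]
    exact h
  · have e1 : dir q i.succ = q i := by unfold dir; simp
    rw [e1]
    refine (SE_box L q i).mono ?_
    apply div_le_div_of_nonneg_right _ hL.le
    norm_num

theorem E_half {V : Type*} [AddCommGroup V] [Module ℝ V] (L : ℕ) (q : Fin 4 → ℤ) (c : Fin 5)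
    (φ : ℤ → V) :
    E ((half L q c).map Prod.fst) φ
      = E (box L q) (fun a => E (theta q c) (fun b => φ (a + b.1))) := by
  unfold half
  rw [E_map, E_conv, E_map]
  rfl

theorem E_theta {V : Type*} [AddCommGroup V] [Module ℝ V] (q : Fin 4 → ℤ) (c : Fin 5)
    (φ : ℤ → V) :
    E (theta q c) (fun b => φ b.1)
      = (3 : ℝ)⁻¹ • (φ (-dir q c) + φ 0 + φ (dir q c)) := by
  unfold theta
  rw [E_unif, Fin.sum_univ_three]
  simp

theorem SE_half_of_box {L : ℕ} {q : Fin 4 → ℤ} (c : Fin 5) {s : ℤ} {ε : ℝ}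
    (h : SE (box L q) s ε) : SE ((half L q c).map Prod.fst) s ε := by
  intro ψ hψ
  rw [E_half, E_comm]
  refine abs_E_le_of_le _ fun b => ?_
  have := h (fun a => ψ (a + b.1)) (fun a => hψ _)
  refine le_trans (le_of_eq ?_) this
  congr 2
  funext a
  congr 2
  ring

theorem SE_half_dir (L : ℕ) (q : Fin 4 → ℤ) (c : Fin 5) :
    SE ((half L q c).map Prod.fst) (dir q c) (8 / 3 / (2 * L + 1)) := by
  intro ψ hψ
  set d := dir q c
  rw [E_half]
  have e : (fun a => E (theta q c) (fun b => ψ (a + b.1 - d) - ψ (a + b.1)))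
      = fun a => (3 : ℝ)⁻¹ • (ψ (a - 3 * d + d) - ψ (a + d)) := by
    funext a
    rw [E_theta q c (fun x => ψ (a + x - d) - ψ (a + x))]
    congr 1
    have h1 : a + -dir q c - d = a - 3 * d + d := by simp only [d]; ring
    have h2 : a + 0 - d = a + -dir q c := by simp only [d]; ring
    have h3 : a + dir q c - d = a + 0 := by simp only [d]; ring
    rw [h1, h2, h3]
    simp only [d]
    ring
  rw [e, E_smul, smul_eq_mul, abs_mul, abs_of_nonneg (by norm_num : (0 : ℝ) ≤ 3⁻¹)]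
  have := SE_box_dir L q c (fun a => ψ (a + d)) (fun a => hψ _)
  have h2 : (8 : ℝ) / 3 / (2 * L + 1) = 3⁻¹ * (8 / (2 * L + 1)) := by ring
  rw [h2]
  exact mul_le_mul_of_nonneg_left this (by norm_num)

theorem SE_half_sample (L L' : ℕ) (q : Fin 4 → ℤ) (c : Fin 5)
    (ω : ((half L q c).map Prod.fst).Ω) :
    SE ((half L' q c).map Prod.fst) (((half L q c).map Prod.fst).v ω)
      ((8 * L + 3) / (2 * L' + 1)) := by
  obtain ⟨⟨y0, y1, y2, y3⟩, t⟩ := ω
  change Fin (2 * L + 1) at y0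
  change Fin (2 * L + 1) at y1
  change Fin (2 * L + 1) at y2
  change Fin (2 * L + 1) at y3
  change Fin 3 at t
  have hL' : (0 : ℝ) < 2 * L' + 1 := by positivity
  have hy : ∀ y : Fin (2 * L + 1), |((((y : ℕ) : ℤ) - L : ℤ) : ℝ)| ≤ L := by
    intro y
    have h1 : ((y : ℕ) : ℝ) ≤ 2 * L := by
      have := y.2
      have : (y : ℕ) ≤ 2 * L := by omega
      exact_mod_cast this
    have h2 : (0 : ℝ) ≤ ((y : ℕ) : ℝ) := Nat.cast_nonneg _
    push_cast
    rw [abs_le]
    constructor <;> linarith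
  have ht : |((((t : ℕ) : ℤ) - 1 : ℤ) : ℝ)| ≤ 1 := by
    fin_cases t <;> simp
  have hs : ∀ (i : Fin 4) (y : Fin (2 * L + 1)), SE ((half L' q c).map Prod.fst)
      (3 * q i * (((y : ℕ) : ℤ) - L)) (L * (2 / (2 * L' + 1))) := fun i y =>
    ((SE_half_of_box c (SE_box L' q i)).zsmul _).mono
      (mul_le_mul_of_nonneg_right (hy y) (by positivity))
  have hd : SE ((half L' q c).map Prod.fst) (dir q c * (((t : ℕ) : ℤ) - 1))
      (1 * (8 / 3 / (2 * L' + 1))) :=
    ((SE_half_dir L' q c).zsmul _).mono (mul_le_mul_of_nonneg_right ht (by positivity))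
  have h := ((hs 0 y0).add ((hs 1 y1).add ((hs 2 y2).add (hs 3 y3)))).add hd
  have e : ((half L q c).map Prod.fst).v ((y0, y1, y2, y3), t)
      = 3 * q 0 * (((y0 : ℕ) : ℤ) - L) + (3 * q 1 * (((y1 : ℕ) : ℤ) - L)
        + (3 * q 2 * (((y2 : ℕ) : ℤ) - L) + 3 * q 3 * (((y3 : ℕ) : ℤ) - L)))
        + dir q c * (((t : ℕ) : ℤ) - 1) := by
    have : ((half L q c).map Prod.fst).v ((y0, y1, y2, y3), t)
      = ((((y0 : ℕ) : ℤ) - L) * (3 * q 0) + ((((y1 : ℕ) : ℤ) - L) * (3 * q 1)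
        + ((((y2 : ℕ) : ℤ) - L) * (3 * q 2) + (((y3 : ℕ) : ℤ) - L) * (3 * q 3))))
        + (((t : ℕ) : ℤ) - 1) * dir q c := rfl
    rw [this]; ring
  rw [e]
  refine h.mono ?_
  have : (L : ℝ) * (2 / (2 * L' + 1)) + (L * (2 / (2 * L' + 1)) + (L * (2 / (2 * L' + 1))
      + L * (2 / (2 * L' + 1)))) + 1 * (8 / 3 / (2 * L' + 1)) = (8 * L + 8 / 3) / (2 * L' + 1) := by
    field_simp; ring
  rw [this]
  apply div_le_div_of_nonneg_right _ hL'.le
  linarith

theorem Symm_uni (L : ℕ) (d : ℤ) : Symm (uni L d) := by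
  intro φ
  unfold uni
  rw [E_unif, E_unif]
  congr 1
  rw [← Equiv.sum_comp Fin.revPerm]
  refine sum_congr rfl fun y _ => ?_
  congr 1
  have h := y.2
  rw [Fin.revPerm_apply, Fin.val_rev]
  have : ((2 * L + 1 - ((y : ℕ) + 1) : ℕ) : ℤ) = 2 * L - (y : ℕ) := by omega
  rw [this]; ring

theorem Symm_box (L : ℕ) (q : Fin 4 → ℤ) : Symm (box L q) :=
  (Symm_uni _ _).conv ((Symm_uni _ _).conv ((Symm_uni _ _).conv (Symm_uni _ _)))

theorem Symm_half (L : ℕ) (q : Fin 4 → ℤ) (c : Fin 5) : Symm ((half L q c).map Prod.fst) := by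
  intro φ
  rw [E_half, E_half]
  have h1 : (fun a => E (theta q c) (fun b => φ (-(a + b.1))))
      = fun a => (fun x => E (theta q c) (fun b => φ (x + b.1))) (-a) := by
    funext a
    rw [E_theta q c (fun x => φ (-(a + x)))]
    have := E_theta q c (fun x => φ (-a + x))
    simp only at this ⊢
    rw [this]
    congr 1
    have e1 : -(a + -dir q c) = -a + dir q c := by ring
    have e2 : -(a + 0) = -a + 0 := by ring
    have e3 : -(a + dir q c) = -a + -dir q c := by ring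
    rw [e1, e2, e3]; ring
  rw [h1]
  exact Symm_box L q (fun x => E (theta q c) (fun b => φ (x + b.1)))

theorem qi : QIStmt := by
  refine ⟨Symm_half, fun L L' q c => ?_⟩
  rintro ⟨ω₁, ω₂⟩
  have h := ((SE_half_sample L L' q c ω₁).conv_left (q' := (half L' q c).map Prod.fst)).add
    ((SE_half_sample L L' q c ω₂).conv_left (q' := (half L' q c).map Prod.fst))
  refine SE.mono h (le_of_eq ?_)
  ring

end Pool.Agent.H58.TC
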