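import Pool.Agent.H58.TC.Glue
import Pool.Agent.H58.TC.B
import Pool.Agent.H58.TC.Op
import Pool.Agent.H58.TC.QI
import Pool.Agent.H58.TC.A5

/-!
# Convergence of the averages of powers along the laws `plaw`
-/

namespace Pool.Agent.H58.TC

open Finset Filter Topology

section

variable {B H : Type*} [CommRing B] [StarRing B] [Algebra ℝ B]
    [NormedAddCommGroup H] [InnerProductSpace ℝ H] {S : Sys B H} (Z : Zeta S)

theorem tau_smul (s : ZMod 3) (x : B) :
    tau s • x = x + (1 / 2 : ℝ) • (Z.z s * x + Z.z (-s) * x) := by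
  have h0 : s = 0 ∨ s = 1 ∨ s = 2 := by revert s; decide
  have h3 := Z.z_sum
  have hh : (1 / 2 : ℝ) • x + (1 / 2 : ℝ) • x = x := by
    rw [← add_smul]; norm_num
  have h12 : Z.z 1 * x + Z.z 2 * x = -x := by linear_combination x * h3
  rcases h0 with rfl | rfl | rfl
  · rw [neg_zero, Z.z_zero, one_mul]
    unfold tau
    rw [if_pos rfl, smul_add, hh, two_smul]
  · have : (-1 : ZMod 3) = 2 := rfl
    rw [this, h12]
    unfold tau
    rw [if_neg (by decide), smul_neg]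
    nth_rewrite 2 [← hh]
    abel
  · have : (-2 : ZMod 3) = 1 := rfl
    rw [this, add_comm (Z.z 2 * x), h12]
    unfold tau
    rw [if_neg (by decide), smul_neg]
    nth_rewrite 2 [← hh]
    abel

/-- The conjugate character. -/
def Zeta.neg : Zeta S where
  z s := Z.z (-s)
  z_zero := by rw [neg_zero, Z.z_zero]
  z_add s t := by rw [neg_add, Z.z_add]
  z_star s := Z.z_star _
  U_z a s := Z.U_z a _
  z_sum := by
    have h1 : (-1 : ZMod 3) = 2 := rfl
    have h2 : (-2 : ZMod 3) = 1 := rfl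
    rw [h1, h2, add_right_comm]
    exact Z.z_sum

theorem tendsto_zero_of_pow {V : Type*} [SeminormedAddCommGroup V] {x : ℕ → V} {r : ℝ}
    (hr0 : 0 ≤ r) (hr : r < 1) (h : ∀ k, ‖x k‖ ^ 4 ≤ r ^ k) : Tendsto x atTop (𝓝 0) := by
  rw [Metric.tendsto_atTop]
  intro ε hε
  have h1 := tendsto_pow_atTop_nhds_zero_of_lt_one hr0 hr
  rw [Metric.tendsto_atTop] at h1
  obtain ⟨K, hK⟩ := h1 (ε ^ 4) (by positivity)
  refine ⟨K, fun k hk => ?_⟩
  have h2 := hK k hk
  rw [Real.dist_eq, sub_zero, abs_of_nonneg (by positivity)] at h2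
  rw [dist_zero_right]
  exact lt_of_pow_lt_pow_left₀ 4 hε.le ((h k).trans_lt h2)

theorem tendsto_alt {V : Type*} [TopologicalSpace V] {F G : ℕ → V} {L : V}
    (hF : Tendsto F atTop (𝓝 L)) (hG : Tendsto G atTop (𝓝 L)) :
    Tendsto (fun i => if i % 2 = 0 then F (i / 2) else G (i / 2)) atTop (𝓝 L) := by
  have hd : Tendsto (fun i : ℕ => i / 2) atTop atTop :=
    tendsto_atTop_atTop.2 fun b => ⟨2 * b, fun a ha => by omega⟩
  exact (hF.comp hd).if' (hG.comp hd)

include Z in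
theorem abs_conv [CompleteSpace H] (hW : ∀ a f, S.W a f = S.U (2 * a) f) {f1 f2 : B}
    (h1 : S.Ball f1) (h2 : S.Ball f2) :
    ∃ L : H, Tendsto (fun i => E (plaw i) (fun n => S.ι (S.U n f1 * S.W n f2))) atTop (𝓝 L) := by
  obtain ⟨L, hL⟩ := cauchySeq_tendsto_of_complete (astmt qi S f1 f2 h1 h2)
  have e1 : ∀ k, S.ι (S.Bf ((stg k).map Prod.fst) f1 f2)
      = E (stg k) (fun a => S.ι (S.U a.1 f1 * S.W a.1 f2)) := fun k => by
    unfold Sys.Bf
    rw [map_E, E_map]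
  simp only [e1] at hL
  have hb : ∀ Z : Zeta S, Tendsto (fun k => E (stg k)
      (fun a => S.ι (Z.z a.2 * (S.U a.1 f1 * S.W a.1 f2)))) atTop (𝓝 0) := fun Z => by
    refine tendsto_zero_of_pow (r := 674 / 675) (by norm_num) (by norm_num) fun k => ?_
    have := bmain op S Z f1 f2 h1 h2 k
    rw [map_E] at this
    simp only [hW]
    exact this
  have ht : Tendsto (fun k => E (tlt k) (fun n => S.ι (S.U n f1 * S.W n f2))) atTop (𝓝 L) := by
    have e2 : ∀ k, E (tlt k) (fun n => S.ι (S.U n f1 * S.W n f2))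
        = (Zk k)⁻¹ • (E (stg k) (fun a => S.ι (S.U a.1 f1 * S.W a.1 f2))
          + (1 / 2 : ℝ) • (E (stg k) (fun a => S.ι (Z.z a.2 * (S.U a.1 f1 * S.W a.1 f2)))
            + E (stg k) (fun a => S.ι (Z.neg.z a.2 * (S.U a.1 f1 * S.W a.1 f2))))) := fun k => by
      rw [E_tlt, ← E_add, ← E_smul (stg k) (1 / 2 : ℝ), ← E_add]
      congr 2
      funext a
      rw [← map_smul, tau_smul Z a.2, map_add, map_smul, map_add]
      rfl
    simp only [e2]
    have h3 : Tendsto (fun k => (Zk k)⁻¹ • (E (stg k) (fun a => S.ι (S.U a.1 f1 * S.W a.1 f2))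
          + (1 / 2 : ℝ) • (E (stg k) (fun a => S.ι (Z.z a.2 * (S.U a.1 f1 * S.W a.1 f2)))
            + E (stg k) (fun a => S.ι (Z.neg.z a.2 * (S.U a.1 f1 * S.W a.1 f2))))))
        atTop (𝓝 ((1 : ℝ)⁻¹ • (L + (1 / 2 : ℝ) • (0 + 0)))) :=
      (Zk_tendsto.inv₀ one_ne_zero).smul (hL.add (((hb Z).add (hb Z.neg)).const_smul _))
    have e3 : (1 : ℝ)⁻¹ • (L + (1 / 2 : ℝ) • (0 + 0)) = L := by simp
    rw [e3] at h3
    exact h3
  refine ⟨L, ?_⟩
  refine (tendsto_alt hL ht).congr fun i => ?_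
  unfold plaw
  split_ifs <;> rfl

theorem norm_pair_le {f1 f2 : B} (h1 : S.Ball f1) (h2 : S.Ball f2) (n : ℤ) :
    ‖S.ι (S.U n f1 * S.W n f2)‖ ≤ 1 :=
  ((h1.U n) _).trans (h2.W n).norm_le

end

end Pool.Agent.H58.TC
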