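import Pool.Agent.H58.TC.Fin1
import Pool.Agent.H58.TC.Defs

/-!
# The sequence is good for powers
-/

namespace Pool.Agent.H58.TC

open Finset Filter Topology MeasureTheory

/-- First half of the property of the assembled sequence. -/
def AsmOne.{u} (a : ℕ → ℤ) : Prop :=
  ∀ {V : Type u} [NormedAddCommGroup V] [NormedSpace ℝ V] (Ψ : ℤ → V) (M : ℝ),
      (∀ n, ‖Ψ n‖ ≤ M) → ∀ L : V, Tendsto (fun i => E (plaw i) Ψ) atTop (𝓝 L) →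
        Tendsto (fun N : ℕ => (N : ℝ)⁻¹ • ∑ n ∈ Icc 1 N, Ψ (a n)) atTop (𝓝 L)

/-- Second half of the property of the assembled sequence. -/
def AsmTwo.{v} (a : ℕ → ℤ) : Prop :=
  ∀ {V : Type v} [NormedAddCommGroup V] [NormedSpace ℝ V] (Ψ : ℤ → V) (M : ℝ),
      (∀ n, ‖Ψ n‖ ≤ M) → ∀ L : V,
        Tendsto (fun N : ℕ => (N : ℝ)⁻¹ • ∑ n ∈ Icc 1 N, Ψ (a n)) atTop (𝓝 L) →
        Tendsto (fun i => E (plaw i) Ψ) atTop (𝓝 L)

section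

variable {X : Type*} [MeasurableSpace X] {μ : Measure X}

theorem ConvInMean.congr {F G : ℕ → X → ℂ} (hG : ConvInMean μ G) (h : ∀ N, F N =ᵐ[μ] G N) :
    ConvInMean μ F := by
  obtain ⟨g, hg, ht⟩ := hG
  refine ⟨g, hg, ht.congr fun N => eLpNorm_congr_ae ?_⟩
  filter_upwards [h N] with x hx
  rw [Pi.sub_apply, Pi.sub_apply, hx]

theorem ConvInMean.const_mul {G : ℕ → X → ℂ} (c : ℂ) (hG : ConvInMean μ G) :
    ConvInMean μ (fun N x => c * G N x) := by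
  obtain ⟨g, hg, ht⟩ := hG
  refine ⟨fun x => c * g x, hg.const_mul c, ?_⟩
  have h1 : ∀ N, eLpNorm ((fun x => c * G N x) - fun x => c * g x) 2 μ
      = ‖c‖ₑ * eLpNorm (G N - g) 2 μ := fun N => by
    rw [← eLpNorm_const_smul]
    congr 1
    funext x
    simp only [Pi.sub_apply, Pi.smul_apply, smul_eq_mul]
    ring
  simp only [h1]
  have := ENNReal.Tendsto.const_mul (a := ‖c‖ₑ) ht (Or.inr enorm_ne_top)
  rwa [mul_zero] at this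

end

theorem coe_avg {X : Type*} [MeasurableSpace X] (N : ℕ) (F : ℕ → BX X) (x : X) :
    (((N : ℝ)⁻¹ • ∑ n ∈ Icc 1 N, F n : BX X) : X → ℂ) x
      = (N : ℂ)⁻¹ * ∑ n ∈ Icc 1 N, (F n : X → ℂ) x := by
  have h1 : (((N : ℝ)⁻¹ • ∑ n ∈ Icc 1 N, F n : BX X) : X → ℂ)
      = (N : ℝ)⁻¹ • ∑ n ∈ Icc 1 N, (F n : X → ℂ) := by
    rw [← AddSubmonoidClass.coe_finsetSum]; rfl
  rw [h1, Pi.smul_apply, Finset.sum_apply, Complex.real_smul]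
  push_cast
  rfl

theorem powers_unit.{u} {a : ℕ → ℤ} (ha : AsmOne.{u} a) {X : Type u} [MeasurableSpace X]
    (μ : Measure X) [IsProbabilityMeasure μ] (T : X ≃ᵐ X) (hT : MeasurePreserving T μ μ)
    (f1 f2 : BX X) (h1 : ∀ x, ‖(f1 : X → ℂ) x‖ ≤ 1) (h2 : ∀ x, ‖(f2 : X → ℂ) x‖ ≤ 1) :
    ConvInMean μ (fun N x => (N : ℂ)⁻¹ * ∑ n ∈ Icc 1 N,
      (f1 : X → ℂ) ((T.toEquiv ^ (a n) : Equiv.Perm X) x) *
        (f2 : X → ℂ) ((T.toEquiv ^ (2 * a n) : Equiv.Perm X) x)) := by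
  have hc : ∀ x, T (zp T 2 x) = zp T 2 (T x) := fun x => by
    rw [zp_apply, zp_apply]
    have e1 : T ((T.toEquiv ^ (2 : ℤ) : Equiv.Perm X) x)
        = (T.toEquiv ^ (1 + 2 : ℤ) : Equiv.Perm X) x := by rw [zpow_add, zpow_one]; rfl
    have e2 : (T.toEquiv ^ (2 : ℤ) : Equiv.Perm X) (T x)
        = (T.toEquiv ^ (2 + 1 : ℤ) : Equiv.Perm X) x := by rw [zpow_add, zpow_one]; rfl
    rw [e1, e2]; rfl
  set S := bddSys μ T (zp T 2) hT (mp_zp hT 2) hc with hS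
  have Z := bddZeta μ T (zp T 2) hT (mp_zp hT 2) hc
  have hW : ∀ a f, S.W a f = S.U (2 * a) f := fun a f => by
    apply Subtype.ext; funext x
    show (f : X → ℂ) ((((zp T 2).toEquiv) ^ a : Equiv.Perm X) x)
      = (f : X → ℂ) ((T.toEquiv ^ (2 * a) : Equiv.Perm X) x)
    rw [zpow_mul]; rfl
  have hb1 : S.Ball f1 := bddSys_ball μ T (zp T 2) hT (mp_zp hT 2) hc h1
  have hb2 : S.Ball f2 := bddSys_ball μ T (zp T 2) hT (mp_zp hT 2) hc h2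
  obtain ⟨L, hL⟩ := abs_conv Z hW hb1 hb2
  have h := ha (fun n => S.ι (S.U n f1 * S.W n f2)) 1 (norm_pair_le hb1 hb2) L hL
  rw [Lp.tendsto_Lp_iff_tendsto_eLpNorm'] at h
  refine ⟨L, Lp.memLp L, h.congr fun N => eLpNorm_congr_ae ?_⟩
  have e : (N : ℝ)⁻¹ • ∑ n ∈ Icc 1 N, S.ι (S.U (a n) f1 * S.W (a n) f2)
      = iotaX μ ((N : ℝ)⁻¹ • ∑ n ∈ Icc 1 N, (S.U (a n) f1 * S.W (a n) f2)) := by
    rw [map_smul, map_sum]; rfl
  rw [e]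
  filter_upwards [(BX.memLp μ ((N : ℝ)⁻¹ • ∑ n ∈ Icc 1 N,
    (S.U (a n) f1 * S.W (a n) f2))).coeFn_toLp] with x hx
  rw [Pi.sub_apply, Pi.sub_apply, iotaX_apply, hx, coe_avg]
  congr 2
  refine sum_congr rfl fun n _ => ?_
  rw [hW]
  rfl

theorem powers_bdd.{u} {a : ℕ → ℤ} (ha : AsmOne.{u} a) {X : Type u} [MeasurableSpace X]
    (μ : Measure X) [IsProbabilityMeasure μ] (T : X ≃ᵐ X) (hT : MeasurePreserving T μ μ)
    (f1 f2 : X → ℂ) (m1 : Measurable f1) (m2 : Measurable f2) {C D : ℝ}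
    (h1 : ∀ x, ‖f1 x‖ ≤ C) (h2 : ∀ x, ‖f2 x‖ ≤ D) :
    ConvInMean μ (fun N x => (N : ℂ)⁻¹ * ∑ n ∈ Icc 1 N,
      f1 ((T.toEquiv ^ (a n) : Equiv.Perm X) x) *
        f2 ((T.toEquiv ^ (2 * a n) : Equiv.Perm X) x)) := by
  -- normalise
  have key : ∀ (f : X → ℂ) (C : ℝ), Measurable f → (∀ x, ‖f x‖ ≤ C) →
      ∃ g : BX X, (∀ x, ‖(g : X → ℂ) x‖ ≤ 1) ∧
        ∀ x, f x = ((|C| + 1 : ℝ) : ℂ) * (g : X → ℂ) x := by
    intro f C hf hC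
    have hpos : (0 : ℝ) < |C| + 1 := by positivity
    have hb : ∀ x, ‖(((|C| + 1 : ℝ) : ℂ))⁻¹ * f x‖ ≤ 1 := fun x => by
      rw [norm_mul, norm_inv, Complex.norm_real, Real.norm_of_nonneg hpos.le,
        inv_mul_le_iff₀ hpos, mul_one]
      exact (hC x).trans ((le_abs_self C).trans (by linarith))
    refine ⟨⟨fun x => (((|C| + 1 : ℝ) : ℂ))⁻¹ * f x, hf.const_mul _, 1, hb⟩, hb, fun x => ?_⟩
    have hne : (((|C| + 1 : ℝ) : ℂ)) ≠ 0 := by exact_mod_cast hpos.ne'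
    show f x = ((|C| + 1 : ℝ) : ℂ) * ((((|C| + 1 : ℝ) : ℂ))⁻¹ * f x)
    rw [← mul_assoc, mul_inv_cancel₀ hne, one_mul]
  obtain ⟨g1, hg1, e1⟩ := key f1 C m1 h1
  obtain ⟨g2, hg2, e2⟩ := key f2 D m2 h2
  have h := (powers_unit ha μ T hT g1 g2 hg1 hg2).const_mul
    (((|C| + 1 : ℝ) : ℂ) * ((|D| + 1 : ℝ) : ℂ))
  refine h.congr fun N => Eventually.of_forall fun x => ?_
  show (N : ℂ)⁻¹ * ∑ n ∈ Icc 1 N, _ = _
  simp only [e1, e2]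
  rw [mul_left_comm]
  congr 1
  rw [mul_sum]
  refine sum_congr rfl fun n _ => ?_
  ring

theorem goodPowers_two.{u} {a : ℕ → ℤ} (ha : AsmOne.{u} a) : GoodPowers.{u} 2 a := by
  intro X _ μ _ T hT f hf
  obtain ⟨g0, m0, ⟨C, hC⟩, e0⟩ := exists_bdd_rep (hf 0)
  obtain ⟨g1, m1, ⟨D, hD⟩, e1⟩ := exists_bdd_rep (hf 1)
  refine (powers_bdd ha μ T hT g0 g1 m0 m1 hC hD).congr fun N => ?_
  have h0 : ∀ᵐ x ∂μ, ∀ n : ℕ, f 0 ((T.toEquiv ^ (a n) : Equiv.Perm X) x)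
      = g0 ((T.toEquiv ^ (a n) : Equiv.Perm X) x) := by
    rw [ae_all_iff]
    intro n
    exact (mp_zp hT (a n)).quasiMeasurePreserving.ae_eq_comp e0
  have h1 : ∀ᵐ x ∂μ, ∀ n : ℕ, f 1 ((T.toEquiv ^ (2 * a n) : Equiv.Perm X) x)
      = g1 ((T.toEquiv ^ (2 * a n) : Equiv.Perm X) x) := by
    rw [ae_all_iff]
    intro n
    exact (mp_zp hT (2 * a n)).quasiMeasurePreserving.ae_eq_comp e1
  filter_upwards [h0, h1] with x hx0 hx1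
  congr 1
  refine sum_congr rfl fun n _ => ?_
  rw [Fin.prod_univ_two]
  have a0 : ((((0 : Fin 2) : ℕ) : ℤ) + 1) * a n = a n := by simp
  have a1 : ((((1 : Fin 2) : ℕ) : ℤ) + 1) * a n = 2 * a n := by simp
  rw [a0, a1, hx0 n, hx1 n]

end Pool.Agent.H58.TC
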