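import Pool.Agent.H58.TC.Fin2

/-!
# The sequence is not good for commuting transformations
-/

namespace Pool.Agent.H58.TC

open Finset Filter Topology MeasureTheory

/-- The commuting system, in an arbitrary universe. -/
def CStmtU.{v} : Prop :=
  ∃ (X : Type v) (_ : MeasurableSpace X) (μ : Measure X) (T₁ T₂ : X ≃ᵐ X) (f₁ f₂ : X → ℂ),
    IsProbabilityMeasure μ ∧ MeasurePreserving T₁ μ μ ∧ MeasurePreserving T₂ μ μ ∧
    (∀ x, T₁ (T₂ x) = T₂ (T₁ x)) ∧ Measurable f₁ ∧ Measurable f₂ ∧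
    (∀ x, ‖f₁ x‖ = 1) ∧ (∀ x, ‖f₂ x‖ = 1) ∧
    ∀ (k : ℕ) (ω : (stg k).Ω),
      eLpNorm (fun x => f₁ ((T₁.toEquiv ^ ((stg k).v ω).1 : Equiv.Perm X) x) *
          f₂ ((T₂.toEquiv ^ ((stg k).v ω).1 : Equiv.Perm X) x)
        - om (-((stg k).v ω).2) * (f₁ x * f₂ x)) 2 μ ≤ ENNReal.ofReal (1 / 8)

theorem zpow_conj {X Y : Type*} [MeasurableSpace X] [MeasurableSpace Y] (e : X ≃ᵐ Y)
    (T : X ≃ᵐ X) (n : ℤ) (y : Y) :
    ((((e.symm.trans T).trans e).toEquiv) ^ n : Equiv.Perm Y) y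
      = e ((T.toEquiv ^ n : Equiv.Perm X) (e.symm y)) := by
  have h1 : (((e.symm.trans T).trans e).toEquiv : Equiv.Perm Y)
      = e.toEquiv.permCongrHom T.toEquiv := rfl
  rw [h1, ← map_zpow]
  rfl

theorem cstmt_lift.{v} (h : CStmt) : CStmtU.{v} := by
  obtain ⟨X, _, μ, T₁, T₂, f₁, f₂, hμ, m₁, m₂, hc, hf₁, hf₂, n₁, n₂, hk⟩ := h
  let e : X ≃ᵐ ULift.{v} X := MeasurableEquiv.ulift.symm
  have he : MeasurePreserving e μ (μ.map e) := ⟨e.measurable, rfl⟩
  have he' : MeasurePreserving e.symm (μ.map e) μ := he.symm e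
  refine ⟨ULift.{v} X, inferInstance, μ.map e, (e.symm.trans T₁).trans e,
    (e.symm.trans T₂).trans e, f₁ ∘ e.symm, f₂ ∘ e.symm,
    Measure.isProbabilityMeasure_map e.measurable.aemeasurable,
    he.comp (m₁.comp he'), he.comp (m₂.comp he'), ?_, hf₁.comp e.symm.measurable,
    hf₂.comp e.symm.measurable, fun x => n₁ _, fun x => n₂ _, fun k ω => ?_⟩
  · intro x
    show e (T₁ (e.symm (e (T₂ (e.symm x))))) = e (T₂ (e.symm (e (T₁ (e.symm x)))))
    rw [e.symm_apply_apply, e.symm_apply_apply, hc]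
  · rw [e.measurableEmbedding.eLpNorm_map_measure]
    refine le_trans (le_of_eq ?_) (hk k ω)
    congr 1
    funext x
    simp only [Function.comp_apply, zpow_conj, e.symm_apply_apply]

theorem tau_om (s : ZMod 3) :
    (tau s : ℂ) * om (-s) = om (-s) + (1 / 2) * (1 + om s) := by
  have h0 : s = 0 ∨ s = 1 ∨ s = 2 := by revert s; decide
  have h3 := om_sum
  rcases h0 with rfl | rfl | rfl
  · rw [neg_zero, om_zero]
    unfold tau
    rw [if_pos rfl]
    norm_num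
  · have : (-1 : ZMod 3) = 2 := rfl
    rw [this]
    unfold tau
    rw [if_neg (by decide)]
    push_cast
    linear_combination (-1 / 2 : ℂ) * h3
  · have : (-2 : ZMod 3) = 1 := rfl
    rw [this]
    unfold tau
    rw [if_neg (by decide)]
    push_cast
    linear_combination (-1 / 2 : ℂ) * h3

theorem E_om_neg (k : ℕ) : E (stg k) (fun a => om (-a.2)) = ((4 / 5 : ℝ) ^ k : ℝ) := by
  have h1 := congrArg (starRingEnd ℂ) (mass k)
  rw [Complex.conj_ofReal] at h1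
  rw [← h1]
  have h2 := map_E (Complex.conjLIE.toLinearEquiv.toLinearMap : ℂ →ₗ[ℝ] ℂ) (stg k)
    (fun a => om a.2)
  have h3 : (Complex.conjLIE.toLinearEquiv.toLinearMap : ℂ →ₗ[ℝ] ℂ)
      (E (stg k) (fun a => om a.2)) = (starRingEnd ℂ) (E (stg k) (fun a => om a.2)) := rfl
  rw [h3] at h2
  rw [h2]
  congr 1
  funext a
  rw [om_neg]
  rfl

theorem not_good.{v} {a : ℕ → ℤ} (ha : AsmTwo.{v} a) (hC : CStmtU.{v}) :
    ¬ GoodCommuting.{v} 2 a := by
  intro hg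
  obtain ⟨X, _, μ, T₁, T₂, f₁, f₂, hμ, m₁, m₂, hc, hf₁, hf₂, n₁, n₂, hk⟩ := hC
  -- the functions
  have hFm : ∀ n : ℤ, MemLp (fun x => f₁ ((T₁.toEquiv ^ n : Equiv.Perm X) x) *
      f₂ ((T₂.toEquiv ^ n : Equiv.Perm X) x)) 2 μ := fun n => by
    refine MemLp.of_bound ((hf₁.comp (measurable_zpow T₁ n)).mul
      (hf₂.comp (measurable_zpow T₂ n))).aestronglyMeasurable 1 (Eventually.of_forall fun x => ?_)
    rw [norm_mul, n₁, n₂, one_mul]
  have hF0 : MemLp (fun x => f₁ x * f₂ x) 2 μ := by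
    refine MemLp.of_bound (hf₁.mul hf₂).aestronglyMeasurable 1 (Eventually.of_forall fun x => ?_)
    rw [norm_mul, n₁, n₂, one_mul]
  let Ψ : ℤ → Lp ℂ 2 μ := fun n => (hFm n).toLp _
  let F : Lp ℂ 2 μ := hF0.toLp _
  have hΨ1 : ∀ n, ‖Ψ n‖ ≤ 1 := fun n => by
    simp only [Ψ]
    rw [Lp.norm_toLp]
    have := eLpNorm_le_of_ae_bound (p := 2) (μ := μ) (f := fun x =>
      f₁ ((T₁.toEquiv ^ n : Equiv.Perm X) x) * f₂ ((T₂.toEquiv ^ n : Equiv.Perm X) x)) (C := 1)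
      (Eventually.of_forall fun x => by rw [norm_mul, n₁, n₂, one_mul])
    exact ENNReal.toReal_le_of_le_ofReal zero_le_one (by simpa using this)
  have hF1 : ‖F‖ = 1 := by
    simp only [F]
    rw [Lp.norm_toLp]
    have h1 : eLpNorm (fun x => f₁ x * f₂ x) 2 μ = eLpNorm (fun _ : X => (1 : ℂ)) 2 μ :=
      eLpNorm_congr_norm_ae (Eventually.of_forall fun x => by
        rw [norm_mul, n₁, n₂, one_mul, norm_one])
    rw [h1, eLpNorm_const _ two_ne_zero (IsProbabilityMeasure.ne_zero μ)]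
    simp
  -- the error
  have herr : ∀ (k : ℕ) (ω : (stg k).Ω),
      ‖Ψ ((stg k).v ω).1 - om (-((stg k).v ω).2) • F‖ ≤ 1 / 8 := fun k ω => by
    have h1 : Ψ ((stg k).v ω).1 - om (-((stg k).v ω).2) • F
        = ((hFm ((stg k).v ω).1).sub (hF0.const_smul (om (-((stg k).v ω).2)))).toLp _ := by
      rw [MemLp.toLp_sub (hFm _) (hF0.const_smul _), MemLp.toLp_const_smul _ hF0]
    rw [h1, Lp.norm_toLp]
    exact ENNReal.toReal_le_of_le_ofReal (by norm_num) (hk k ω)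
  -- scalars times F
  let J : ℂ →ₗ[ℝ] Lp ℂ 2 μ := (LinearMap.toSpanSingleton ℂ (Lp ℂ 2 μ) F).restrictScalars ℝ
  have hJ : ∀ c : ℂ, J c = c • F := fun c => rfl
  -- convergence
  have hconv : ∃ L : Lp ℂ 2 μ,
      Tendsto (fun N : ℕ => (N : ℝ)⁻¹ • ∑ n ∈ Icc 1 N, Ψ (a n)) atTop (𝓝 L) := by
    obtain ⟨g, hgm, hgt⟩ := hg X μ ![T₁, T₂] (by
        intro i
        fin_cases i
        · exact m₁
        · exact m₂) (by
        intro i j x
        fin_cases i <;> fin_cases j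
        · rfl
        · exact hc x
        · exact (hc x).symm
        · rfl) ![f₁, f₂] (by
        intro i
        fin_cases i
        · exact memLp_top_of_bound hf₁.aestronglyMeasurable 1
            (Eventually.of_forall fun x => (n₁ x).le)
        · exact memLp_top_of_bound hf₂.aestronglyMeasurable 1
            (Eventually.of_forall fun x => (n₂ x).le))
    refine ⟨hgm.toLp g, ?_⟩
    rw [Lp.tendsto_Lp_iff_tendsto_eLpNorm]
    refine hgt.congr fun N => eLpNorm_congr_ae ?_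
    have h1 : ∀ᵐ x ∂μ, ∀ n : ℕ, (Ψ (a n) : X → ℂ) x
        = f₁ ((T₁.toEquiv ^ (a n) : Equiv.Perm X) x) *
          f₂ ((T₂.toEquiv ^ (a n) : Equiv.Perm X) x) := by
      rw [ae_all_iff]
      intro n
      exact (hFm (a n)).coeFn_toLp
    have h2 : ∀ᵐ x ∂μ, (((∑ n ∈ Icc 1 N, Ψ (a n) : Lp ℂ 2 μ)) : X → ℂ) x
        = ∑ n ∈ Icc 1 N, (Ψ (a n) : X → ℂ) x := by
      filter_upwards [Lp.coeFn_finsetSum (Icc 1 N) (fun n => Ψ (a n))] with x hx
      rw [hx, Finset.sum_apply]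
    filter_upwards [h1, h2, Lp.coeFn_smul (N : ℝ)⁻¹ (∑ n ∈ Icc 1 N, Ψ (a n))] with x hx1 hx2 hx3
    rw [Pi.sub_apply, Pi.sub_apply, hx3, Pi.smul_apply, hx2, Complex.real_smul]
    congr 1
    simp only [Fin.prod_univ_two, Matrix.cons_val_zero, Matrix.cons_val_one]
    push_cast
    congr 1
    exact sum_congr rfl fun n _ => (hx1 n).symm
  obtain ⟨L, hL⟩ := hconv
  have hE := ha Ψ 1 hΨ1 L hL
  -- the two subsequences
  have hE0 : Tendsto (fun k => E (stg k) (fun x => Ψ x.1)) atTop (𝓝 L) := by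
    have h1 : Tendsto (fun k : ℕ => 2 * k) atTop atTop :=
      tendsto_atTop_atTop.2 fun b => ⟨b, fun a ha => by omega⟩
    refine (hE.comp h1).congr fun k => ?_
    show E (plaw (2 * k)) Ψ = _
    unfold plaw
    rw [if_pos (by omega), show 2 * k / 2 = k by omega]
    rfl
  have hE1 : Tendsto (fun k => E (tlt k) Ψ) atTop (𝓝 L) := by
    have h1 : Tendsto (fun k : ℕ => 2 * k + 1) atTop atTop :=
      tendsto_atTop_atTop.2 fun b => ⟨b, fun a ha => by omega⟩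
    refine (hE.comp h1).congr fun k => ?_
    show E (plaw (2 * k + 1)) Ψ = _
    unfold plaw
    rw [if_neg (by omega), show (2 * k + 1) / 2 = k by omega]
  -- upper bound
  have hup : ‖L‖ ≤ 1 / 8 := by
    have h1 : ∀ k, ‖E (stg k) (fun x => Ψ x.1)‖ ≤ (4 / 5 : ℝ) ^ k + 1 / 8 := fun k => by
      have h2 : ‖E (stg k) (fun x => Ψ x.1 - om (-x.2) • F)‖ ≤ 1 / 8 :=
        norm_E_le_of_le' _ fun ω => herr k ω
      have h3 : E (stg k) (fun x => om (-x.2) • F) = (((4 / 5 : ℝ) ^ k : ℝ) : ℂ) • F := by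
        rw [← E_om_neg, ← hJ, map_E]
        rfl
      rw [E_sub, h3] at h2
      have h4 : ‖(((4 / 5 : ℝ) ^ k : ℝ) : ℂ) • F‖ = (4 / 5 : ℝ) ^ k := by
        rw [norm_smul, hF1, mul_one, Complex.norm_real, Real.norm_of_nonneg (by positivity)]
      have h5 := norm_sub_norm_le (E (stg k) (fun x => Ψ x.1)) ((((4 / 5 : ℝ) ^ k : ℝ) : ℂ) • F)
      linarith
    have h6 : Tendsto (fun k : ℕ => (4 / 5 : ℝ) ^ k + 1 / 8) atTop (𝓝 (0 + 1 / 8)) :=
      (tendsto_pow_atTop_nhds_zero_of_lt_one (by norm_num) (by norm_num)).add_const _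
    rw [zero_add] at h6
    exact le_of_tendsto_of_tendsto' hE0.norm h6 h1
  -- lower bound
  have hlo : 3 / 8 ≤ ‖L‖ := by
    have h1 : ∀ k, (Zk k)⁻¹ * (1 / 2) - 1 / 8 ≤ ‖E (tlt k) Ψ‖ := fun k => by
      have hZ := Zk_pos k
      have h2 : ‖E (stg k) (fun x => tau x.2 • (Ψ x.1 - om (-x.2) • F))‖ ≤ Zk k * (1 / 8) := by
        refine (norm_E_le _ _).trans ?_
        have : Zk k * (1 / 8) = E (stg k) (fun x => tau x.2 * (1 / 8)) := by
          rw [E_mul_right]; rfl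
        rw [this]
        refine E_mono' _ fun ω => ?_
        rw [norm_smul, Real.norm_of_nonneg (tau_pos _).le]
        exact mul_le_mul_of_nonneg_left (herr k ω) (tau_pos _).le
      have h3 : E (stg k) (fun x => tau x.2 • (om (-x.2) • F))
          = ((((4 / 5 : ℝ) ^ k + (1 / 2) * (1 + (4 / 5 : ℝ) ^ k) : ℝ)) : ℂ) • F := by
        have h4 : (fun x : ℤ × ZMod 3 => tau x.2 • (om (-x.2) • F))
            = fun x => J (om (-x.2) + (1 / 2) * (1 + om x.2)) := by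
          funext x
          rw [hJ, ← tau_om, mul_smul]
          rfl
        rw [h4, ← map_E, E_add, E_mul_left, E_add, E_const, E_om_neg, mass k, hJ]
        push_cast
        rfl
      have h5 : (fun x : ℤ × ZMod 3 => tau x.2 • (Ψ x.1 - om (-x.2) • F))
          = fun x => tau x.2 • Ψ x.1 - tau x.2 • (om (-x.2) • F) := by
        funext x; rw [smul_sub]
      rw [h5, E_sub, h3] at h2
      have h6 : ‖((((4 / 5 : ℝ) ^ k + (1 / 2) * (1 + (4 / 5 : ℝ) ^ k) : ℝ)) : ℂ) • F‖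
          = (4 / 5 : ℝ) ^ k + (1 / 2) * (1 + (4 / 5 : ℝ) ^ k) := by
        rw [norm_smul, hF1, mul_one, Complex.norm_real, Real.norm_of_nonneg (by positivity)]
      have h7 := norm_sub_norm_le
        (((((4 / 5 : ℝ) ^ k + (1 / 2) * (1 + (4 / 5 : ℝ) ^ k) : ℝ)) : ℂ) • F)
        (E (stg k) (fun x => tau x.2 • Ψ x.1))
      rw [norm_sub_rev] at h7
      have h8 : (0 : ℝ) ≤ (4 / 5) ^ k := by positivity
      have h9 : 1 / 2 - Zk k * (1 / 8) ≤ ‖E (stg k) (fun x => tau x.2 • Ψ x.1)‖ := by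
        linarith
      rw [E_tlt, norm_smul, Real.norm_of_nonneg (inv_nonneg.2 hZ.le)]
      have h10 := mul_le_mul_of_nonneg_left h9 (inv_nonneg.2 hZ.le)
      have h11 : (Zk k)⁻¹ * (1 / 2 - Zk k * (1 / 8)) = (Zk k)⁻¹ * (1 / 2) - 1 / 8 := by
        field_simp
      linarith
    have h6 : Tendsto (fun k : ℕ => (Zk k)⁻¹ * (1 / 2) - 1 / 8) atTop
        (𝓝 ((1 : ℝ)⁻¹ * (1 / 2) - 1 / 8)) :=
      ((Zk_tendsto.inv₀ one_ne_zero).mul_const _).sub_const _
    have h7 := le_of_tendsto_of_tendsto' h6 hE1.norm h1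
    linarith
  linarith

end Pool.Agent.H58.TC
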