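import Pool.Agent.H58.TC.Mass

/-!
# Glue: from measure preserving systems to the abstract systems
-/

namespace Pool.Agent.H58.TC

open MeasureTheory Filter Topology

/-! ### Integer powers of a measurable equivalence -/

section zp

variable {X : Type*} [MeasurableSpace X]

theorem measurable_zpow (T : X ≃ᵐ X) (a : ℤ) :
    Measurable (fun x => (T.toEquiv ^ a : Equiv.Perm X) x) := by
  induction a using Int.induction_on with
  | zero =>
    have : (fun x => (T.toEquiv ^ (0 : ℤ) : Equiv.Perm X) x) = id := by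
      funext x; rw [zpow_zero]; rfl
    rw [this]; exact measurable_id
  | succ n ih =>
    have : (fun x => (T.toEquiv ^ ((n : ℤ) + 1) : Equiv.Perm X) x)
        = (fun x => (T.toEquiv ^ (n : ℤ) : Equiv.Perm X) x) ∘ T := by
      funext x; rw [zpow_add_one]; rfl
    rw [this]
    exact ih.comp T.measurable
  | pred n ih =>
    have : (fun x => (T.toEquiv ^ (-(n : ℤ) - 1) : Equiv.Perm X) x)
        = (fun x => (T.toEquiv ^ (-(n : ℤ)) : Equiv.Perm X) x) ∘ T.symm := by
      funext x; rw [zpow_sub_one]; rfl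
    rw [this]
    exact ih.comp T.symm.measurable

/-- The power `T ^ a` as a measurable equivalence. -/
def zp (T : X ≃ᵐ X) (a : ℤ) : X ≃ᵐ X where
  toEquiv := (T.toEquiv ^ a : Equiv.Perm X)
  measurable_toFun := measurable_zpow T a
  measurable_invFun := by
    have h : ((T.toEquiv ^ a : Equiv.Perm X).symm : X → X)
        = fun x => (T.toEquiv ^ (-a) : Equiv.Perm X) x := by
      rw [zpow_neg]; rfl
    have := measurable_zpow T (-a)
    rw [← h] at this
    exact this

theorem zp_apply (T : X ≃ᵐ X) (a : ℤ) (x : X) :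
    zp T a x = (T.toEquiv ^ a : Equiv.Perm X) x := rfl

theorem mp_zp {μ : Measure X} {T : X ≃ᵐ X} (hT : MeasurePreserving T μ μ) (a : ℤ) :
    MeasurePreserving (zp T a) μ μ := by
  induction a using Int.induction_on with
  | zero =>
    have : (zp T 0 : X → X) = id := by funext x; rw [zp_apply]; simp
    rw [this]; exact MeasurePreserving.id μ
  | succ n ih =>
    have : (zp T ((n : ℤ) + 1) : X → X) = zp T n ∘ T := by
      funext x; rw [zp_apply, zpow_add_one]; rfl
    rw [this]
    exact ih.comp hT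
  | pred n ih =>
    have : (zp T (-(n : ℤ) - 1) : X → X) = zp T (-(n : ℤ)) ∘ T.symm := by
      funext x; rw [zp_apply, zpow_sub_one]; rfl
    rw [this]
    exact ih.comp (hT.symm T)

end zp

/-! ### The algebra of bounded measurable functions -/

/-- Bounded measurable functions. -/
def BX (X : Type*) [MeasurableSpace X] : StarSubalgebra ℝ (X → ℂ) where
  carrier := {f | Measurable f ∧ ∃ C : ℝ, ∀ x, ‖f x‖ ≤ C}
  mul_mem' := by
    rintro f g ⟨hf, C, hC⟩ ⟨hg, D, hD⟩
    refine ⟨hf.mul hg, C * D, fun x => ?_⟩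
    rw [Pi.mul_apply, norm_mul]
    exact mul_le_mul (hC x) (hD x) (norm_nonneg _) ((norm_nonneg _).trans (hC x))
  add_mem' := by
    rintro f g ⟨hf, C, hC⟩ ⟨hg, D, hD⟩
    refine ⟨hf.add hg, C + D, fun x => ?_⟩
    rw [Pi.add_apply]
    exact (norm_add_le _ _).trans (add_le_add (hC x) (hD x))
  algebraMap_mem' r := by
    refine ⟨measurable_const, ‖(algebraMap ℝ ℂ r)‖, fun x => ?_⟩
    exact le_rfl
  star_mem' := by
    rintro f ⟨hf, C, hC⟩
    refine ⟨continuous_star.measurable.comp hf, C, fun x => ?_⟩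
    rw [Pi.star_apply, norm_star]
    exact hC x

section sys

variable {X : Type*} [MeasurableSpace X]

theorem BX.memLp (μ : Measure X) [IsProbabilityMeasure μ] (f : BX X) :
    MemLp (f : X → ℂ) 2 μ := by
  obtain ⟨hf, C, hC⟩ := f.2
  exact MemLp.of_bound hf.aestronglyMeasurable C (Eventually.of_forall hC)

/-- The embedding in `L²`. -/
noncomputable def iotaX (μ : Measure X) [IsProbabilityMeasure μ] : BX X →ₗ[ℝ] Lp ℂ 2 μ where
  toFun f := (BX.memLp μ f).toLp (f : X → ℂ)
  map_add' f g := by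
    exact MemLp.toLp_add (BX.memLp μ f) (BX.memLp μ g)
  map_smul' r f := by
    exact MemLp.toLp_const_smul r (BX.memLp μ f)

theorem iotaX_apply (μ : Measure X) [IsProbabilityMeasure μ] (f : BX X) :
    iotaX μ f = (BX.memLp μ f).toLp (f : X → ℂ) := rfl

theorem inner_iotaX (μ : Measure X) [IsProbabilityMeasure μ] (f g : BX X) :
    inner ℝ (iotaX μ f) (iotaX μ g)
      = ∫ x, inner ℝ ((f : X → ℂ) x) ((g : X → ℂ) x) ∂μ := by
  rw [L2.inner_def]
  refine integral_congr_ae ?_
  filter_upwards [(BX.memLp μ f).coeFn_toLp, (BX.memLp μ g).coeFn_toLp] with x hx hy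
  rw [iotaX_apply, iotaX_apply, hx, hy]

/-- Composition with a measurable map. -/
def compX (S : X → X) (hS : Measurable S) : BX X →ₐ[ℝ] BX X where
  toFun f := ⟨fun x => (f : X → ℂ) (S x), f.2.1.comp hS, by
    obtain ⟨C, hC⟩ := f.2.2
    exact ⟨C, fun x => hC _⟩⟩
  map_one' := rfl
  map_mul' _ _ := rfl
  map_zero' := rfl
  map_add' _ _ := rfl
  commutes' _ := rfl

theorem compX_apply (S : X → X) (hS : Measurable S) (f : BX X) (x : X) :
    (compX S hS f : X → ℂ) x = (f : X → ℂ) (S x) := rfl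

theorem inner_compX (μ : Measure X) [IsProbabilityMeasure μ] (S : X ≃ᵐ X)
    (hS : MeasurePreserving S μ μ) (f g : BX X) :
    inner ℝ (iotaX μ (compX S S.measurable f)) (iotaX μ (compX S S.measurable g))
      = inner ℝ (iotaX μ f) (iotaX μ g) := by
  rw [inner_iotaX, inner_iotaX]
  exact hS.integral_comp' (f := S) (fun x => inner ℝ ((f : X → ℂ) x) ((g : X → ℂ) x))

variable (μ : Measure X) [IsProbabilityMeasure μ] (T₁ T₂ : X ≃ᵐ X)
  (h₁ : MeasurePreserving T₁ μ μ) (h₂ : MeasurePreserving T₂ μ μ)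
  (hc : ∀ x, T₁ (T₂ x) = T₂ (T₁ x))

/-- The abstract system of two commuting measure preserving maps. -/
noncomputable def bddSys : Sys (BX X) (Lp ℂ 2 μ) where
  ι := iotaX μ
  sa f g h := by
    rw [inner_iotaX, inner_iotaX]
    refine integral_congr_ae (Eventually.of_forall fun x => ?_)
    show inner ℝ ((g : X → ℂ) x * (f : X → ℂ) x) ((h : X → ℂ) x)
      = inner ℝ ((f : X → ℂ) x) (star ((g : X → ℂ) x) * (h : X → ℂ) x)
    rw [Complex.inner, Complex.inner]
    simp only [map_mul, Complex.star_def]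
    congr 1
    ring
  one_le := by
    rw [iotaX_apply, Lp.norm_toLp]
    have h : eLpNorm ((1 : BX X) : X → ℂ) 2 μ ≤ 1 := by
      have := eLpNorm_le_of_ae_bound (p := 2) (μ := μ) (f := ((1 : BX X) : X → ℂ)) (C := 1)
        (Eventually.of_forall fun x => by
          show ‖(1 : ℂ)‖ ≤ 1
          rw [norm_one])
      simpa using this
    exact ENNReal.toReal_le_of_le_ofReal zero_le_one (by simpa using h)
  U a := compX (zp T₁ a) (zp T₁ a).measurable
  W a := compX (zp T₂ a) (zp T₂ a).measurable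
  U_star _ _ := rfl
  W_star _ _ := rfl
  U_zero f := by
    apply Subtype.ext; funext x; rw [compX_apply, zp_apply]; simp
  W_zero f := by
    apply Subtype.ext; funext x; rw [compX_apply, zp_apply]; simp
  U_add a b f := by
    apply Subtype.ext; funext x
    rw [compX_apply, compX_apply, compX_apply, zp_apply, zp_apply, zp_apply, add_comm, zpow_add]
    rfl
  W_add a b f := by
    apply Subtype.ext; funext x
    rw [compX_apply, compX_apply, compX_apply, zp_apply, zp_apply, zp_apply, add_comm, zpow_add]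
    rfl
  comm a b f := by
    apply Subtype.ext; funext x
    rw [compX_apply, compX_apply, compX_apply, compX_apply, zp_apply, zp_apply, zp_apply, zp_apply]
    have hcc : Commute (T₁.toEquiv : Equiv.Perm X) (T₂.toEquiv : Equiv.Perm X) := by
      apply Equiv.ext
      intro x
      exact hc x
    have := hcc.zpow_zpow a b
    have h2 := Equiv.congr_fun this x
    exact congrArg _ h2.symm
  U_inner a f g := inner_compX μ (zp T₁ a) (mp_zp h₁ a) f g
  W_inner a f g := inner_compX μ (zp T₂ a) (mp_zp h₂ a) f g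

theorem bddSys_ball {f : BX X} (hf : ∀ x, ‖(f : X → ℂ) x‖ ≤ 1) :
    (bddSys μ T₁ T₂ h₁ h₂ hc).Ball f := by
  intro g
  show ‖iotaX μ (f * g)‖ ≤ ‖iotaX μ g‖
  rw [iotaX_apply, iotaX_apply, Lp.norm_toLp, Lp.norm_toLp]
  refine ENNReal.toReal_mono (BX.memLp μ g).2.ne ?_
  refine eLpNorm_mono fun x => ?_
  show ‖(f : X → ℂ) x * (g : X → ℂ) x‖ ≤ _
  rw [norm_mul]
  exact mul_le_of_le_one_left (norm_nonneg _) (hf x)

theorem norm_iotaX (f : BX X) : ‖iotaX μ f‖ = (eLpNorm (f : X → ℂ) 2 μ).toReal := by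
  rw [iotaX_apply, Lp.norm_toLp]

/-- A constant function. -/
def cst (X : Type*) [MeasurableSpace X] (c : ℂ) : BX X :=
  ⟨fun _ => c, measurable_const, ‖c‖, fun _ => le_rfl⟩

/-- The character of `ZMod 3`. -/
noncomputable def bddZeta : Zeta (bddSys μ T₁ T₂ h₁ h₂ hc) where
  z s := cst X (om s)
  z_zero := by
    apply Subtype.ext; funext x
    show om 0 = 1
    exact om_zero
  z_add s t := by
    apply Subtype.ext; funext x
    show om (s + t) = om s * om t
    exact om_add s t
  z_star s := by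
    apply Subtype.ext; funext x
    show star (om s) = om (-s)
    rw [om_neg]; rfl
  U_z _ _ := rfl
  z_sum := by
    apply Subtype.ext; funext x
    show 1 + om 1 + om 2 = 0
    exact om_sum

end sys

/-- A bounded function has an everywhere bounded measurable representative. -/
theorem exists_bdd_rep {X : Type*} [MeasurableSpace X] {μ : Measure X} {f : X → ℂ}
    (hf : MemLp f ⊤ μ) :
    ∃ g : X → ℂ, Measurable g ∧ (∃ C : ℝ, ∀ x, ‖g x‖ ≤ C) ∧ f =ᵐ[μ] g := by
  have hm := hf.1
  set g0 := hm.mk f with hg0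
  have hg0m : Measurable g0 := hm.stronglyMeasurable_mk.measurable
  have h0 : f =ᵐ[μ] g0 := hm.ae_eq_mk
  set C := (eLpNorm f ⊤ μ).toReal with hC
  have hset : MeasurableSet {x | ‖g0 x‖ ≤ C} := measurableSet_le hg0m.norm measurable_const
  refine ⟨Set.indicator {x | ‖g0 x‖ ≤ C} g0, hg0m.indicator hset, ⟨C, fun x => ?_⟩, ?_⟩
  · by_cases hx : x ∈ {x | ‖g0 x‖ ≤ C}
    · rw [Set.indicator_of_mem hx]; exact hx
    · rw [Set.indicator_of_notMem hx, norm_zero]; exact ENNReal.toReal_nonneg
  · have h1 : ∀ᵐ x ∂μ, ‖f x‖ ≤ C := by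
      have h2 := ae_le_eLpNormEssSup (f := f) (μ := μ)
      filter_upwards [h2] with x hx
      have h3 : ‖f x‖ₑ ≤ eLpNorm f ⊤ μ := by rw [eLpNorm_exponent_top]; exact hx
      have h4 := ENNReal.toReal_mono hf.2.ne h3
      rw [toReal_enorm] at h4
      exact h4
    filter_upwards [h0, h1] with x hx hx1
    rw [Set.indicator_of_mem]
    · exact hx
    · show ‖g0 x‖ ≤ C
      rw [← hx]; exact hx1

end Pool.Agent.H58.TC
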