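import Mathlib

/-!
# Finitely supported probability laws (sample space representation)
-/

namespace Pool.Agent.H58.TC

open Finset

/-- A finitely supported probability law with values in `G`, given by a finite sample space. -/
structure Law.{u} (G : Type u) : Type (max 1 u) where
  Ω : Type
  fin : Fintype Ω
  w : Ω → ℝ
  v : Ω → G
  nonneg : ∀ ω, 0 ≤ w ω
  sum_one : ∑ ω, w ω = 1

attribute [instance] Law.fin

/-- Expectation of a vector valued function. -/
noncomputable def E {G V : Type*} [AddCommGroup V] [Module ℝ V] (p : Law G) (φ : G → V) : V :=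
  ∑ ω, p.w ω • φ (p.v ω)

section basic

variable {G G' V V' : Type*} [AddCommGroup V] [Module ℝ V] [AddCommGroup V'] [Module ℝ V']

theorem E_def (p : Law G) (φ : G → V) : E p φ = ∑ ω, p.w ω • φ (p.v ω) := rfl

theorem E_congr (p : Law G) {φ ψ : G → V} (h : ∀ ω, φ (p.v ω) = ψ (p.v ω)) : E p φ = E p ψ := by
  unfold E; exact sum_congr rfl fun ω _ => by rw [h]

theorem E_add (p : Law G) (φ ψ : G → V) : E p (fun a => φ a + ψ a) = E p φ + E p ψ := by
  simp [E, smul_add, sum_add_distrib]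

theorem E_sub (p : Law G) (φ ψ : G → V) : E p (fun a => φ a - ψ a) = E p φ - E p ψ := by
  simp [E, smul_sub, sum_sub_distrib]

theorem E_neg (p : Law G) (φ : G → V) : E p (fun a => - φ a) = - E p φ := by
  simp [E]

theorem E_smul (p : Law G) (c : ℝ) (φ : G → V) : E p (fun a => c • φ a) = c • E p φ := by
  simp only [E, smul_sum]
  exact sum_congr rfl fun ω _ => by rw [smul_comm]

theorem E_const (p : Law G) (x : V) : E p (fun _ => x) = x := by
  simp only [E]
  rw [← sum_smul, p.sum_one, one_smul]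

theorem E_sum {ι : Type*} (s : Finset ι) (p : Law G) (φ : ι → G → V) :
    E p (fun a => ∑ i ∈ s, φ i a) = ∑ i ∈ s, E p (φ i) := by
  simp only [E, smul_sum]
  rw [sum_comm]

/-- Fubini. -/
theorem E_comm (p : Law G) (q : Law G') (φ : G → G' → V) :
    E p (fun a => E q (fun b => φ a b)) = E q (fun b => E p (fun a => φ a b)) := by
  simp only [E, smul_sum]
  rw [sum_comm]
  refine sum_congr rfl fun ω _ => sum_congr rfl fun ω' _ => ?_
  rw [smul_comm]

theorem map_E (L : V →ₗ[ℝ] V') (p : Law G) (φ : G → V) : L (E p φ) = E p (fun a => L (φ a)) := by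
  simp [E, map_sum]

theorem E_mul_left {A : Type*} [Ring A] [Algebra ℝ A] (p : Law G) (x : A) (φ : G → A) :
    E p (fun a => x * φ a) = x * E p φ := by
  simp only [E, mul_sum, mul_smul_comm]

theorem E_mul_right {A : Type*} [Ring A] [Algebra ℝ A] (p : Law G) (x : A) (φ : G → A) :
    E p (fun a => φ a * x) = E p φ * x := by
  simp only [E, sum_mul, smul_mul_assoc]

theorem E_nonneg (p : Law G) {φ : G → ℝ} (h : ∀ a, 0 ≤ φ a) : 0 ≤ E p φ :=
  sum_nonneg fun ω _ => by
    simpa using mul_nonneg (p.nonneg ω) (h _)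

theorem E_mono' (p : Law G) {φ ψ : G → ℝ} (h : ∀ ω, φ (p.v ω) ≤ ψ (p.v ω)) : E p φ ≤ E p ψ :=
  sum_le_sum fun ω _ => by
    simpa using mul_le_mul_of_nonneg_left (h ω) (p.nonneg ω)

theorem E_mono (p : Law G) {φ ψ : G → ℝ} (h : ∀ a, φ a ≤ ψ a) : E p φ ≤ E p ψ :=
  E_mono' p fun _ => h _

theorem E_le_of_le' (p : Law G) {φ : G → ℝ} {c : ℝ} (h : ∀ ω, φ (p.v ω) ≤ c) : E p φ ≤ c := by
  have := E_mono' p (φ := φ) (ψ := fun _ => c) h
  rwa [E_const] at this

theorem E_le_of_le (p : Law G) {φ : G → ℝ} {c : ℝ} (h : ∀ a, φ a ≤ c) : E p φ ≤ c :=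
  E_le_of_le' p fun _ => h _

theorem le_E_of_le (p : Law G) {φ : G → ℝ} {c : ℝ} (h : ∀ a, c ≤ φ a) : c ≤ E p φ := by
  have := E_mono p (φ := fun _ => c) (ψ := φ) h
  rwa [E_const] at this

end basic

section normed

variable {G V : Type*} [SeminormedAddCommGroup V] [NormedSpace ℝ V]

theorem norm_E_le (p : Law G) (φ : G → V) : ‖E p φ‖ ≤ E p (fun a => ‖φ a‖) := by
  unfold E
  refine (norm_sum_le _ _).trans (sum_le_sum fun ω _ => ?_)
  rw [norm_smul, Real.norm_of_nonneg (p.nonneg ω), smul_eq_mul]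

theorem norm_E_le_of_le' (p : Law G) {φ : G → V} {c : ℝ} (h : ∀ ω, ‖φ (p.v ω)‖ ≤ c) :
    ‖E p φ‖ ≤ c :=
  (norm_E_le p φ).trans (E_le_of_le' p h)

theorem norm_E_le_of_le (p : Law G) {φ : G → V} {c : ℝ} (h : ∀ a, ‖φ a‖ ≤ c) : ‖E p φ‖ ≤ c :=
  norm_E_le_of_le' p fun _ => h _

theorem abs_E_le_of_le (p : Law G) {φ : G → ℝ} {c : ℝ} (h : ∀ a, |φ a| ≤ c) : |E p φ| ≤ c :=
  norm_E_le_of_le p (φ := φ) h

/-- Jensen / Cauchy-Schwarz for real functions. -/
theorem sq_E_le (p : Law G) (φ : G → ℝ) : (E p φ) ^ 2 ≤ E p (fun a => φ a ^ 2) := by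
  have h := E_nonneg p (φ := fun a => (φ a - E p φ) ^ 2) (fun a => sq_nonneg _)
  have h2 : E p (fun a => (φ a - E p φ) ^ 2)
      = E p (fun a => φ a ^ 2) - (E p φ) ^ 2 := by
    have : (fun a => (φ a - E p φ) ^ 2)
        = fun a => φ a ^ 2 - (2 * E p φ) • φ a + (E p φ) ^ 2 := by
      funext a; simp only [smul_eq_mul]; ring
    rw [this, E_add, E_sub, E_const, E_smul, smul_eq_mul]; ring
  linarith

theorem sq_norm_E_le (p : Law G) (φ : G → V) : ‖E p φ‖ ^ 2 ≤ E p (fun a => ‖φ a‖ ^ 2) :=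
  (pow_le_pow_left₀ (norm_nonneg _) (norm_E_le p φ) 2).trans (sq_E_le p _)

end normed

section inner

variable {G G' H : Type*} [NormedAddCommGroup H] [InnerProductSpace ℝ H]

theorem E_inner_left (p : Law G) (φ : G → H) (x : H) :
    inner ℝ (E p φ) x = E p (fun a => inner ℝ (φ a) x) := by
  simp only [E, sum_inner, real_inner_smul_left, smul_eq_mul]

theorem E_inner_right (p : Law G) (φ : G → H) (x : H) :
    inner ℝ x (E p φ) = E p (fun a => inner ℝ x (φ a)) := by
  simp only [E, inner_sum, real_inner_smul_right, smul_eq_mul]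

end inner

/-! ### Constructions -/

/-- Point mass. -/
def dirac {G : Type*} (g : G) : Law G where
  Ω := Unit
  fin := inferInstance
  w _ := 1
  v _ := g
  nonneg _ := zero_le_one
  sum_one := by simp

/-- Image law. -/
def Law.map {G G' : Type*} (f : G → G') (p : Law G) : Law G' where
  Ω := p.Ω
  fin := p.fin
  w := p.w
  v ω := f (p.v ω)
  nonneg := p.nonneg
  sum_one := p.sum_one

/-- Independent product combined with a binary operation. -/
def Law.op {G G' G'' : Type*} (f : G → G' → G'') (p : Law G) (q : Law G') : Law G'' where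
  Ω := p.Ω × q.Ω
  fin := inferInstance
  w ω := p.w ω.1 * q.w ω.2
  v ω := f (p.v ω.1) (q.v ω.2)
  nonneg ω := mul_nonneg (p.nonneg _) (q.nonneg _)
  sum_one := by
    rw [Fintype.sum_prod_type]
    simp only [← mul_sum, q.sum_one, mul_one, p.sum_one]

/-- Convolution. -/
def conv {G : Type*} [Add G] (p q : Law G) : Law G := Law.op (· + ·) p q

/-- Uniform mixture of a finite nonempty family of laws. -/
noncomputable def mix {ι : Type} [Fintype ι] [Nonempty ι] {G : Type*} (p : ι → Law G) : Law G where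
  Ω := Σ i, (p i).Ω
  fin := inferInstance
  w ω := (Fintype.card ι : ℝ)⁻¹ * (p ω.1).w ω.2
  v ω := (p ω.1).v ω.2
  nonneg ω := mul_nonneg (by positivity) ((p ω.1).nonneg _)
  sum_one := by
    rw [Fintype.sum_sigma]
    simp only [← mul_sum, (p _).sum_one, sum_const, card_univ, nsmul_eq_mul, mul_one]
    rw [mul_inv_cancel₀]
    exact_mod_cast Fintype.card_ne_zero

/-- Uniform law on a finite nonempty type, with values. -/
noncomputable def unifLaw {ι : Type} [Fintype ι] [Nonempty ι] {G : Type*} (v : ι → G) : Law G where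
  Ω := ι
  fin := inferInstance
  w _ := (Fintype.card ι : ℝ)⁻¹
  v := v
  nonneg _ := by positivity
  sum_one := by
    simp only [sum_const, card_univ, nsmul_eq_mul]
    rw [mul_inv_cancel₀]
    exact_mod_cast Fintype.card_ne_zero

/-- A law on laws gives a law. -/
noncomputable def flatten {G : Type*} (P : Law (Law G)) : Law G where
  Ω := Σ i, (P.v i).Ω
  fin := inferInstance
  w ω := P.w ω.1 * (P.v ω.1).w ω.2
  v ω := (P.v ω.1).v ω.2
  nonneg ω := mul_nonneg (P.nonneg _) ((P.v ω.1).nonneg _)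
  sum_one := by
    rw [Fintype.sum_sigma]
    simp only [← mul_sum, (P.v _).sum_one, mul_one, P.sum_one]

section constr

variable {G G' G'' V : Type*} [AddCommGroup V] [Module ℝ V]

@[simp] theorem E_dirac (g : G) (φ : G → V) : E (dirac g) φ = φ g := by
  have : E (dirac g) φ = ∑ _ω : Unit, (1 : ℝ) • φ g := rfl
  rw [this]; simp

@[simp] theorem E_map (f : G → G') (p : Law G) (φ : G' → V) :
    E (p.map f) φ = E p (fun a => φ (f a)) := rfl

theorem E_op (f : G → G' → G'') (p : Law G) (q : Law G') (φ : G'' → V) :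
    E (Law.op f p q) φ = E p (fun a => E q (fun b => φ (f a b))) := by
  simp only [E]
  have : ∑ ω : (Law.op f p q).Ω, (Law.op f p q).w ω • φ ((Law.op f p q).v ω)
      = ∑ ω : p.Ω × q.Ω, (p.w ω.1 * q.w ω.2) • φ (f (p.v ω.1) (q.v ω.2)) := rfl
  rw [this, Fintype.sum_prod_type]
  simp only [smul_sum, mul_smul]

theorem E_conv [Add G] (p q : Law G) (φ : G → V) :
    E (conv p q) φ = E p (fun a => E q (fun b => φ (a + b))) := E_op _ p q φ

theorem E_conv_comm [AddCommSemigroup G] (p q : Law G) (φ : G → V) :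
    E (conv p q) φ = E (conv q p) φ := by
  rw [E_conv, E_conv, E_comm]
  simp only [add_comm]

theorem E_conv_assoc [AddSemigroup G] (p q r : Law G) (φ : G → V) :
    E (conv (conv p q) r) φ = E (conv p (conv q r)) φ := by
  simp only [E_conv, add_assoc]

theorem E_mix {ι : Type} [Fintype ι] [Nonempty ι] (p : ι → Law G) (φ : G → V) :
    E (mix p) φ = (Fintype.card ι : ℝ)⁻¹ • ∑ i, E (p i) φ := by
  simp only [E]
  have : ∑ ω : (mix p).Ω, (mix p).w ω • φ ((mix p).v ω)
      = ∑ ω : Σ i, (p i).Ω, ((Fintype.card ι : ℝ)⁻¹ * (p ω.1).w ω.2) • φ ((p ω.1).v ω.2) := rfl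
  rw [this, Fintype.sum_sigma, smul_sum]
  simp only [smul_sum, mul_smul]

theorem E_unif {ι : Type} [Fintype ι] [Nonempty ι] (v : ι → G) (φ : G → V) :
    E (unifLaw v) φ = (Fintype.card ι : ℝ)⁻¹ • ∑ i, φ (v i) := by
  simp only [E, smul_sum]
  rfl

theorem E_flatten (P : Law (Law G)) (φ : G → V) :
    E (flatten P) φ = E P (fun p => E p φ) := by
  simp only [E]
  have : ∑ ω : (flatten P).Ω, (flatten P).w ω • φ ((flatten P).v ω)
      = ∑ ω : Σ i, (P.v i).Ω, (P.w ω.1 * (P.v ω.1).w ω.2) • φ ((P.v ω.1).v ω.2) := rfl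
  rw [this, Fintype.sum_sigma]
  simp only [smul_sum, mul_smul]

end constr

/-- A symmetric law on `ℤ`. -/
def Symm (p : Law ℤ) : Prop := ∀ φ : ℤ → ℝ, E p (fun a => φ (-a)) = E p φ

/-- Shift error: shifting the law `q` by `a` changes expectations of functions bounded by `1` by at
most `ε`. -/
def SE (q : Law ℤ) (a : ℤ) (ε : ℝ) : Prop :=
  ∀ ψ : ℤ → ℝ, (∀ b, |ψ b| ≤ 1) → |E q (fun b => ψ (b - a) - ψ b)| ≤ ε

/-- `q` is invariant up to `ε` under all shifts from the support of `p`. -/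
def QI (p q : Law ℤ) (ε : ℝ) : Prop := ∀ ω, SE q (p.v ω) ε

end Pool.Agent.H58.TC
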