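import Pool.Agent.H58.TC.Goals

/-!
# The mass of the weight
-/

namespace Pool.Agent.H58.TC

open Finset Filter Topology

theorem om_zero : om 0 = 1 := by unfold om; exact AddChar.map_zero_eq_one _

theorem om_add (s t : ZMod 3) : om (s + t) = om s * om t := by
  unfold om; exact AddChar.map_add_eq_mul _ _ _

theorem om_sum : 1 + om 1 + om 2 = 0 := by
  have h := AddChar.sum_eq_zero_of_ne_one (ψ := (ZMod.stdAddChar : AddChar (ZMod 3) ℂ)) (by
    intro h
    have h1 := ZMod.isPrimitive_stdAddChar 3 (a := 1) (by decide)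
    apply h1
    rw [AddChar.mulShift_one]
    exact h)
  have h2 : ∑ a : ZMod 3, (ZMod.stdAddChar : AddChar (ZMod 3) ℂ) a = om 0 + om 1 + om 2 := by
    exact Fin.sum_univ_three (fun a : Fin 3 => (ZMod.stdAddChar : AddChar (ZMod 3) ℂ) a)
  rw [h2, om_zero] at h
  exact h

theorem om_norm (s : ZMod 3) : ‖om s‖ = 1 := by
  unfold om; exact AddChar.norm_apply _ _

theorem om_neg (s : ZMod 3) : om (-s) = (starRingEnd ℂ) (om s) := by
  unfold om
  exact AddChar.map_neg_eq_conj _ _

theorem E_om_conv (p q : Law (ℤ × ZMod 3)) :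
    E (conv p q) (fun a => om a.2) = E p (fun a => om a.2) * E q (fun a => om a.2) := by
  rw [E_conv]
  have : (fun a : ℤ × ZMod 3 => E q (fun b => om (a + b).2))
      = fun a => om a.2 * E q (fun b => om b.2) := by
    funext a
    rw [← E_mul_left]
    congr 1
    funext b
    rw [← om_add]; rfl
  rw [this, E_mul_right]

theorem E_om_theta (q : Fin 4 → ℤ) (c : Fin 5) :
    E (theta q c) (fun a => om a.2) = if c = 0 then 0 else 1 := by
  unfold theta
  rw [E_unif, Fin.sum_univ_three]
  by_cases hc : c = 0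
  · rw [if_pos hc]
    have h1 : chg c = 1 := by unfold chg; rw [if_pos hc]
    simp only [h1, mul_one]
    have e0 : ((((0 : Fin 3) : ℕ) : ZMod 3) - 1) = 2 := by rfl
    have e1 : ((((1 : Fin 3) : ℕ) : ZMod 3) - 1) = 0 := by rfl
    have e2 : ((((2 : Fin 3) : ℕ) : ZMod 3) - 1) = 1 := by rfl
    rw [e0, e1, e2, om_zero]
    have : om 2 + 1 + om 1 = 0 := by linear_combination om_sum
    rw [this, smul_zero]
  · rw [if_neg hc]
    have h1 : chg c = 0 := by unfold chg; rw [if_neg hc]
    simp only [h1, mul_zero, om_zero]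
    rw [Fintype.card_fin]
    norm_num

theorem E_om_half (L : ℕ) (q : Fin 4 → ℤ) (c : Fin 5) :
    E (half L q c) (fun a => om a.2) = if c = 0 then 0 else 1 := by
  unfold half
  rw [E_om_conv, E_om_theta, E_map]
  simp only [om_zero]
  rw [E_const, one_mul]

theorem E_om_lev (j : ℕ) : E (lev j) (fun a => om a.2) = ((4 / 5 : ℝ) : ℂ) := by
  unfold lev
  rw [E_mix, Fintype.sum_prod_type]
  have h1 : ∀ (c : Fin 5) (r : Fin (Rsc j)),
      E (hmu (Lsc j ((c, r).2 + 1)) (gen j) (c, r).1) (fun a => om a.2)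
        = if c = 0 then 0 else 1 := by
    intro c r
    unfold hmu
    rw [E_om_conv, E_om_half]
    split_ifs <;> simp
  simp only [h1]
  rw [Fintype.card_prod, Fintype.card_fin, Fintype.card_fin]
  simp only [sum_const, card_univ, Fintype.card_fin]
  rw [Fin.sum_univ_five]
  have hR : (Rsc j : ℝ) ≠ 0 := by exact_mod_cast (NeZero.ne (Rsc j))
  have hR' : (Rsc j : ℂ) ≠ 0 := by exact_mod_cast (NeZero.ne (Rsc j))
  simp
  field_simp
  norm_num

theorem mass : MassStmt := by
  intro k
  induction k with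
  | zero =>
    unfold stg
    rw [E_dirac]
    simp [om_zero]
  | succ k ih =>
    unfold stg
    rw [E_om_conv, ih, E_om_lev, pow_succ]
    push_cast
    ring

theorem tau_eq (s : ZMod 3) : tau s = 1 + (om s).re := by
  have h1 : (om 1).re = -1 / 2 ∧ (om 2).re = -1 / 2 := by
    have h := congrArg Complex.re om_sum
    have h2 : om 2 = (starRingEnd ℂ) (om 1) := by rw [← om_neg]; rfl
    have h3 : (om 2).re = (om 1).re := by rw [h2, Complex.conj_re]
    simp only [Complex.add_re, Complex.one_re, Complex.zero_re] at h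
    constructor <;> linarith
  have h0 : s = 0 ∨ s = 1 ∨ s = 2 := by revert s; decide
  rcases h0 with rfl | rfl | rfl
  · rw [om_zero]; unfold tau; norm_num
  · rw [h1.1]; unfold tau; rw [if_neg (by decide)]; norm_num
  · rw [h1.2]; unfold tau; rw [if_neg (by decide)]; norm_num

theorem Zk_eq (k : ℕ) : Zk k = 1 + (4 / 5 : ℝ) ^ k := by
  unfold Zk
  have : (fun a : ℤ × ZMod 3 => tau a.2) = fun a => 1 + Complex.reLm (om a.2) := by
    funext a; rw [tau_eq]; rfl
  rw [this, E_add, E_const, ← map_E, mass k]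
  show 1 + Complex.re (((4 / 5 : ℝ) ^ k : ℝ) : ℂ) = _
  rw [Complex.ofReal_re]

theorem Zk_tendsto : Tendsto Zk atTop (𝓝 1) := by
  have h : Tendsto (fun k : ℕ => 1 + (4 / 5 : ℝ) ^ k) atTop (𝓝 (1 + 0)) :=
    (tendsto_const_nhds).add (tendsto_pow_atTop_nhds_zero_of_lt_one (by norm_num) (by norm_num))
  rw [add_zero] at h
  exact h.congr fun k => (Zk_eq k).symm

end Pool.Agent.H58.TC
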