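import Pool.Agent.H58.TC.Law

/-!
# Abstract systems: an algebra of bounded functions with two commuting `ℤ`-actions
-/

namespace Pool.Agent.H58.TC

open Finset

/-- `B` is an algebra of bounded functions embedded in a Hilbert space `H = L²`, with two
commuting actions `U`, `W` of `ℤ` by automorphisms. -/
structure Sys (B H : Type*) [CommRing B] [StarRing B] [Algebra ℝ B]
    [NormedAddCommGroup H] [InnerProductSpace ℝ H] where
  ι : B →ₗ[ℝ] H
  sa : ∀ f g h : B, inner ℝ (ι (g * f)) (ι h) = inner ℝ (ι f) (ι (star g * h))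
  one_le : ‖ι 1‖ ≤ 1
  U : ℤ → B →ₐ[ℝ] B
  W : ℤ → B →ₐ[ℝ] B
  U_star : ∀ a f, U a (star f) = star (U a f)
  W_star : ∀ a f, W a (star f) = star (W a f)
  U_zero : ∀ f, U 0 f = f
  W_zero : ∀ f, W 0 f = f
  U_add : ∀ a b f, U (a + b) f = U a (U b f)
  W_add : ∀ a b f, W (a + b) f = W a (W b f)
  comm : ∀ a b f, U a (W b f) = W b (U a f)
  U_inner : ∀ a f g, inner ℝ (ι (U a f)) (ι (U a g)) = inner ℝ (ι f) (ι g)
  W_inner : ∀ a f g, inner ℝ (ι (W a f)) (ι (W a g)) = inner ℝ (ι f) (ι g)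

namespace Sys

variable {B H : Type*} [CommRing B] [StarRing B] [Algebra ℝ B]
    [NormedAddCommGroup H] [InnerProductSpace ℝ H] (S : Sys B H)

/-- Functions bounded by one (as multipliers). -/
def Ball (g : B) : Prop := ∀ f, ‖S.ι (g * f)‖ ≤ ‖S.ι f‖

/-- The bilinear average. -/
noncomputable def Bf (p : Law ℤ) (f g : B) : B := E p (fun a => S.U a f * S.W a g)

/-- The linear average. -/
noncomputable def Af (p : Law ℤ) (g : B) : B := E p (fun a => S.W a g)

/-- The dual function. -/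
noncomputable def Df (q : Law ℤ) (h g : B) : B :=
  E q (fun b => S.U (-b) (h * S.W b (star g)))

theorem U_neg_cancel (a : ℤ) (f : B) : S.U a (S.U (-a) f) = f := by
  rw [← S.U_add, add_neg_cancel, S.U_zero]

theorem U_neg_cancel' (a : ℤ) (f : B) : S.U (-a) (S.U a f) = f := by
  rw [← S.U_add, neg_add_cancel, S.U_zero]

theorem W_neg_cancel (a : ℤ) (f : B) : S.W a (S.W (-a) f) = f := by
  rw [← S.W_add, add_neg_cancel, S.W_zero]

theorem W_neg_cancel' (a : ℤ) (f : B) : S.W (-a) (S.W a f) = f := by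
  rw [← S.W_add, neg_add_cancel, S.W_zero]

theorem norm_U (a : ℤ) (f : B) : ‖S.ι (S.U a f)‖ = ‖S.ι f‖ := by
  have h := S.U_inner a f f
  rw [real_inner_self_eq_norm_sq, real_inner_self_eq_norm_sq] at h
  have := (sq_eq_sq₀ (norm_nonneg _) (norm_nonneg _)).1 h
  exact this

theorem norm_W (a : ℤ) (f : B) : ‖S.ι (S.W a f)‖ = ‖S.ι f‖ := by
  have h := S.W_inner a f f
  rw [real_inner_self_eq_norm_sq, real_inner_self_eq_norm_sq] at h
  exact (sq_eq_sq₀ (norm_nonneg _) (norm_nonneg _)).1 h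

/-- Moving `U a` to the other side. -/
theorem U_adj (a : ℤ) (f g : B) :
    inner ℝ (S.ι (S.U a f)) (S.ι g) = inner ℝ (S.ι f) (S.ι (S.U (-a) g)) := by
  rw [← S.U_inner a f (S.U (-a) g), S.U_neg_cancel]

theorem W_adj (a : ℤ) (f g : B) :
    inner ℝ (S.ι (S.W a f)) (S.ι g) = inner ℝ (S.ι f) (S.ι (S.W (-a) g)) := by
  rw [← S.W_inner a f (S.W (-a) g), S.W_neg_cancel]

variable {S}

theorem Ball.norm_le {g : B} (hg : S.Ball g) : ‖S.ι g‖ ≤ 1 := by
  have := hg 1
  rw [mul_one] at this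
  exact this.trans S.one_le

theorem Ball.one : S.Ball 1 := fun f => by rw [one_mul]

theorem Ball.mul {g g' : B} (hg : S.Ball g) (hg' : S.Ball g') : S.Ball (g * g') := fun f => by
  rw [mul_assoc]; exact (hg _).trans (hg' _)

theorem Ball.neg {g : B} (hg : S.Ball g) : S.Ball (-g) := fun f => by
  rw [neg_mul, map_neg, norm_neg]; exact hg f

theorem Ball.star {g : B} (hg : S.Ball g) : S.Ball (star g) := fun f => by
  have h1 : ‖S.ι (Star.star g * f)‖ ^ 2 ≤ ‖S.ι f‖ * ‖S.ι (Star.star g * f)‖ := by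
    rw [← real_inner_self_eq_norm_sq, S.sa, star_star]
    exact (real_inner_le_norm _ _).trans
      (mul_le_mul_of_nonneg_left (hg _) (norm_nonneg _))
  rcases (norm_nonneg (S.ι (Star.star g * f))).eq_or_lt with h0 | h0
  · rw [← h0]; exact norm_nonneg _
  · rw [sq] at h1
    exact le_of_mul_le_mul_right h1 h0

theorem Ball.U {g : B} (hg : S.Ball g) (a : ℤ) : S.Ball (S.U a g) := fun f => by
  have : S.U a g * f = S.U a (g * S.U (-a) f) := by
    rw [map_mul, S.U_neg_cancel]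
  rw [this, S.norm_U]
  exact (hg _).trans (S.norm_U _ _).le

theorem Ball.W {g : B} (hg : S.Ball g) (a : ℤ) : S.Ball (S.W a g) := fun f => by
  have : S.W a g * f = S.W a (g * S.W (-a) f) := by
    rw [map_mul, S.W_neg_cancel]
  rw [this, S.norm_W]
  exact (hg _).trans (S.norm_W _ _).le

theorem Ball.E {G : Type*} {p : Law G} {φ : G → B} (h : ∀ ω, S.Ball (φ (p.v ω))) :
    S.Ball (E p φ) := fun f => by
  rw [← E_mul_right, map_E]
  exact norm_E_le_of_le' p fun ω => h ω f

end Sys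

end Pool.Agent.H58.TC
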